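import Pool.Agent.Helper76.RP.Fin

/-!
# The period `4`: odd zeta values and odd powers of `π`
-/

set_option autoImplicit false

open Module

namespace Pool.Agent.Helper76.RP

noncomputable section

/-- `L(χ₄, j) = ρ_j π^j` for odd `j`, where `χ₄` is the odd character modulo `4` -/
def rho (j : ℕ) : ℚ :=
  (-1) ^ ((j + 1) / 2) * 2 ^ (j - 1) * (Polynomial.bernoulli j).eval (1 / 4) / (j.factorial : ℚ)

/-- the periodic function `α₀ + α₁ [2 ∣ n] + α₂ [4 ∣ n] + τ χ₄(n)` -/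
def f4 (α₀ α₁ α₂ τ : ℝ) : ZMod 4 → ℝ := (![α₀ + α₁ + α₂, α₀ + τ, α₀ + α₁, α₀ - τ] : Fin 4 → ℝ)

lemma f4_eq (α₀ α₁ α₂ τ : ℝ) (n : ℕ) : f4 α₀ α₁ α₂ τ (n : ZMod 4) =
    α₀ + α₁ * (if 2 ∣ n then 1 else 0) + α₂ * (if 4 ∣ n then 1 else 0) +
      τ * Real.sin (2 * Real.pi * n * (1 / 4)) := by
  obtain ⟨q, r, hr, rfl⟩ : ∃ q r, r < 4 ∧ n = 4 * q + r :=
    ⟨n / 4, n % 4, Nat.mod_lt _ (by norm_num), (Nat.div_add_mod n 4).symm⟩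
  have h1 : ((4 * q + r : ℕ) : ZMod 4) = (r : ZMod 4) := by
    push_cast
    have : (4 : ZMod 4) = 0 := by decide
    rw [this]
    ring
  have h2 : Real.sin (2 * Real.pi * ((4 * q + r : ℕ) : ℝ) * (1 / 4)) = Real.sin (r * (Real.pi / 2)) := by
    have : 2 * Real.pi * ((4 * q + r : ℕ) : ℝ) * (1 / 4) = r * (Real.pi / 2) + q * (2 * Real.pi) := by
      push_cast
      ring
    rw [this, Real.sin_add_nat_mul_two_pi]
  rw [h1, h2]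
  interval_cases r
  · have e1 : 2 ∣ 4 * q + 0 := by omega
    have e2 : 4 ∣ 4 * q + 0 := by omega
    rw [if_pos e1, if_pos e2]
    simp [f4]
  · have e1 : ¬ 2 ∣ 4 * q + 1 := by omega
    have e2 : ¬ 4 ∣ 4 * q + 1 := by omega
    rw [if_neg e1, if_neg e2]
    simp [f4]
  · have e1 : 2 ∣ 4 * q + 2 := by omega
    have e2 : ¬ 4 ∣ 4 * q + 2 := by omega
    rw [if_pos e1, if_neg e2]
    have e3 : ((2 : ℕ) : ℝ) * (Real.pi / 2) = Real.pi := by push_cast; ring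
    rw [e3, Real.sin_pi]
    simp [f4]
  · have e1 : ¬ 2 ∣ 4 * q + 3 := by omega
    have e2 : ¬ 4 ∣ 4 * q + 3 := by omega
    rw [if_neg e1, if_neg e2]
    have e3 : ((3 : ℕ) : ℝ) * (Real.pi / 2) = Real.pi / 2 + Real.pi := by push_cast; ring
    rw [e3, Real.sin_add_pi, Real.sin_pi_div_two]
    have e4 : f4 α₀ α₁ α₂ τ ((3 : ℕ) : ZMod 4) = α₀ - τ := rfl
    rw [e4]
    ring

lemma hasSum_dvd {j d : ℕ} (hd : 1 ≤ d) (hj : 2 ≤ j) :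
    HasSum (fun n : ℕ => (if d ∣ n then (1 : ℝ) else 0) * (1 / (n : ℝ) ^ j))
      ((∑' n : ℕ, 1 / ((n : ℝ) + 1) ^ j) / (d : ℝ) ^ j) := by
  have h0 : (d : ℝ) ≠ 0 := by exact_mod_cast (by omega : d ≠ 0)
  have hinj : Function.Injective (fun n : ℕ => d * n) := fun a b hab => Nat.eq_of_mul_eq_mul_left hd hab
  have h1 : HasSum (fun n : ℕ => 1 / (n : ℝ) ^ j) (∑' n : ℕ, 1 / ((n : ℝ) + 1) ^ j) := by
    have h2 : HasSum (fun n : ℕ => 1 / ((n : ℝ) + 1) ^ j) (∑' n : ℕ, 1 / ((n : ℝ) + 1) ^ j) :=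
      Pool.Agent.N797.PW.JReal.zr_hasSum hj
    have h3 : HasSum (fun n : ℕ => (fun m : ℕ => 1 / (m : ℝ) ^ j) (n + 1)) (∑' n : ℕ, 1 / ((n : ℝ) + 1) ^ j) := by
      refine h2.congr_fun fun n => ?_
      push_cast
      rfl
    have h4 := (hasSum_nat_add_iff (f := fun m : ℕ => 1 / (m : ℝ) ^ j) 1).1 h3
    have h5 : (0 : ℝ) ^ j = 0 := zero_pow (by omega)
    simpa [h5] using h4
  have h2 : HasSum ((fun n : ℕ => (if d ∣ n then (1 : ℝ) else 0) * (1 / (n : ℝ) ^ j)) ∘ fun n : ℕ => d * n)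
      ((∑' n : ℕ, 1 / ((n : ℝ) + 1) ^ j) / (d : ℝ) ^ j) := by
    have h3 := h1.div_const ((d : ℝ) ^ j)
    refine h3.congr_fun fun n => ?_
    simp only [Function.comp]
    rw [if_pos (Dvd.intro _ rfl), one_mul]
    push_cast
    rw [mul_pow, div_div, mul_comm]
  refine (hinj.hasSum_iff ?_).1 h2
  intro n hn
  rw [if_neg, zero_mul]
  rintro ⟨m, rfl⟩
  exact hn ⟨m, rfl⟩

/-- the values for the period `4` -/
theorem xp_f4 (α₀ α₁ α₂ τ : ℝ) {j : ℕ} (hj : Odd j) (h3 : 3 ≤ j) :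
    xp 4 (f4 α₀ α₁ α₂ τ) j = (α₀ + α₁ / 2 ^ j + α₂ / 4 ^ j) * (∑' n : ℕ, 1 / ((n : ℝ) + 1) ^ j) +
      τ * ((rho j : ℝ) * Real.pi ^ j) := by
  obtain ⟨Z, hZ⟩ : ∃ Z, Z = ∑' n : ℕ, 1 / ((n : ℝ) + 1) ^ j := ⟨_, rfl⟩
  have h1 := hasSum_dvd (d := 1) (j := j) le_rfl (by omega)
  have h2 := hasSum_dvd (d := 2) (j := j) (by norm_num) (by omega)
  have h4 := hasSum_dvd (d := 4) (j := j) (by norm_num) (by omega)
  rw [← hZ] at h1 h2 h4 ⊢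
  obtain ⟨k, rfl⟩ := hj
  have h5 := hasSum_one_div_nat_pow_mul_sin (k := k) (by omega) (x := 1 / 4) ⟨by norm_num, by norm_num⟩
  have h6 : ((-1 : ℝ) ^ (k + 1) * (2 * Real.pi) ^ (2 * k + 1) / 2 / ((2 * k + 1).factorial : ℝ) *
      (Polynomial.map (algebraMap ℚ ℝ) (Polynomial.bernoulli (2 * k + 1))).eval (1 / 4)) =
      (rho (2 * k + 1) : ℝ) * Real.pi ^ (2 * k + 1) := by
    have e1 : (Polynomial.map (algebraMap ℚ ℝ) (Polynomial.bernoulli (2 * k + 1))).eval (1 / 4) =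
        (((Polynomial.bernoulli (2 * k + 1)).eval (1 / 4) : ℚ) : ℝ) := by
      have : (1 / 4 : ℝ) = algebraMap ℚ ℝ (1 / 4) := by simp
      rw [this, Polynomial.eval_map_apply]
      rfl
    rw [e1]
    unfold rho
    have e2 : (2 * k + 1 + 1) / 2 = k + 1 := by omega
    have e3 : 2 * k + 1 - 1 = 2 * k := by omega
    rw [e2, e3]
    push_cast
    rw [mul_pow, pow_succ (2 : ℝ) (2 * k)]
    ring
  rw [h6] at h5
  have h7 : HasSum (fun n : ℕ => f4 α₀ α₁ α₂ τ (n : ZMod 4) * (1 / (n : ℝ) ^ (2 * k + 1)))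
      (α₀ * (Z / (1 : ℕ) ^ (2 * k + 1)) + α₁ * (Z / (2 : ℕ) ^ (2 * k + 1)) + α₂ * (Z / (4 : ℕ) ^ (2 * k + 1)) +
        τ * ((rho (2 * k + 1) : ℝ) * Real.pi ^ (2 * k + 1))) := by
    refine ((((h1.mul_left α₀).add (h2.mul_left α₁)).add (h4.mul_left α₂)).add (h5.mul_left τ)).congr_fun fun n => ?_
    rw [f4_eq, if_pos (one_dvd n)]
    ring
  have h8 := (hasSum_nat_add_iff' (f := fun n : ℕ => f4 α₀ α₁ α₂ τ (n : ZMod 4) * (1 / (n : ℝ) ^ (2 * k + 1))) 1).2 h7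
  have h9 : xp 4 (f4 α₀ α₁ α₂ τ) (2 * k + 1) = ∑' n : ℕ, (fun n : ℕ => f4 α₀ α₁ α₂ τ (n : ZMod 4) *
      (1 / (n : ℝ) ^ (2 * k + 1))) (n + 1) := by
    unfold xp
    refine tsum_congr fun n => ?_
    simp only
    push_cast
    rfl
  rw [h9, h8.tsum_eq, Finset.sum_range_one]
  have h10 : ((0 : ℕ) : ℝ) ^ (2 * k + 1) = 0 := by
    rw [Nat.cast_zero]
    exact zero_pow (by omega)
  rw [h10]
  push_cast
  rw [one_pow]
  ring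

/-- **Odd zeta values and odd powers of `π`**: the numbers `(α₀ + α₁ 2^(-j) + α₂ 4^(-j)) ζ(j) + τ ρ_j π^j`. -/
theorem zeta_pi {b S s m : ℕ} (hb : 2 ≤ b) (hS : 1 ≤ S) (hs : Wp 4 b S s) (α₀ α₁ α₂ τ : ℝ)
    (hα : α₀ ≠ 0 ∨ α₁ ≠ 0 ∨ α₂ ≠ 0) (F : IntermediateField ℚ ℝ) [FiniteDimensional ℚ F]
    (V : Submodule F ℝ) [Module.Finite F V] (h0 : α₀ ∈ V) (h1 : α₁ ∈ V) (h2 : α₂ ∈ V) (h3 : τ ∈ V)
    (hm : finrank ℚ F * (finrank F V + m) ≤ S + finrank ℚ F) :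
    ∃ J : Finset ℕ, J.card = m ∧ (∀ j ∈ J, b < j ∧ j ≤ s ∧ Odd j) ∧
      LinearIndependent F (fun j : J => V.mkQ ((α₀ + α₁ / 2 ^ (j : ℕ) + α₂ / 4 ^ (j : ℕ)) *
        (∑' n : ℕ, 1 / ((n : ℝ) + 1) ^ (j : ℕ)) + τ * ((rho j : ℝ) * Real.pi ^ (j : ℕ)))) := by
  have hmem : ∀ r, f4 α₀ α₁ α₂ τ r ∈ V := by
    intro r
    fin_cases r
    · exact V.add_mem (V.add_mem h0 h1) h2
    · exact V.add_mem h0 h3
    · exact V.add_mem h0 h1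
    · exact V.sub_mem h0 h3
  have hne : ∃ r, (-1) ^ 0 * f4 α₀ α₁ α₂ τ r + f4 α₀ α₁ α₂ τ (-r) ≠ 0 := by
    by_contra hcon
    push Not at hcon
    have e1 := hcon 1
    have e2 := hcon 2
    have e3 := hcon 0
    have f1 : f4 α₀ α₁ α₂ τ 1 = α₀ + τ := rfl
    have f1' : f4 α₀ α₁ α₂ τ (-1) = α₀ - τ := rfl
    have f2 : f4 α₀ α₁ α₂ τ 2 = α₀ + α₁ := rfl
    have f2' : f4 α₀ α₁ α₂ τ (-2) = α₀ + α₁ := rfl
    have f3 : f4 α₀ α₁ α₂ τ 0 = α₀ + α₁ + α₂ := rfl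
    have f3' : f4 α₀ α₁ α₂ τ (-0) = α₀ + α₁ + α₂ := rfl
    rw [f1, f1', pow_zero] at e1
    rw [f2, f2', pow_zero] at e2
    rw [f3, f3', pow_zero] at e3
    rcases hα with h | h | h
    · apply h; linarith
    · apply h; linarith
    · apply h; linarith
  obtain ⟨J, g1, g2, g3⟩ := indep (measure (N := 4) 0 (by norm_num) hS hs) (f4 α₀ α₁ α₂ τ) hne hm F le_rfl V le_rfl hmem
  refine ⟨J, g1, fun j hj => ?_, ?_⟩
  · obtain ⟨a1, a2, a3⟩ := g2 j hj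
    rw [zero_add] at a3
    exact ⟨a1, a2, a3⟩
  · have e : (fun j : J => V.mkQ (xp 4 (f4 α₀ α₁ α₂ τ) (j : ℕ))) = (fun j : J => V.mkQ ((α₀ + α₁ / 2 ^ (j : ℕ) +
        α₂ / 4 ^ (j : ℕ)) * (∑' n : ℕ, 1 / ((n : ℝ) + 1) ^ (j : ℕ)) + τ * ((rho j : ℝ) * Real.pi ^ (j : ℕ)))) := by
      funext j
      obtain ⟨a1, a2, a3⟩ := g2 j j.2
      rw [zero_add] at a3
      rw [xp_f4 _ _ _ _ a3 (by omega)]
    rw [← e]
    exact g3

end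

end Pool.Agent.Helper76.RP
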