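import Mathlib

/-!
# The parameters
-/

set_option autoImplicit false

namespace Pool.Agent.Helper76.RP

/-- `⌊log₂ (S N)⌋ + 1` -/
def qL (N S : ℕ) : ℕ := Nat.log 2 (S * N) + 1

/-- the number of derivatives -/
def qM (N S : ℕ) : ℕ := 2 ^ 16 * S ^ 2 * qL N S ^ 2

/-- the order of the zeros -/
def qB (N b S : ℕ) : ℕ := b + 2 * qM N S

/-- the half order of the poles, divided by `N` -/
def qH (N b S : ℕ) : ℕ := 2 ^ 20 * S ^ 2 * qL N S * (N * qB N b S)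

/-- the zero at infinity -/
def qw (N b S : ℕ) : ℕ := 2 ^ 12 * S * (N * qB N b S)

/-- the height -/
def qx (N b S : ℕ) : ℕ := 2 ^ 13 * (N * qB N b S)

/-- the degree of the multipliers -/
def qg (N b S : ℕ) : ℕ := 16 * (N * qB N b S) / qL N S + 1

lemma one_le_qL (N S : ℕ) : 1 ≤ qL N S := by unfold qL; omega

lemma SN_le (N S : ℕ) : S * N ≤ 2 ^ qL N S := by
  unfold qL
  exact (Nat.lt_pow_succ_log_self (by norm_num) (S * N)).le

lemma L_le' (N S : ℕ) : qL N S ≤ 2 ^ qL N S := Nat.lt_two_pow_self.le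

lemma one_le_qM {N S : ℕ} (hS : 1 ≤ S) : 1 ≤ qM N S := by
  have h1 := one_le_qL N S
  have h2 : 0 < qM N S := by
    unfold qM
    positivity
  omega

lemma LL_le' (N b S : ℕ) (hN : 1 ≤ N) (hS : 1 ≤ S) : 2 ^ 17 * qL N S ≤ N * qB N b S := by
  have h1 := one_le_qL N S
  have h2 : 2 ^ 17 * qL N S ≤ qB N b S := by
    unfold qB qM
    have h2 : 2 ^ 17 * qL N S ≤ 2 * (2 ^ 16 * S ^ 2 * qL N S ^ 2) := by
      have e1 : 1 ≤ S ^ 2 := Nat.one_le_pow _ _ hS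
      have e2 : qL N S * 1 ≤ qL N S ^ 2 := by
        rw [pow_two]
        exact Nat.mul_le_mul_left _ h1
      calc 2 ^ 17 * qL N S = 2 * (2 ^ 16 * 1 * (qL N S * 1)) := by ring
        _ ≤ 2 * (2 ^ 16 * S ^ 2 * qL N S ^ 2) := by gcongr
    omega
  exact h2.trans (Nat.le_mul_of_pos_left _ hN)

/-! ### Generic estimates -/

section generic

variable {S L B : ℕ}

lemma ggL (hL : 1 ≤ L) : 16 * B + 1 ≤ L * (16 * B / L + 1) := by
  have h2 : 16 * B < L * (16 * B / L + 1) := Nat.lt_mul_div_succ _ (by omega)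
  omega

lemma ggL' : L * (16 * B / L + 1) ≤ 16 * B + L := by
  rw [mul_add, mul_one]
  exact Nat.add_le_add_right (Nat.mul_div_le _ _) _

lemma gg_le (hL : 1 ≤ L) (hB : 2 ^ 17 * L ≤ B) : 16 * B / L + 1 ≤ 17 * B := by
  have h2 := ggL' (B := B) (L := L)
  have h4 : 1 * (16 * B / L + 1) ≤ L * (16 * B / L + 1) := Nat.mul_le_mul_right _ hL
  omega

lemma gJ (hL : 1 ≤ L) (hB : 2 ^ 17 * L ≤ B) :
    4 * (4 * L + 18) * (2 * (16 * B / L + 1) + 2) ≤ 2817 * B := by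
  have h2 := ggL' (B := B) (L := L)
  calc 4 * (4 * L + 18) * (2 * (16 * B / L + 1) + 2) ≤ 4 * (22 * L) * (2 * (16 * B / L + 1) + 2) := by
        gcongr
        omega
    _ = 176 * (L * (16 * B / L + 1)) + 176 * L := by ring
    _ ≤ 2817 * B := by omega

lemma g5 (hS : 1 ≤ S) (hL : 1 ≤ L) (hB : 2 ^ 17 * L ≤ B) :
    (S + 1) * (5 * (16 * B / L + 1) + 4 * (4 * L + 18) * (2 * (16 * B / L + 1) + 2) + 2 ^ 13 * B + 6) +
      6 * (16 * B / L + 1) ≤ 6 * (2 ^ 12 * S * B) := by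
  have h1 := gJ hL hB
  have h2 := gg_le hL hB
  have e1 : 5 * (16 * B / L + 1) + 4 * (4 * L + 18) * (2 * (16 * B / L + 1) + 2) + 2 ^ 13 * B + 6 ≤ 11095 * B := by
    omega
  have e2 : (S + 1) * (5 * (16 * B / L + 1) + 4 * (4 * L + 18) * (2 * (16 * B / L + 1) + 2) + 2 ^ 13 * B + 6) ≤
      (2 * S) * (11095 * B) := Nat.mul_le_mul (by omega) e1
  have e3 : B ≤ S * B := Nat.le_mul_of_pos_left _ (by omega)
  have e4 : (2 * S) * (11095 * B) = 22190 * (S * B) := by ring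
  have e5 : 6 * (2 ^ 12 * S * B) = 24576 * (S * B) := by ring
  rw [e5]
  omega

lemma g2 (hS : 1 ≤ S) (hL : 1 ≤ L) (hB : 1 ≤ B) :
    (2 ^ 12 * S * B + 1) * (2 ^ 13 * B + 5 * (2 ^ 12 * S * B) + 8 * (2 * L + 9) * (2 ^ 12 * S * B + 1) + 5) +
      16 * B * (2 ^ 13 * B + 4 * (16 + 1) * (2 * (2 ^ 20 * S ^ 2 * L * B) + B) + 1) +
      4 * B * (2 * (2 ^ 20 * S ^ 2 * L * B) + B) < 2 ^ 13 * B * (2 ^ 20 * S ^ 2 * L * B) := by
  obtain ⟨U, hU⟩ : ∃ U, U = S * B := ⟨_, rfl⟩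
  have hwU : 2 ^ 12 * S * B = 4096 * U := by rw [hU]; ring
  have hxB : 2 ^ 13 * B = 8192 * B := by norm_num
  obtain ⟨T, hT⟩ : ∃ T, T = S ^ 2 * L * B := ⟨_, rfl⟩
  have hhT : 2 ^ 20 * S ^ 2 * L * B = 1048576 * T := by rw [hT]; ring
  rw [hwU, hxB, hhT]
  have hBU : B ≤ U := by rw [hU]; exact Nat.le_mul_of_pos_left _ (by omega)
  have hU1 : 1 ≤ U := by omega
  have hBT : B ≤ T := by
    rw [hT]
    have hS2 : 1 ≤ S ^ 2 := Nat.one_le_pow _ _ hS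
    calc B = 1 * 1 * B := by ring
      _ ≤ S ^ 2 * L * B := by gcongr
  have a1 : 4096 * U + 1 ≤ 4097 * U := by omega
  have a2 : 8192 * B + 5 * (4096 * U) + 8 * (2 * L + 9) * (4096 * U + 1) + 5 ≤ 389213 * (L * U) := by
    have e1 : 8 * (2 * L + 9) * (4096 * U + 1) ≤ 8 * (11 * L) * (4097 * U) := by
      gcongr
      omega
    have e2 : 8 * (11 * L) * (4097 * U) = 360536 * (L * U) := by ring
    have e3 : U ≤ L * U := Nat.le_mul_of_pos_left _ (by omega)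
    omega
  have a3 : (4096 * U + 1) * (8192 * B + 5 * (4096 * U) + 8 * (2 * L + 9) * (4096 * U + 1) + 5) ≤
      (4097 * U) * (389213 * (L * U)) := Nat.mul_le_mul a1 a2
  have a4 : (4097 * U) * (389213 * (L * U)) = 1594605661 * (T * B) := by
    rw [hT, hU]
    ring
  have a5 : 16 * B * (8192 * B + 4 * (16 + 1) * (2 * (1048576 * T) + B) + 1) ≤
      16 * B * (142614597 * T) := by
    apply Nat.mul_le_mul_left
    omega
  have a6 : 16 * B * (142614597 * T) = 2281833552 * (T * B) := by ring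
  have a7 : 4 * B * (2 * (1048576 * T) + B) ≤ 4 * B * (2097153 * T) := by
    apply Nat.mul_le_mul_left
    omega
  have a8 : 4 * B * (2097153 * T) = 8388612 * (T * B) := by ring
  have a9 : 8192 * B * (1048576 * T) = 8589934592 * (T * B) := by ring
  have a10 : 1 ≤ T * B := Nat.mul_pos (by omega) (by omega)
  omega

end generic

/-! ### The parameters -/

/-- (P1) -/
lemma p1 (N b S : ℕ) : 2 * (N * qH N b S) ≤ 2 ^ (2 * qL N S + 9) * qw N b S := by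
  have h1 : (S * N) * qL N S ≤ 2 ^ qL N S * 2 ^ qL N S := Nat.mul_le_mul (SN_le N S) (L_le' N S)
  unfold qH qw
  calc 2 * (N * (2 ^ 20 * S ^ 2 * qL N S * (N * qB N b S))) =
        (2 ^ 21 * (S * (N * qB N b S))) * ((S * N) * qL N S) := by ring
    _ ≤ (2 ^ 21 * (S * (N * qB N b S))) * (2 ^ qL N S * 2 ^ qL N S) := Nat.mul_le_mul_left _ h1
    _ = 2 ^ (2 * qL N S + 9) * (2 ^ 12 * S * (N * qB N b S)) := by
      rw [pow_add, two_mul, pow_add]
      ring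

/-- (P3) -/
lemma p3 (N b S : ℕ) (hN : 1 ≤ N) (hS : 1 ≤ S) :
    2 * (N * qH N b S) + 2 * qB N b S ≤ 2 ^ (4 * qL N S + 18) * qg N b S := by
  have h1 := one_le_qL N S
  have hS2 : 1 ≤ S ^ 2 := Nat.one_le_pow _ _ hS
  have h2 : (S * N) ^ 2 * (qL N S * qL N S) ≤ (2 ^ qL N S) ^ 2 * (2 ^ qL N S * 2 ^ qL N S) :=
    Nat.mul_le_mul (Nat.pow_le_pow_left (SN_le N S) 2) (Nat.mul_le_mul (L_le' N S) (L_le' N S))
  have h3 : 2 * (N * qH N b S) + 2 * qB N b S ≤ 2 ^ 22 * (S * N) ^ 2 * qL N S * (N * qB N b S) := by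
    have e0 : 1 ≤ (S * N) ^ 2 := Nat.one_le_pow _ _ (Nat.mul_pos hS hN)
    have e1 : 1 * 1 * (1 * qB N b S) ≤ (S * N) ^ 2 * qL N S * (N * qB N b S) := by gcongr
    have e2 : 2 * (N * qH N b S) ≤ 2 ^ 21 * ((S * N) ^ 2 * qL N S * (N * qB N b S)) := by
      unfold qH
      have e3 : N * 1 ≤ N * N := Nat.mul_le_mul_left _ hN
      calc 2 * (N * (2 ^ 20 * S ^ 2 * qL N S * (N * qB N b S)))
          = 2 ^ 21 * (S ^ 2 * qL N S * (N * qB N b S)) * (N * 1) := by ring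
        _ ≤ 2 ^ 21 * (S ^ 2 * qL N S * (N * qB N b S)) * (N * N) := Nat.mul_le_mul_left _ e3
        _ = _ := by ring
    have e3 : 2 ^ 22 * (S * N) ^ 2 * qL N S * (N * qB N b S) = 2 ^ 22 * ((S * N) ^ 2 * qL N S * (N * qB N b S)) := by
      ring
    rw [e3]
    omega
  have h4 : 16 * (N * qB N b S) + 1 ≤ qL N S * qg N b S := ggL h1
  calc 2 * (N * qH N b S) + 2 * qB N b S ≤ 2 ^ 22 * (S * N) ^ 2 * qL N S * (N * qB N b S) := h3
    _ = 2 ^ 18 * (S * N) ^ 2 * qL N S * (16 * (N * qB N b S)) := by ring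
    _ ≤ 2 ^ 18 * (S * N) ^ 2 * qL N S * (qL N S * qg N b S) := Nat.mul_le_mul_left _ (by omega)
    _ = 2 ^ 18 * ((S * N) ^ 2 * (qL N S * qL N S)) * qg N b S := by ring
    _ ≤ 2 ^ 18 * ((2 ^ qL N S) ^ 2 * (2 ^ qL N S * 2 ^ qL N S)) * qg N b S := by gcongr
    _ = 2 ^ (4 * qL N S + 18) * qg N b S := by
      rw [pow_add, show 4 * qL N S = qL N S + qL N S + qL N S + qL N S by ring, pow_add, pow_add, pow_add]
      ring

/-- (P4) -/
lemma p4 (N b S : ℕ) (hS : 1 ≤ S) : qH N b S + 1 ≤ qg N b S * (qM N S + 1) := by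
  have h1 := one_le_qL N S
  have hS2 : 1 ≤ S ^ 2 := Nat.one_le_pow _ _ hS
  have h4 : 16 * (N * qB N b S) + 1 ≤ qL N S * qg N b S := ggL h1
  have e1 : 1 ≤ 2 ^ 16 * S ^ 2 * qL N S := by
    calc 1 ≤ 2 ^ 16 * 1 * 1 := by norm_num
      _ ≤ 2 ^ 16 * S ^ 2 * qL N S := by gcongr
  calc qH N b S + 1 ≤ qH N b S + 2 ^ 16 * S ^ 2 * qL N S := by omega
    _ = 2 ^ 16 * S ^ 2 * qL N S * (16 * (N * qB N b S) + 1) := by unfold qH; ring
    _ ≤ 2 ^ 16 * S ^ 2 * qL N S * (qL N S * qg N b S) := Nat.mul_le_mul_left _ h4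
    _ = qg N b S * qM N S := by unfold qM; ring
    _ ≤ qg N b S * (qM N S + 1) := Nat.mul_le_mul_left _ (by omega)

/-- (P5) -/
lemma p5 (N b S : ℕ) (hN : 1 ≤ N) (hS : 1 ≤ S) :
    (S + 1) * (5 * qg N b S + 4 * (4 * qL N S + 18) * (2 * qg N b S + 2) + qx N b S + 6) + 6 * qg N b S ≤
      6 * qw N b S := g5 hS (one_le_qL N S) (LL_le' N b S hN hS)

/-- (P2) -/
lemma p2 (N b S : ℕ) (hN : 1 ≤ N) (hS : 1 ≤ S) :
    (qw N b S + 1) * (qx N b S + 5 * qw N b S + 8 * (2 * qL N S + 9) * (qw N b S + 1) + 5) +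
      16 * qB N b S * (qx N b S + 4 * (16 + 1) * (2 * (N * qH N b S) + qB N b S) + 1) +
      4 * qB N b S * (2 * (N * qH N b S) + qB N b S) < qx N b S * qH N b S := by
  have hB : 1 ≤ N * qB N b S := by
    have h1 := LL_le' N b S hN hS
    have h2 := one_le_qL N S
    omega
  have h := g2 (S := S) (L := qL N S) (B := N * qB N b S) hS (one_le_qL N S) hB
  refine lt_of_le_of_lt ?_ h
  have e1 : qB N b S ≤ N * qB N b S := Nat.le_mul_of_pos_left _ hN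
  refine Nat.add_le_add (Nat.add_le_add le_rfl ?_) ?_
  · calc 16 * qB N b S * (qx N b S + 4 * (16 + 1) * (2 * (N * qH N b S) + qB N b S) + 1)
        = 16 * (qB N b S * qx N b S) + 16 * (4 * (16 + 1)) * (2 * ((N * qB N b S) * qH N b S) +
          qB N b S * qB N b S) + 16 * qB N b S := by ring
      _ ≤ 16 * ((N * qB N b S) * qx N b S) + 16 * (4 * (16 + 1)) * (2 * ((N * qB N b S) * qH N b S) +
          (N * qB N b S) * (N * qB N b S)) + 16 * (N * qB N b S) := by gcongr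
      _ = 16 * (N * qB N b S) * (qx N b S + 4 * (16 + 1) * (2 * (qH N b S) + N * qB N b S) + 1) := by ring
      _ = _ := rfl
  · calc 4 * qB N b S * (2 * (N * qH N b S) + qB N b S)
        = 4 * (2 * ((N * qB N b S) * qH N b S) + qB N b S * qB N b S) := by ring
      _ ≤ 4 * (2 * ((N * qB N b S) * qH N b S) + (N * qB N b S) * (N * qB N b S)) := by gcongr
      _ = 4 * (N * qB N b S) * (2 * (qH N b S) + N * qB N b S) := by ring
      _ = _ := rfl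

lemma p6 (N b S : ℕ) (hN : 1 ≤ N) (hS : 1 ≤ S) : qg N b S ≤ qw N b S := by
  have h1 := p5 N b S hN hS
  omega

lemma p7 (N b S : ℕ) (hN : 1 ≤ N) (hS : 1 ≤ S) : qg N b S + 2 ≤ qH N b S := by
  have h1 : qg N b S ≤ 17 * (N * qB N b S) := gg_le (one_le_qL N S) (LL_le' N b S hN hS)
  have h2 : 1 ≤ N * qB N b S := by
    have h1 := LL_le' N b S hN hS
    have h2 := one_le_qL N S
    omega
  have h3 := one_le_qL N S
  have hS2 : 1 ≤ S ^ 2 := Nat.one_le_pow _ _ hS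
  have h4 : 2 ^ 20 * 1 * 1 * (N * qB N b S) ≤ qH N b S := by
    unfold qH
    gcongr
  omega

/-- the window -/
lemma win_le' (N b S : ℕ) (hN : 1 ≤ N) (hS : 1 ≤ S) :
    2 * (N * qH N b S) + qB N b S ≤ 2 ^ 39 * (N ^ 2 * S ^ 2 * qL N S * (b + S ^ 2 * qL N S ^ 2)) := by
  have hL := one_le_qL N S
  have hS2 : 1 ≤ S ^ 2 := Nat.one_le_pow _ _ hS
  have hN2 : 1 ≤ N ^ 2 := Nat.one_le_pow _ _ hN
  have e1 : qB N b S ≤ 2 ^ 17 * (b + S ^ 2 * qL N S ^ 2) := by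
    unfold qB qM
    have : 2 * (2 ^ 16 * S ^ 2 * qL N S ^ 2) = 2 ^ 17 * (S ^ 2 * qL N S ^ 2) := by ring
    rw [this, mul_add]
    apply Nat.add_le_add_right
    omega
  have e2 : qB N b S ≤ N ^ 2 * S ^ 2 * qL N S * qB N b S := by
    calc qB N b S = 1 * 1 * 1 * qB N b S := by ring
      _ ≤ _ := by gcongr
  have e3 : 2 * (N * qH N b S) = 2 ^ 21 * (N ^ 2 * S ^ 2 * qL N S * qB N b S) := by unfold qH; ring
  have e4 : N ^ 2 * S ^ 2 * qL N S * qB N b S ≤ N ^ 2 * S ^ 2 * qL N S * (2 ^ 17 * (b + S ^ 2 * qL N S ^ 2)) :=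
    Nat.mul_le_mul_left _ e1
  have e5 : N ^ 2 * S ^ 2 * qL N S * (2 ^ 17 * (b + S ^ 2 * qL N S ^ 2)) =
      2 ^ 17 * (N ^ 2 * S ^ 2 * qL N S * (b + S ^ 2 * qL N S ^ 2)) := by ring
  omega

end Pool.Agent.Helper76.RP
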