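import Pool.Agent.Helper76.RP.Est
import Pool.Agent.Helper76.RP.Par
import Pool.Graph.R_pool_sql_team_seeded_63374d34.N797.PW.Core

/-!
# The core of the proof for periodic real coefficients, uniform in the coefficients
-/

set_option autoImplicit false

open Polynomial Pool.Agent.H337R2 Pool.Agent.W165.OZ Pool.Agent.Y926.LZ Pool.Agent.Y926.TW Filter Topology

namespace Pool.Agent.Helper76.RP

open Pool.Agent.N797.PW

noncomputable section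

/-- the choice of the parameter `μ` -/
lemma choose_mu {N g q N0 : ℕ} (hN : 1 ≤ N) (hg : 1 ≤ g) (hq : (2 ^ g) ^ (2 * (N * N0)) + 2 ≤ q) :
    ∃ μ k, N0 ≤ μ ∧ 2 * (N * μ) + 1 ≤ k + 2 * N ∧ q ≤ 2 ^ (g * (2 * (N * μ) + 1)) ∧ 2 ^ (g * k) < q := by
  obtain ⟨ν, h1, h2, h3⟩ := choose_n hg hq
  obtain ⟨μ, hμ⟩ : ∃ μ, μ = (ν + N - 1) / N := ⟨_, rfl⟩
  have h4 : ν ≤ N * μ := by
    have := Nat.lt_mul_div_succ (ν + N - 1) hN
    rw [← hμ, mul_add, mul_one] at this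
    omega
  have h5 : N * μ ≤ ν + N - 1 := by
    rw [hμ]
    exact Nat.mul_div_le _ _
  refine ⟨μ, 2 * ν - 1, ?_, by omega, ?_, h3⟩
  · exact Nat.le_of_mul_le_mul_left (h1.trans h4) hN
  · exact h2.trans (Nat.pow_le_pow_right (by norm_num) (Nat.mul_le_mul_left _ (by omega)))

/-- **The core**, uniform in the coefficients `x`. -/
theorem core {N b S : ℕ} (hN : 1 ≤ N) (hb2 : 2 ≤ b) (hS : 1 ≤ S) (C0 : ℝ) (hC0 : 0 ≤ C0) :
    ∃ q0 : ℕ, ∀ x : ZMod N → ℝ, (∀ r, |x r| ≤ C0) → (∃ r, 1 ≤ |(-1) ^ b * x r + x (-r)|) → ∀ q ≥ q0,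
      (∃ r, ∀ p : ℤ, (q : ℝ) ^ (-(1 / (S : ℝ))) ≤ |(q : ℝ) * x r - p|) ∨
      ∃ j, Odd (b + j) ∧ b < j ∧ j ≤ 2 * (N * qH N b S) + qB N b S ∧
        ∀ p : ℤ, (q : ℝ) ^ (-(1 / (S : ℝ))) ≤ |(q : ℝ) * xp N x j - p| := by
  classical
  obtain ⟨L, hL⟩ : ∃ L, L = qL N S := ⟨_, rfl⟩
  obtain ⟨M, hM⟩ : ∃ M, M = qM N S := ⟨_, rfl⟩
  obtain ⟨B, hB⟩ : ∃ B, B = qB N b S := ⟨_, rfl⟩
  obtain ⟨h₁, hh₁⟩ : ∃ h₁, h₁ = qH N b S := ⟨_, rfl⟩
  obtain ⟨h, hh⟩ : ∃ h, h = N * h₁ := ⟨_, rfl⟩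
  obtain ⟨w, hw⟩ : ∃ w, w = qw N b S := ⟨_, rfl⟩
  obtain ⟨xx, hx⟩ : ∃ xx, xx = qx N b S := ⟨_, rfl⟩
  obtain ⟨γ, hγ⟩ : ∃ γ, γ = qg N b S := ⟨_, rfl⟩
  obtain ⟨Δ, hΔe⟩ : ∃ Δ, Δ = 2 * γ + 4 * (4 * L + 18) * (2 * γ + 2) + 1 := ⟨_, rfl⟩
  obtain ⟨g', hg'e⟩ : ∃ g', g' = Δ + xx + 3 * γ + 5 := ⟨_, rfl⟩
  have hBM : B = b + 2 * M := by rw [hB, hM]; rfl
  have hM1 : 1 ≤ M := by
    rw [hM]
    exact one_le_qM hS
  have P1 : 2 * h ≤ 2 ^ (2 * L + 9) * w := by rw [hh, hh₁, hL, hw]; exact p1 N b S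
  have P2 := p2 N b S hN hS
  have P3 : 2 * h + 2 * B ≤ 2 ^ (4 * L + 18) * γ := by rw [hh, hh₁, hB, hL, hγ]; exact p3 N b S hN hS
  have P4 : h₁ + 1 ≤ γ * (M + 1) := by rw [hh₁, hγ, hM]; exact p4 N b S hS
  have P5 : (S + 1) * g' + 6 * γ ≤ 6 * w := by
    have e1 := p5 N b S hN hS
    rw [← hγ, ← hL, ← hx, ← hw] at e1
    have e2 : g' = 5 * γ + 4 * (4 * L + 18) * (2 * γ + 2) + xx + 6 := by
      rw [hg'e, hΔe]
      ring
    rw [e2]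
    exact e1
  have P6 : γ ≤ w := by rw [hγ, hw]; exact p6 N b S hN hS
  have P7 : γ + 2 ≤ h₁ := by rw [hγ, hh₁]; exact p7 N b S hN hS
  rw [← hw, ← hx, ← hL, ← hB, ← hh₁, ← hh] at P2
  rw [← hh₁, ← hB, ← hh]
  have hh₁1 : 1 ≤ h₁ := by omega
  have hhh : h₁ ≤ h := by rw [hh]; exact Nat.le_mul_of_pos_left _ hN
  have hh1 : 1 ≤ h := by omega
  have hg'1 : 1 ≤ g' := by omega
  have hY1 : 1 ≤ S * g' := Nat.mul_pos (by omega) (by omega)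
  obtain ⟨K1, hK1⟩ : ∃ K1 : ℝ, K1 = C0 := ⟨_, rfl⟩
  obtain ⟨K2, hK2⟩ : ∃ K2 : ℝ, K2 = 2 * h * 2 ^ (2 * h + B) + (2 ^ (B + 10) +
    4 * h * 2 ^ (2 * h + B)) := ⟨_, rfl⟩
  have hK10 : 0 ≤ K1 := by rw [hK1]; exact hC0
  have hK20 : 0 ≤ K2 := by rw [hK2]; positivity
  -- the largeness conditions
  have hevG := t_gcd (2 * h + 2 * B) (2 * γ + 2) γ (4 * L + 18) P3
  have hevN := num h h₁ 16 B w xx (2 * L + 9) hh1 hh₁1 P1 P2
  have hev := hevG.and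
    ((eventually_small (q := 1 / 2) (by norm_num) (by norm_num)
      (4 * (K1 * 2 ^ (B + 1 + 10)) : ℝ) 3).and
    (eventually_small (q := 1 / 2) (by norm_num) (by norm_num)
      (4 * (K2 * 2 ^ (2 * N * g')) : ℝ) 3))
  obtain ⟨N1, hN1⟩ := eventually_atTop.1 hev
  obtain ⟨N2, hN2⟩ := eventually_atTop.1 hevN
  obtain ⟨N0, hN0⟩ : ∃ N0, N0 = N1 + N2 + M + 2 * N * B * (M * (M + 1)) + 2 * h * M ^ 2 + 2 * h + 2 := ⟨_, rfl⟩
  refine ⟨(2 ^ (S * g')) ^ (2 * (N * N0)) + 3, fun x hxl hx0 q hq => ?_⟩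
  by_contra hcon
  push Not at hcon
  obtain ⟨hconA, hconJ⟩ := hcon
  obtain ⟨μ, kk, hμN, hkn, hqn, hqn1⟩ := choose_mu hN hY1 (show (2 ^ (S * g')) ^ (2 * (N * N0)) + 2 ≤ q by omega)
  obtain ⟨ν, hν⟩ : ∃ ν, ν = N * μ := ⟨_, rfl⟩
  have hνμ : μ ≤ ν := by rw [hν]; exact Nat.le_mul_of_pos_left _ hN
  rw [← hν] at hkn hqn
  have hνN1 : N1 ≤ ν := by omega
  have hνN2 : N2 ≤ ν := by omega
  obtain ⟨n, hn⟩ : ∃ n, n = 2 * ν + 1 := ⟨_, rfl⟩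
  obtain ⟨hnG, hn3, hn1'⟩ := hN1 n (by omega)
  have hSgN := hN2 ν hνN2
  have hν1 : 1 ≤ ν := by omega
  have hn1 : 1 ≤ n := by omega
  have hnR : 2 * (ν : ℝ) + 1 = (n : ℝ) := by rw [hn]; push_cast; ring
  have hq2 : 2 ≤ q := by omega
  have hq0 : 0 < q := by omega
  have hq0' : (0 : ℝ) < q := by exact_mod_cast hq0
  have hq1' : (1 : ℝ) ≤ q := by exact_mod_cast hq0
  have hq0q : (q : ℚ) ≠ 0 := by exact_mod_cast hq0.ne'
  -- the approximations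
  obtain ⟨s, hs⟩ : ∃ s : ℝ, s = (q : ℝ) ^ (-(1 / (S : ℝ))) := ⟨_, rfl⟩
  have hs0 : 0 < s := by rw [hs]; exact Real.rpow_pos_of_pos hq0' _
  have hs1 : s ≤ 1 := by
    rw [hs]
    apply Real.rpow_le_one_of_one_le_of_nonpos hq1'
    apply neg_nonpos.2
    positivity
  rw [← hs] at hconA hconJ
  have hsT : s * 2 ^ (g' * kk) ≤ 1 := by
    have e1 : (2 ^ (g' * kk)) ^ S ≤ q := by
      refine le_trans (le_of_eq ?_) hqn1.le
      rw [← pow_mul]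
      congr 1
      ring
    have e2 := root_le hq0 hS e1
    rw [← hs] at e2
    push_cast at e2
    exact e2
  have hp : ∀ j, ∃ p : ℤ, (Odd (b + j) → b < j → j ≤ 2 * h + B → |(q : ℝ) * xp N x j - p| < s) := by
    intro j
    by_cases hc : Odd (b + j) ∧ b < j ∧ j ≤ 2 * h + B
    · obtain ⟨p, hp⟩ := hconJ j hc.1 hc.2.1 hc.2.2
      exact ⟨p, fun _ _ _ => hp⟩
    · exact ⟨0, fun h1 h2 h3 => absurd ⟨h1, h2, h3⟩ hc⟩
  choose p hp using hp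
  choose r hr using hconA
  obtain ⟨z, hz⟩ : ∃ z : ℕ → ℚ, ∀ j, z j = (p j : ℚ) / q := ⟨_, fun _ => rfl⟩
  obtain ⟨a, ha⟩ : ∃ a : ZMod N → ℚ, ∀ l, a l = (r l : ℚ) / q := ⟨_, fun _ => rfl⟩
  have happ : ∀ (y : ℝ) (P : ℤ), |(q : ℝ) * y - P| < s → |y - (((P : ℚ) / q : ℚ) : ℝ)| ≤ s / q := by
    intro y P e1
    rw [le_div_iff₀ hq0']
    have e2 : |y - (((P : ℚ) / q : ℚ) : ℝ)| * q = |(q : ℝ) * y - P| := by
      rw [← abs_of_pos hq0', ← abs_mul, abs_of_pos hq0']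
      congr 1
      push_cast
      field_simp
    rw [e2]
    exact e1.le
  have hyz : ∀ j, Odd (b + j) → b < j → j ≤ 2 * h + B → |xp N x j - (z j : ℝ)| ≤ s / q := by
    intro j hj1 hj2 hj3
    rw [hz]
    exact happ _ _ (hp j hj1 hj2 hj3)
  have hya : ∀ l, |x l - (a l : ℝ)| ≤ s / q := by
    intro l
    rw [ha]
    exact happ _ _ (hr l)
  have hyi : ∀ j, ∃ a : ℤ, (q : ℚ) * z j = a := by
    intro j
    refine ⟨p j, ?_⟩
    rw [hz]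
    field_simp
  have hai : ∀ l, ∃ m : ℤ, (q : ℚ) * a l = m := by
    intro l
    refine ⟨r l, ?_⟩
    rw [ha]
    field_simp
  have ha0 : ∃ l, (-1) ^ b * a l + a (-l) ≠ 0 := by
    obtain ⟨l, hl⟩ := hx0
    refine ⟨l, fun h0 => ?_⟩
    have h0' : (-1) ^ b * (a l : ℝ) + (a (-l) : ℝ) = 0 := by exact_mod_cast h0
    have e1 : (-1) ^ b * x l + x (-l) = (-1) ^ b * (x l - (a l : ℝ)) + (x (-l) - (a (-l) : ℝ)) := by
      linear_combination h0'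
    have e2 : |(-1) ^ b * (x l - (a l : ℝ)) + (x (-l) - (a (-l) : ℝ))| ≤ s / q + s / q := by
      refine (abs_add_le _ _).trans (add_le_add ?_ (hya _))
      rw [abs_mul, abs_pow, abs_neg, abs_one, one_pow, one_mul]
      exact hya _
    rw [e1] at hl
    have e3 : (3 : ℝ) ≤ q := by exact_mod_cast (by omega : 3 ≤ q)
    have e4 : s / q + s / q ≤ 2 / 3 := by
      have : s / q ≤ 1 / 3 := by
        rw [div_le_div_iff₀ hq0' (by norm_num)]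
        linarith
      linarith
    linarith
  -- Siegel's lemma
  obtain ⟨H, hH⟩ : ∃ H, H = 2 ^ (xx * n) := ⟨_, rfl⟩
  obtain ⟨c, hDV, hAS, hNZ, hcH, hTA, hTB, hTC⟩ := sg (h := h) (h₁ := h₁) (N := N) (μ := μ) (r := 16) (B := B)
    (w := w) (H := H) hN hh1 (by omega) hh (by rw [hH, hn, ← hν]; exact hSgN)
  rw [← hν] at hAS hNZ hTA hTB hTC
  rw [← hn] at hAS hNZ hTA hTB hTC
  -- powers of two
  obtain ⟨Dw, hD⟩ : ∃ Dw, Dw = DW n (2 * h + 2 * B) (2 * γ + 2) := ⟨_, rfl⟩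
  rw [← hD, ← hΔe] at hnG
  have hD0 : 0 < Dw := by
    rw [hD]
    exact Nat.gcd_pos_of_pos_right _ (pow_pos (Nat.factorial_pos n) _)
  have hD0' : (0 : ℝ) < Dw := by exact_mod_cast hD0
  have hqP : (q : ℝ) ≤ 2 ^ (S * g' * n) := by
    rw [hn]
    exact_mod_cast hqn
  -- first estimate
  have hT1 : ∀ l ≤ γ * n, (q : ℝ) * Dw * (K1 * (2 ^ (B + 2) * (((16 : ℕ) : ℝ)) ^ 2 * (n : ℝ) ^ 3 *
      (H : ℝ) * 8 ^ (l + n) * (2 / (((16 : ℕ) : ℝ))) ^ (2 * (w * n) + 2 - 2 * l))) ≤ 1 / 4 := by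
    intro l hl
    have e1 := sml_bd (n := n) (β := B) (B := B + 1) (w := w) (γ := γ) (x := xx) (l := l) (by omega) hl P6
    rw [← hH] at e1
    obtain ⟨R, hR⟩ : ∃ R : ℝ, R = 2 ^ (B + 2) * (((16 : ℕ) : ℝ)) ^ 2 * (n : ℝ) ^ 3 *
      (H : ℝ) * 8 ^ (l + n) * (2 / (((16 : ℕ) : ℝ))) ^ (2 * (w * n) + 2 - 2 * l) := ⟨_, rfl⟩
    rw [← hR] at e1 ⊢
    have hR0 : 0 ≤ R := by rw [hR]; positivity
    have e2 : (2 : ℝ) ^ (S * g' * n) * 2 ^ (Δ * n) * 2 ^ ((xx + 3 * γ + 3 + 6 * γ) * n) * 2 ^ n ≤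
        2 ^ (6 * w * n) := by
      rw [← pow_add, ← pow_add, ← pow_add]
      apply pow_le_pow_right₀ (by norm_num)
      have f1 : S * g' * n + Δ * n + (xx + 3 * γ + 3 + 6 * γ) * n + n =
        (S * g' + (Δ + xx + 3 * γ + 4) + 6 * γ) * n := by ring
      rw [f1]
      apply Nat.mul_le_mul_right
      have f2 : (S + 1) * g' = S * g' + g' := by ring
      omega
    have e3 := half_pow hn3
    have e4 : (q : ℝ) * Dw * (K1 * R) * (2 ^ n * 2 ^ (6 * w * n)) ≤ 1 / 4 * (2 ^ n * 2 ^ (6 * w * n)) := by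
      calc (q : ℝ) * Dw * (K1 * R) * (2 ^ n * 2 ^ (6 * w * n))
          = q * Dw * 2 ^ n * K1 * (R * 2 ^ (6 * w * n)) := by ring
        _ ≤ 2 ^ (S * g' * n) * 2 ^ (Δ * n) * 2 ^ n * K1 *
            (2 ^ (B + 1 + 10) * (n : ℝ) ^ 3 * 2 ^ ((xx + 3 * γ + 3 + 6 * γ) * n)) := by gcongr
        _ = (K1 * 2 ^ (B + 1 + 10) * (n : ℝ) ^ 3) *
            (2 ^ (S * g' * n) * 2 ^ (Δ * n) * 2 ^ ((xx + 3 * γ + 3 + 6 * γ) * n) * 2 ^ n) := by ring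
        _ ≤ (1 / 4 * 2 ^ n) * 2 ^ (6 * w * n) := by
            apply mul_le_mul _ e2 (by positivity) (by positivity)
            linarith
        _ = _ := by ring
    exact le_of_mul_le_mul_right e4 (by positivity)
  -- second estimate
  have hT2 : ∀ l ≤ γ * n, (q : ℝ) * Dw *
      ((K2 * (n : ℝ) ^ 3 * ((H : ℝ) * 8 ^ (l + n))) * (s / q)) ≤ 1 / 4 := by
    intro l hl
    have e5 : (8 : ℝ) ^ (l + n) ≤ 2 ^ (3 * (γ * n) + 3 * n) := by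
      rw [show (8 : ℝ) = 2 ^ 3 by norm_num, ← pow_mul]
      apply pow_le_pow_right₀ (by norm_num)
      omega
    have e7 : (q : ℝ) * Dw * ((K2 * (n : ℝ) ^ 3 * ((H : ℝ) * 8 ^ (l + n))) * (s / q)) =
        Dw * ((K2 * (n : ℝ) ^ 3 * ((H : ℝ) * 8 ^ (l + n))) * s) := by
      field_simp
    rw [e7]
    have e8 : (2 : ℝ) ^ (Δ * n) * 2 ^ (xx * n) * 2 ^ (3 * (γ * n) + 3 * n) * 2 ^ n * s ≤ 2 ^ (2 * N * g') := by
      have f1 : (2 : ℝ) ^ (Δ * n) * 2 ^ (xx * n) * 2 ^ (3 * (γ * n) + 3 * n) * 2 ^ n ≤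
          2 ^ (g' * kk) * 2 ^ (2 * N * g') := by
        rw [← pow_add, ← pow_add, ← pow_add, ← pow_add]
        apply pow_le_pow_right₀ (by norm_num)
        have f2 : n ≤ kk + 2 * N := by omega
        have f3 : g' * kk + 2 * N * g' = g' * (kk + 2 * N) := by ring
        rw [f3]
        calc Δ * n + xx * n + (3 * (γ * n) + 3 * n) + n = (Δ + xx + 3 * γ + 4) * n := by ring
          _ ≤ g' * n := Nat.mul_le_mul_right _ (by omega)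
          _ ≤ g' * (kk + 2 * N) := Nat.mul_le_mul_left _ f2
      calc (2 : ℝ) ^ (Δ * n) * 2 ^ (xx * n) * 2 ^ (3 * (γ * n) + 3 * n) * 2 ^ n * s
          ≤ 2 ^ (g' * kk) * 2 ^ (2 * N * g') * s := by gcongr
        _ = (s * 2 ^ (g' * kk)) * 2 ^ (2 * N * g') := by ring
        _ ≤ 1 * 2 ^ (2 * N * g') := by gcongr
        _ = _ := one_mul _
    have e9 := half_pow hn1'
    have hHR : (H : ℝ) = 2 ^ (xx * n) := by rw [hH]; push_cast; rfl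
    have e10 : (Dw * ((K2 * (n : ℝ) ^ 3 * ((H : ℝ) * 8 ^ (l + n))) * s)) * 2 ^ n ≤
        1 / 4 * 2 ^ n := by
      calc (Dw * ((K2 * (n : ℝ) ^ 3 * ((H : ℝ) * 8 ^ (l + n))) * s)) * 2 ^ n
          ≤ (2 ^ (Δ * n) * ((K2 * (n : ℝ) ^ 3 * (2 ^ (xx * n) *
            2 ^ (3 * (γ * n) + 3 * n))) * s)) * 2 ^ n := by rw [hHR]; gcongr
        _ = (K2 * (n : ℝ) ^ 3) *
            (2 ^ (Δ * n) * 2 ^ (xx * n) * 2 ^ (3 * (γ * n) + 3 * n) * 2 ^ n * s) := by ring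
        _ ≤ (K2 * (n : ℝ) ^ 3) * 2 ^ (2 * N * g') := by gcongr
        _ ≤ 1 / 4 * 2 ^ n := by linarith
    exact le_of_mul_le_mul_right e10 (by positivity)
  -- the forms vanish
  have hzero : ∀ j < M, ∀ l ≤ γ * n, LP N a z h n c (gq n l) (b + 2 * j) = 0 := by
    intro j hj l hl
    obtain ⟨β, hβ⟩ : ∃ β, β = b + 2 * j := ⟨_, rfl⟩
    rw [← hβ]
    have hβB : β < B := by omega
    have hpar : ∀ j', Odd (β + j') → Odd (b + j') := by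
      intro j' h1
      rw [hβ, show b + 2 * j + j' = b + j' + 2 * j by ring] at h1
      exact (Nat.odd_add.1 h1).2 (even_two_mul j)
    obtain ⟨Mz, hMz⟩ := LP_int a z (h := h) (ν := ν) (γ := γ) (l := l) (q := q) (c := c) hβB
      (by rw [← hn]; exact hl) (by rw [← hn]; exact hAS) (by rw [← hn]; exact hTC) (fun j' _ _ _ => hyi j')
      hai
    rw [← hn, ← hD] at hMz
    have hle := LPR_sml x (C0 := C0) hxl (h := h) (ν := ν) (β := β) (B := B) (w := w) (r := 16) (l := l) (H := H)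
      (c := c) hDV (by omega) hβB (by norm_num)
      (by rw [← hn]; exact hl.trans (Nat.mul_le_mul_right _ P6))
      (by rw [← hn]; exact hAS) hcH (by rw [← hn]; exact hTA) (by rw [← hn]; exact hTB)
    rw [hnR, ← hn, ← hK1] at hle
    have hle : |LPR N x h n c (gq n l) β| ≤ K1 * (2 ^ (B + 2) * (((16 : ℕ) : ℝ)) ^ 2 * (n : ℝ) ^ 3 *
        (H : ℝ) * 8 ^ (l + n) * (2 / (((16 : ℕ) : ℝ))) ^ (2 * (w * n) + 2 - 2 * l)) := by
      refine hle.trans ?_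
      have e2 : (2 : ℝ) ^ (β + 2) ≤ 2 ^ (B + 2) := pow_le_pow_right₀ (by norm_num) (by omega)
      gcongr
    have hdf := LP_dif x a z (h := h) (ν := ν) (β := β) (B := B) (w := w) (l := l) (H := H)
      (c := c) (δ := s / q) (by positivity) hDV (by omega) hβB
      (by rw [← hn]; exact hl.trans (Nat.mul_le_mul_right _ P6))
      (by rw [← hn]; exact hAS) hcH (by rw [← hn]; exact hTA) (by rw [← hn]; exact hTB)
      (fun j' h1 h2 h3 => hyz j' (hpar j' h1) (by omega) (by omega)) hya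
    rw [hnR, ← hn, ← hK2] at hdf
    obtain ⟨y1, hy1⟩ : ∃ y1, y1 = LP N a z h n c (gq n l) β := ⟨_, rfl⟩
    obtain ⟨y2, hy2⟩ : ∃ y2, y2 = LPR N x h n c (gq n l) β := ⟨_, rfl⟩
    rw [← hy1] at hMz hdf ⊢
    rw [← hy2] at hle hdf
    have a1 : |(y1 : ℝ)| ≤ (K1 * (2 ^ (B + 2) * (((16 : ℕ) : ℝ)) ^ 2 * (n : ℝ) ^ 3 *
        (H : ℝ) * 8 ^ (l + n) * (2 / (((16 : ℕ) : ℝ))) ^ (2 * (w * n) + 2 - 2 * l))) +
        ((K2 * (n : ℝ) ^ 3 * ((H : ℝ) * 8 ^ (l + n))) * (s / q)) := by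
      have a2 := abs_sub_abs_le_abs_sub (y1 : ℝ) y2
      rw [abs_sub_comm] at a2
      linarith
    have a3 : |(Mz : ℝ)| < 1 := by
      have a4 : (Mz : ℝ) = (q : ℝ) * Dw * (y1 : ℝ) := by
        have := congrArg (fun t : ℚ => (t : ℝ)) hMz
        push_cast at this
        exact this.symm
      rw [a4, abs_mul, abs_of_pos (by positivity : (0 : ℝ) < (q : ℝ) * Dw)]
      calc (q : ℝ) * Dw * |(y1 : ℝ)| ≤ (q : ℝ) * Dw * ((K1 * (2 ^ (B + 2) * (((16 : ℕ) : ℝ)) ^ 2 * (n : ℝ) ^ 3 *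
            (H : ℝ) * 8 ^ (l + n) * (2 / (((16 : ℕ) : ℝ))) ^ (2 * (w * n) + 2 - 2 * l))) +
            ((K2 * (n : ℝ) ^ 3 * ((H : ℝ) * 8 ^ (l + n))) * (s / q))) := by gcongr
        _ ≤ 1 / 4 + 1 / 4 := by
            rw [mul_add]
            exact add_le_add (hT1 l hl) (hT2 l hl)
        _ < 1 := by norm_num
    have a5 : Mz = 0 := by
      have : |Mz| < 1 := by exact_mod_cast a3
      exact Int.abs_lt_one_iff.1 this
    rw [a5, Int.cast_zero] at hMz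
    rcases mul_eq_zero.1 hMz with a6 | a6
    · exfalso
      rcases mul_eq_zero.1 a6 with a7 | a7
      · exact hq0q a7
      · exact hD0.ne' (by exact_mod_cast a7)
    · exact a6
  -- the zero estimate
  rw [hn, hν] at hAS hNZ hTA hzero
  refine ze hN a z h μ b M B (γ * n) c hh1 (by omega) hDV hAS hNZ ?_ (by omega) ha0 ?_ ?_ ?_
  · intro l hl
    exact hTA l (hl.trans (by rw [hn, hν]; exact Nat.mul_le_mul_right _ P6))
  · intro j hj l hl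
    exact hzero j hj l (by rw [hn, hν] at hl; exact hl)
  · have e1 : (γ + 2) * n ≤ h₁ * n := Nat.mul_le_mul_right _ P7
    have e2 : (γ + 2) * n = γ * n + 2 * n := by ring
    have e3 : (2 * μ + 1) * (2 * h) = 2 * (h₁ * (2 * ν + N)) := by rw [hh, hν]; ring
    have e4 : h₁ * n ≤ h₁ * (2 * ν + N) := Nat.mul_le_mul_left _ (by omega)
    rw [e3]
    omega
  · have e1 : (h₁ + 1) * n ≤ (γ * (M + 1)) * n := Nat.mul_le_mul_right _ P4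
    have e2 : (h₁ + 1) * n = h₁ * n + n := by ring
    have e3 : (2 * (γ * n) + 3) * (M + 1) = 2 * ((γ * (M + 1)) * n) + 3 * (M + 1) := by ring
    have e4 : 2 * h * (2 * μ + 1) ≤ 2 * (h₁ * n) + 2 * h := by
      have f1 : 2 * h * (2 * μ + 1) = 2 * (h₁ * (2 * ν + N)) := by rw [hh, hν]; ring
      have f2 : h₁ * (2 * ν + N) ≤ h₁ * (n + N) := Nat.mul_le_mul_left _ (by omega)
      have f3 : h₁ * (n + N) = h₁ * n + h := by rw [hh]; ring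
      omega
    rw [e3]
    omega

end

end Pool.Agent.Helper76.RP
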