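import Pool.Agent.Helper76.RP.Sg
import Pool.Agent.Helper76.RJ.Est

/-!
# Periodic real coefficients: definitions, germs, the recursion
-/

set_option autoImplicit false

open Polynomial Pool.Agent.H337R2 Pool.Agent.W165.OZ Pool.Agent.Y926.LZ Pool.Agent.Y926.TW Filter

namespace Pool.Agent.Helper76.RP

open Pool.Agent.N797.PW

noncomputable section

/-- the value `∑_{t ≥ 1} a(t) t^(-j)` -/
def xp (N : ℕ) (a : ZMod N → ℝ) (j : ℕ) : ℝ := ∑' s : ℕ, a ((s : ZMod N) + 1) * (1 / ((s : ℝ) + 1) ^ j)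

/-- the finite part of the form -/
def TP (N : ℕ) (a : ZMod N → ℚ) (h n : ℕ) (c : ℕ → ℕ → ℤ) (g : ℚ[X]) (β : ℕ) : ℚ :=
  ∑ v ∈ Finset.range n, a (-(v : ZMod N)) * Tm h n c g β (-(v : ℤ))

/-- the real finite part of the form -/
def TPR (N : ℕ) (a : ZMod N → ℝ) (h n : ℕ) (c : ℕ → ℕ → ℤ) (g : ℚ[X]) (β : ℕ) : ℝ :=
  ∑ v ∈ Finset.range n, a (-(v : ZMod N)) * ((Tm h n c g β (-(v : ℤ)) : ℚ) : ℝ)

/-- the linear form -/
def LP (N : ℕ) (a : ZMod N → ℚ) (z : ℕ → ℚ) (h n : ℕ) (c : ℕ → ℕ → ℤ) (g : ℚ[X]) (β : ℕ) : ℚ :=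
  ∑ i ∈ Finset.Icc 1 (2 * h), Cb β i * rh h n c g i * z (i + β) - TP N a h n c g β

/-- the real linear form -/
def LPR (N : ℕ) (a : ZMod N → ℝ) (h n : ℕ) (c : ℕ → ℕ → ℤ) (g : ℚ[X]) (β : ℕ) : ℝ :=
  ∑ i ∈ Finset.Icc 1 (2 * h), ((Cb β i * rh h n c g i : ℚ) : ℝ) * xp N a (i + β) - TPR N a h n c g β

/-! ### The real form is a sum -/

lemma xp_hasSum {N : ℕ} {a : ZMod N → ℝ} {C : ℝ} (hC : ∀ c, |a c| ≤ C) {e : ℕ} (he : 2 ≤ e) :
    HasSum (fun s : ℕ => a ((s : ZMod N) + 1) * (1 / ((s : ℝ) + 1) ^ e)) (xp N a e) := by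
  have h1 : Summable fun s : ℕ => C * (1 / ((s : ℝ) + 1) ^ e) := (JReal.zr_hasSum he).summable.mul_left _
  refine Summable.hasSum (Summable.of_norm_bounded h1 fun s => ?_)
  rw [norm_mul, Real.norm_eq_abs, Real.norm_eq_abs, abs_of_nonneg (by positivity : (0 : ℝ) ≤ 1 / ((s : ℝ) + 1) ^ e)]
  exact mul_le_mul_of_nonneg_right (hC _) (by positivity)

lemma F_hasSum {N : ℕ} {a : ZMod N → ℝ} {C : ℝ} (hC : ∀ c, |a c| ≤ C) (g : ℚ[X]) (β k i M : ℕ)
    (hβ : 2 ≤ β) (hi : 1 ≤ i) (hM : i ≤ M) :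
    HasSum (fun s : ℕ => a ((s : ZMod N) + 1) * ((JReal.F g β k i ((s : ℚ) + 1) : ℚ) : ℝ))
      (∑ i' ∈ Finset.Icc 1 M, ((Cb β i' *
        PowerSeries.coeff (i - 1) (PowerSeries.X ^ (i' - 1) * TS (-(k : ℚ)) g) : ℚ) : ℝ) *
          xp N a (i' + β)) := by
  have h1 : HasSum (fun s : ℕ => ∑ i' ∈ Finset.Icc 1 M, ((Cb β i' *
        PowerSeries.coeff (i - 1) (PowerSeries.X ^ (i' - 1) * TS (-(k : ℚ)) g) : ℚ) : ℝ) *
          (a ((s : ZMod N) + 1) * (1 / ((s : ℝ) + 1) ^ (i' + β))))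
      (∑ i' ∈ Finset.Icc 1 M, ((Cb β i' *
        PowerSeries.coeff (i - 1) (PowerSeries.X ^ (i' - 1) * TS (-(k : ℚ)) g) : ℚ) : ℝ) *
          xp N a (i' + β)) :=
    hasSum_sum fun i' _ => (xp_hasSum hC (by omega)).mul_left _
  refine h1.congr_fun fun s => ?_
  rw [JReal.F_eq g β k i M hi hM]
  push_cast
  rw [Finset.mul_sum]
  refine Finset.sum_congr rfl fun i' _ => ?_
  ring

theorem real_sum {N : ℕ} {a : ZMod N → ℝ} {C : ℝ} (hC : ∀ c, |a c| ≤ C) (h n : ℕ) (c : ℕ → ℕ → ℤ)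
    (hc : DV N c) (g : ℚ[X]) (β : ℕ) (hβ : 2 ≤ β) :
    HasSum (fun t : ℕ => a ((t : ZMod N) + 1) * ((Tm h n c g β ((t : ℤ) + 1) : ℚ) : ℝ)) (LPR N a h n c g β) := by
  have hterm : ∀ t : ℕ, a ((t : ZMod N) + 1) * ((Tm h n c g β ((t : ℤ) + 1) : ℚ) : ℝ) =
      ∑ k ∈ Finset.range n, ∑ i ∈ Finset.Icc 1 (2 * h), (c i k : ℝ) *
        (a (((t + k : ℕ) : ZMod N) + 1) * ((JReal.F g β k i (((t + k : ℕ) : ℚ) + 1) : ℚ) : ℝ)) := by
    intro t
    unfold Tm
    have h1 : nd n ((t : ℤ) + 1) = Finset.range n := by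
      unfold nd
      refine Finset.filter_true_of_mem fun k _ => ?_
      positivity
    rw [h1]
    push_cast
    rw [Finset.mul_sum]
    refine Finset.sum_congr rfl fun k _ => ?_
    rw [Finset.mul_sum]
    refine Finset.sum_congr rfl fun i _ => ?_
    by_cases hk : N ∣ k
    · have e1 : (k : ZMod N) = 0 := (ZMod.natCast_eq_zero_iff k N).2 hk
      rw [e1, add_zero]
      unfold JReal.F
      have e2 : ((t : ℚ) + 1 + k) = (t : ℚ) + k + 1 := by ring
      rw [e2]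
      ring
    · rw [hc i k hk]
      push_cast
      ring
  have hs : HasSum (fun t : ℕ => a ((t : ZMod N) + 1) * ((Tm h n c g β ((t : ℤ) + 1) : ℚ) : ℝ))
      (∑ k ∈ Finset.range n, ∑ i ∈ Finset.Icc 1 (2 * h), (c i k : ℝ) *
        ((∑ i' ∈ Finset.Icc 1 (2 * h), ((Cb β i' *
          PowerSeries.coeff (i - 1) (PowerSeries.X ^ (i' - 1) * TS (-(k : ℚ)) g) : ℚ) : ℝ) *
            xp N a (i' + β)) - ∑ s ∈ Finset.range k, a ((s : ZMod N) + 1) *
              ((JReal.F g β k i ((s : ℚ) + 1) : ℚ) : ℝ))) := by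
    refine HasSum.congr_fun ?_ hterm
    refine hasSum_sum fun k _ => hasSum_sum fun i hi => HasSum.mul_left _ ?_
    obtain ⟨hi1, hi2⟩ := Finset.mem_Icc.1 hi
    exact (hasSum_nat_add_iff' (f := fun s : ℕ => a ((s : ZMod N) + 1) *
      ((JReal.F g β k i ((s : ℚ) + 1) : ℚ) : ℝ)) k).2 (F_hasSum hC g β k i (2 * h) hβ hi1 hi2)
  have hval : (∑ k ∈ Finset.range n, ∑ i ∈ Finset.Icc 1 (2 * h), (c i k : ℝ) *
        ((∑ i' ∈ Finset.Icc 1 (2 * h), ((Cb β i' *
          PowerSeries.coeff (i - 1) (PowerSeries.X ^ (i' - 1) * TS (-(k : ℚ)) g) : ℚ) : ℝ) *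
            xp N a (i' + β)) - ∑ s ∈ Finset.range k, a ((s : ZMod N) + 1) *
              ((JReal.F g β k i ((s : ℚ) + 1) : ℚ) : ℝ))) =
      LPR N a h n c g β := by
    unfold LPR TPR
    simp only [mul_sub, Finset.sum_sub_distrib]
    congr 1
    · -- the coefficients of the zeta values
      have e1 : ∀ i' ∈ Finset.Icc 1 (2 * h), ((Cb β i' * rh h n c g i' : ℚ) : ℝ) * xp N a (i' + β) =
          ∑ k ∈ Finset.range n, ∑ i ∈ Finset.Icc 1 (2 * h), (c i k : ℝ) *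
            (((Cb β i' * PowerSeries.coeff (i - 1)
              (PowerSeries.X ^ (i' - 1) * TS (-(k : ℚ)) g) : ℚ) : ℝ) * xp N a (i' + β)) := by
        intro i' _
        unfold rh LF
        push_cast
        rw [Finset.mul_sum, Finset.sum_mul]
        refine Finset.sum_congr rfl fun k _ => ?_
        rw [Finset.mul_sum, Finset.sum_mul]
        refine Finset.sum_congr rfl fun i _ => ?_
        ring
      rw [Finset.sum_congr rfl e1]
      symm
      refine Eq.trans Finset.sum_comm ?_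
      refine Finset.sum_congr rfl fun k _ => ?_
      refine Finset.sum_comm.trans (Finset.sum_congr rfl fun i _ => ?_)
      rw [Finset.mul_sum]
    · -- the finite part
      have e2 : ∀ v ∈ Finset.range n, a (-(v : ZMod N)) * ((Tm h n c g β (-(v : ℤ)) : ℚ) : ℝ) =
          ∑ k ∈ Finset.range n, if v < k then ∑ i ∈ Finset.Icc 1 (2 * h), (c i k : ℝ) *
            (a (((k - 1 - v : ℕ) : ZMod N) + 1) * ((JReal.F g β k i (((k - 1 - v : ℕ) : ℚ) + 1) : ℚ) : ℝ))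
              else 0 := by
        intro v _
        unfold Tm nd
        rw [Finset.sum_filter]
        push_cast
        rw [Finset.mul_sum]
        refine Finset.sum_congr rfl fun k _ => ?_
        by_cases hvk : v < k
        · have h1 : 0 < -(v : ℤ) + (k : ℤ) := by omega
          rw [if_pos h1, if_pos hvk]
          push_cast
          rw [Finset.mul_sum]
          refine Finset.sum_congr rfl fun i _ => ?_
          have h3 : (k - 1 - v : ℕ) + 1 + v = k := by omega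
          have h5 : -(v : ℚ) + (k : ℚ) = ((k - 1 - v : ℕ) : ℚ) + 1 := by
            have h4 : ((k - 1 - v : ℕ) : ℚ) + 1 + v = k := by exact_mod_cast h3
            linarith
          by_cases hk : N ∣ k
          · have e1 : (k : ZMod N) = 0 := (ZMod.natCast_eq_zero_iff k N).2 hk
            have e2 : ((k - 1 - v : ℕ) : ZMod N) + 1 = -(v : ZMod N) := by
              have h4 : ((k - 1 - v : ℕ) : ZMod N) + 1 + v = k := by exact_mod_cast congrArg (Nat.cast (R := ZMod N)) h3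
              rw [e1] at h4
              exact eq_neg_of_add_eq_zero_left h4
            rw [e2]
            unfold JReal.F
            rw [h5]
            ring
          · rw [hc i k hk]
            push_cast
            ring
        · have h1 : ¬ 0 < -(v : ℤ) + (k : ℤ) := by omega
          rw [if_neg h1, if_neg hvk]
          simp
      rw [Finset.sum_congr rfl e2]
      symm
      refine Eq.trans Finset.sum_comm ?_
      refine Finset.sum_congr rfl fun k hk => ?_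
      rw [Finset.mem_range] at hk
      rw [← Finset.sum_filter]
      have h1 : (Finset.range n).filter (fun v => v < k) = Finset.range k := by
        ext v
        rw [Finset.mem_filter, Finset.mem_range, Finset.mem_range]
        omega
      rw [h1]
      refine Finset.sum_comm.trans (Finset.sum_congr rfl fun i _ => ?_)
      rw [← Finset.mul_sum]
      have h9 := Finset.sum_range_reflect (fun s : ℕ => a ((s : ZMod N) + 1) *
        ((JReal.F g β k i ((s : ℚ) + 1) : ℚ) : ℝ)) k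
      rw [← h9]
  rw [← hval]
  exact hs

/-! ### Germs -/

/-- the part of the germ without the zeta values -/
def GP (N : ℕ) (a : ZMod N → ℚ) (β k : ℕ) : PowerSeries ℚ :=
  ∑ w ∈ Finset.range k, PowerSeries.C (a ((w : ZMod N) + 1 - k)) * gx β ((w : ℚ) + 1)

/-- the germ -/
def EP (N : ℕ) (a : ZMod N → ℚ) (z : ℕ → ℚ) (h β k : ℕ) : PowerSeries ℚ :=
  ∑ i ∈ Finset.Icc 1 (2 * h), PowerSeries.C (Cb β i * z (i + β)) * PowerSeries.X ^ (i - 1) - GP N a β k

lemma TP_eq (N : ℕ) (a : ZMod N → ℚ) (h n : ℕ) (c : ℕ → ℕ → ℤ) (g : ℚ[X]) (β : ℕ) :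
    TP N a h n c g β = LF h n c (fun k => TS (-(k : ℚ)) g * GP N a β k) := by
  have h1 : ∀ v ∈ Finset.range n, a (-(v : ZMod N)) * Tm h n c g β (-(v : ℤ)) = ∑ k ∈ Finset.range n,
      if v < k then ∑ i ∈ Finset.Icc 1 (2 * h), (c i k : ℚ) *
        PowerSeries.coeff (i - 1) (TS (-(k : ℚ)) g * (PowerSeries.C (a (((k - 1 - v : ℕ) : ZMod N) + 1 - k)) *
          gx β (((k - 1 - v : ℕ) : ℚ) + 1))) else 0 := by
    intro v _
    unfold Tm nd
    rw [← Finset.sum_filter]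
    have h2 : (Finset.range n).filter (fun k : ℕ => 0 < -(v : ℤ) + (k : ℤ)) =
        (Finset.range n).filter (fun k => v < k) := by
      refine Finset.filter_congr fun k _ => ?_
      constructor <;> intro h <;> omega
    rw [h2, Finset.mul_sum]
    refine Finset.sum_congr rfl fun k hk => ?_
    rw [Finset.mul_sum]
    refine Finset.sum_congr rfl fun i _ => ?_
    have hvk := (Finset.mem_filter.1 hk).2
    have h3 : (k - 1 - v : ℕ) + 1 + v = k := by omega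
    have h5 : ((-(v : ℤ) : ℤ) : ℚ) + (k : ℚ) = ((k - 1 - v : ℕ) : ℚ) + 1 := by
      have h4 : ((k - 1 - v : ℕ) : ℚ) + 1 + v = k := by exact_mod_cast h3
      push_cast
      linarith
    have e2 : ((k - 1 - v : ℕ) : ZMod N) + 1 - k = -(v : ZMod N) := by
      have h4 : ((k - 1 - v : ℕ) : ZMod N) + 1 + v = k := by exact_mod_cast congrArg (Nat.cast (R := ZMod N)) h3
      rw [← h4]
      ring
    rw [h5, e2, mul_left_comm (TS (-(k : ℚ)) g), PowerSeries.coeff_C_mul]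
    ring
  unfold TP
  rw [Finset.sum_congr rfl h1, Finset.sum_comm]
  unfold LF
  refine Finset.sum_congr rfl fun k hk => ?_
  rw [Finset.mem_range] at hk
  rw [← Finset.sum_filter]
  have h2 : (Finset.range n).filter (fun v => v < k) = Finset.range k := by
    ext v
    rw [Finset.mem_filter, Finset.mem_range, Finset.mem_range]
    exact ⟨fun h => h.2, fun h => ⟨h.trans hk, h⟩⟩
  rw [h2, Finset.sum_comm]
  refine Finset.sum_congr rfl fun i hi => ?_
  rw [← Finset.mul_sum, ← map_sum, ← Finset.mul_sum]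
  unfold GP
  rw [Finset.sum_range_reflect (fun w : ℕ => PowerSeries.C (a ((w : ZMod N) + 1 - k)) * gx β ((w : ℚ) + 1)) k]

/-- the form as a functional of germs -/
lemma LP_eq (N : ℕ) (a : ZMod N → ℚ) (z : ℕ → ℚ) (h n : ℕ) (c : ℕ → ℕ → ℤ) (g : ℚ[X]) (β : ℕ) :
    LP N a z h n c g β = LF h n c (fun k => TS (-(k : ℚ)) g * EP N a z h β k) := by
  have h1 : (fun k : ℕ => TS (-(k : ℚ)) g * EP N a z h β k) = fun k : ℕ =>
      (∑ i ∈ Finset.Icc 1 (2 * h), PowerSeries.C (Cb β i * z (i + β)) *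
        (PowerSeries.X ^ (i - 1) * TS (-(k : ℚ)) g)) - TS (-(k : ℚ)) g * GP N a β k := by
    funext k
    unfold EP
    rw [mul_sub, Finset.mul_sum]
    congr 1
    refine Finset.sum_congr rfl fun i _ => ?_
    ring
  rw [h1, SPL.LF_sub, SPL.LF_sum, ← TP_eq]
  unfold LP
  congr 1
  refine Finset.sum_congr rfl fun i _ => ?_
  rw [SPL.LF_C_mul]
  unfold rh
  ring

/-- the recursion of the germs -/
lemma EP_rec (N : ℕ) (a : ZMod N → ℚ) (z : ℕ → ℚ) (h β k : ℕ) :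
    EP N a z h β (k + N) - EP N a z h β k =
      -∑ c ∈ Finset.range N, PowerSeries.C (a ((c : ZMod N) + 1)) * gx β (((k + c : ℕ) : ℚ) + 1) := by
  unfold EP GP
  rw [sub_sub_sub_cancel_left, Finset.sum_range_add]
  have e1 : ∀ w ∈ Finset.range k, PowerSeries.C (a ((w : ZMod N) + 1 - ((k + N : ℕ) : ZMod N))) * gx β ((w : ℚ) + 1) =
      PowerSeries.C (a ((w : ZMod N) + 1 - k)) * gx β ((w : ℚ) + 1) := by
    intro w _
    congr 3
    push_cast
    rw [ZMod.natCast_self, add_zero]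
  rw [Finset.sum_congr rfl e1, sub_add_cancel_left]
  congr 1
  refine Finset.sum_congr rfl fun c _ => ?_
  congr 3
  push_cast
  rw [ZMod.natCast_self, add_zero]
  ring

/-! ### Rescaled germs -/

lemma gx_eq_iv (β : ℕ) {u : ℚ} (hu : u ≠ 0) : gx β u = PowerSeries.C ((-1 : ℚ) ^ (β + 1)) * iv (-u) ^ (β + 1) := by
  ext m
  unfold gx
  rw [PowerSeries.coeff_C_mul, coeff_iv_pow (neg_ne_zero.2 hu), PowerSeries.coeff_mk]
  have h2 : Cb β (m + 1) = (Nat.choose (β + m) β : ℚ) := by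
    unfold Cb
    rw [Nat.add_sub_cancel, add_comm β m, Nat.choose_symm_add]
  rw [h2, show m + 1 + β = β + 1 + m by ring, neg_pow u (β + 1 + m), pow_add (-1 : ℚ) (β + 1) m]
  have h3 : ((-1 : ℚ) ^ (β + 1)) * (-1) ^ (β + 1) = 1 := by rw [← mul_pow]; norm_num
  have h4 : ((-1 : ℚ) ^ m) * (-1) ^ m = 1 := by rw [← mul_pow]; norm_num
  have h5 : ((-1 : ℚ) ^ (β + 1)) ≠ 0 := pow_ne_zero _ (by norm_num)
  have h6 : ((-1 : ℚ) ^ m) ≠ 0 := pow_ne_zero _ (by norm_num)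
  have h7 : u ^ (β + 1 + m) ≠ 0 := pow_ne_zero _ hu
  field_simp

lemma rescale_gx {N : ℕ} (hN : 1 ≤ N) (β : ℕ) (u : ℚ) :
    PowerSeries.C ((N : ℚ) ^ (β + 1)) * PowerSeries.rescale (N : ℚ) (gx β u) = gx β (u / N) := by
  have hN0 : (N : ℚ) ≠ 0 := by exact_mod_cast (by omega : N ≠ 0)
  ext m
  unfold gx
  rw [PowerSeries.coeff_C_mul, PowerSeries.coeff_rescale, PowerSeries.coeff_mk, PowerSeries.coeff_mk, div_pow,
    show m + 1 + β = (β + 1) + m by ring, pow_add (N : ℚ)]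
  by_cases hu : u = 0
  · rw [hu, zero_pow (by omega)]
    simp
  · field_simp
    ring

/-- the rescaled germ -/
def EE (N : ℕ) (a : ZMod N → ℚ) (z : ℕ → ℚ) (h β k : ℕ) : PowerSeries ℚ :=
  PowerSeries.C ((N : ℚ) ^ (β + 1)) * PowerSeries.rescale (N : ℚ) (EP N a z h β (N * k))

/-- the positions of the poles -/
def ro (N c : ℕ) : ℚ := ((c : ℚ) + 1) / N

lemma ro_pos {N : ℕ} (hN : 1 ≤ N) (c : ℕ) : 0 < ro N c := by
  unfold ro
  have : (0 : ℚ) < N := by exact_mod_cast hN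
  positivity

lemma ro_le {N c : ℕ} (hc : c < N) : ro N c ≤ 1 := by
  unfold ro
  have h1 : (0 : ℚ) < N := by exact_mod_cast (by omega : 0 < N)
  rw [div_le_one h1]
  exact_mod_cast hc

lemma rescale_Cq (q r : ℚ) : PowerSeries.rescale q (PowerSeries.C r) = PowerSeries.C r := by
  ext m
  rw [PowerSeries.coeff_rescale, PowerSeries.coeff_C]
  split_ifs with h
  · rw [h]; simp
  · simp

lemma EE_rec {N : ℕ} (hN : 1 ≤ N) (a : ZMod N → ℚ) (z : ℕ → ℚ) (h β k : ℕ) :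
    EE N a z h β (k + 1) - EE N a z h β k =
      ∑ c ∈ Finset.range N, PowerSeries.C (a ((c : ZMod N) + 1) * (-1) ^ β) * iv (-((k : ℚ) + ro N c)) ^ (β + 1) := by
  have hN0 : (N : ℚ) ≠ 0 := by exact_mod_cast (by omega : N ≠ 0)
  unfold EE
  rw [show N * (k + 1) = N * k + N by ring, ← mul_sub, ← map_sub, EP_rec, map_neg, map_sum, mul_neg, Finset.mul_sum,
    ← Finset.sum_neg_distrib]
  refine Finset.sum_congr rfl fun c _ => ?_
  rw [map_mul, rescale_Cq, mul_left_comm, rescale_gx hN]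
  have e1 : (((N * k + c : ℕ) : ℚ) + 1) / N = (k : ℚ) + ro N c := by
    unfold ro
    push_cast
    field_simp
    ring
  rw [e1, gx_eq_iv]
  · rw [pow_succ (-1 : ℚ) β, mul_neg_one, map_neg, neg_mul, mul_neg, neg_neg, map_mul, mul_assoc]
  · have := ro_pos hN c
    positivity

/-- the symmetrised germ -/
def EB (N : ℕ) (a : ZMod N → ℚ) (z : ℕ → ℚ) (h n β k : ℕ) : PowerSeries ℚ :=
  EE N a z h β k + PowerSeries.rescale (-1 : ℚ) (EE N a z h β (n - 1 - k))

lemma EB_rec {N : ℕ} (hN : 1 ≤ N) (a : ZMod N → ℚ) (z : ℕ → ℚ) (h n β k : ℕ) (hk : k + 1 < n) :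
    EB N a z h n β (k + 1) - EB N a z h n β k =
      ∑ c ∈ Finset.range N, PowerSeries.C (a ((c : ZMod N) + 1)) *
        (PowerSeries.C ((-1 : ℚ) ^ β) * iv (-((k : ℚ) + ro N c)) ^ (β + 1) +
          iv ((n : ℚ) - 2 - k + ro N c) ^ (β + 1)) := by
  have e1 : n - 1 - (k + 1) = n - 2 - k := by omega
  have e2 : n - 1 - k = n - 2 - k + 1 := by omega
  have e3 : ((n - 2 - k : ℕ) : ℚ) = (n : ℚ) - 2 - k := by
    rw [Nat.sub_sub, Nat.cast_sub (by omega)]
    push_cast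
    ring
  have h2 := EE_rec hN a z h β (n - 2 - k)
  have h3 := congrArg (PowerSeries.rescale (-1 : ℚ)) h2
  have h4 := EE_rec hN a z h β k
  unfold EB
  rw [e1, e2]
  rw [map_sub, map_sum] at h3
  have e4 : ∀ c ∈ Finset.range N, PowerSeries.rescale (-1 : ℚ)
      (PowerSeries.C (a ((c : ZMod N) + 1) * (-1) ^ β) * iv (-(((n - 2 - k : ℕ) : ℚ) + ro N c)) ^ (β + 1)) =
      -(PowerSeries.C (a ((c : ZMod N) + 1)) * iv ((n : ℚ) - 2 - k + ro N c) ^ (β + 1)) := by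
    intro c _
    rw [map_mul, RJ.rescale_C, RJ.rescale_iv_gen, ← mul_assoc, ← map_mul, ← neg_mul, ← map_neg, e3]
    congr 2
    have h3 : ((-1 : ℚ) ^ β) * (-1) ^ (β + 1) = -1 := by
      rw [pow_succ, ← mul_assoc, ← mul_pow]
      norm_num
    linear_combination (a ((c : ZMod N) + 1)) * h3
  rw [Finset.sum_congr rfl e4, Finset.sum_neg_distrib] at h3
  have h5 : ∀ A B C D : PowerSeries ℚ, A + B - (C + D) = (A - C) - (D - B) := fun A B C D => by ring
  rw [h5, h4, h3, sub_neg_eq_add, ← Finset.sum_add_distrib]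
  refine Finset.sum_congr rfl fun c _ => ?_
  rw [map_mul]
  ring

/-! ### The polynomials -/

/-- the two factors of the pole `c` -/
def fc (N n B c : ℕ) : ℚ[X] := (X - C (ro N c)) ^ B * (X + C ((n : ℚ) - 2 + ro N c)) ^ B

/-- the product of the factors -/
def Pj (N n B : ℕ) : ℚ[X] := ∏ c ∈ Finset.range N, fc N n B c

/-- the numerator of one pole -/
def e1 (N n B β c : ℕ) : ℚ[X] :=
  C ((-1 : ℚ) ^ β) * ((X - C (ro N c)) ^ (B - β - 1) * (X + C ((n : ℚ) - 2 + ro N c)) ^ B) +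
    (X - C (ro N c)) ^ B * (X + C ((n : ℚ) - 2 + ro N c)) ^ (B - β - 1)

/-- the numerator of the difference -/
def et (N : ℕ) (a : ZMod N → ℚ) (n B β : ℕ) : ℚ[X] :=
  ∑ c ∈ Finset.range N, C (a ((c : ZMod N) + 1)) * (e1 N n B β c * ∏ c' ∈ (Finset.range N).erase c, fc N n B c')

/-- **RCW**: the recursion of the germs. -/
theorem EB_rcw {N : ℕ} (hN : 1 ≤ N) (a : ZMod N → ℚ) (z : ℕ → ℚ) (h n B β k : ℕ) (hB : β + 1 ≤ B) (hk : k + 1 < n) :
    TS (-(k : ℚ)) (Pj N n B) * (EB N a z h n β (k + 1) - EB N a z h n β k) =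
        TS (-(k : ℚ)) (et N a n B β) := by
  rw [EB_rec hN a z h n β k hk]
  unfold et
  rw [map_sum, Finset.mul_sum]
  refine Finset.sum_congr rfl fun c hc => ?_
  have hcN := Finset.mem_range.1 hc
  have hr0 := ro_pos hN c
  have hr1 := ro_le hcN
  have hk0 : -((k : ℚ) + ro N c) ≠ 0 := by
    have : (0 : ℚ) < (k : ℚ) + ro N c := by positivity
    exact neg_ne_zero.2 this.ne'
  have hk1 : ((n : ℚ) - 2 - k + ro N c) ≠ 0 := by
    have : ((k : ℚ) + 2) ≤ n := by exact_mod_cast hk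
    intro h0
    linarith
  have t1 : TS (-(k : ℚ)) (X - C (ro N c)) = PowerSeries.X + PowerSeries.C (-((k : ℚ) + ro N c)) := by
    rw [map_sub, TS_X, TS_C, add_sub_assoc, ← map_sub]
    congr 2
    ring
  have t2 : TS (-(k : ℚ)) (X + C ((n : ℚ) - 2 + ro N c)) =
      PowerSeries.X + PowerSeries.C ((n : ℚ) - 2 - k + ro N c) := by
    rw [map_add, TS_X, TS_C, add_assoc, ← map_add]
    congr 2
    ring
  have t3 : Pj N n B = fc N n B c * ∏ c' ∈ (Finset.range N).erase c, fc N n B c' := by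
    unfold Pj
    rw [Finset.mul_prod_erase _ _ hc]
  obtain ⟨d, hd⟩ : ∃ d, B = β + 1 + d := ⟨B - (β + 1), by omega⟩
  have hd' : B - β - 1 = d := by omega
  have h4 : (PowerSeries.X + PowerSeries.C (-((k : ℚ) + ro N c))) ^ (β + 1) *
      iv (-((k : ℚ) + ro N c)) ^ (β + 1) = 1 := by
    rw [← mul_pow, lin_mul_iv hk0, one_pow]
  have h5 : (PowerSeries.X + PowerSeries.C ((n : ℚ) - 2 - k + ro N c)) ^ (β + 1) *
      iv ((n : ℚ) - 2 - k + ro N c) ^ (β + 1) = 1 := by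
    rw [← mul_pow, lin_mul_iv hk1, one_pow]
  rw [t3]
  obtain ⟨R, hR⟩ : ∃ R, R = TS (-(k : ℚ)) (∏ c' ∈ (Finset.range N).erase c, fc N n B c') := ⟨_, rfl⟩
  rw [map_mul, map_mul, map_mul, ← hR, TS_C]
  unfold fc e1
  rw [hd']
  obtain ⟨P1, hP1⟩ : ∃ P1, P1 = X - C (ro N c) := ⟨_, rfl⟩
  obtain ⟨P2, hP2⟩ : ∃ P2, P2 = X + C ((n : ℚ) - 2 + ro N c) := ⟨_, rfl⟩
  obtain ⟨T1, hT1⟩ : ∃ T1, T1 = PowerSeries.X + PowerSeries.C (-((k : ℚ) + ro N c)) := ⟨_, rfl⟩
  obtain ⟨T2, hT2⟩ : ∃ T2, T2 = PowerSeries.X + PowerSeries.C ((n : ℚ) - 2 - k + ro N c) := ⟨_, rfl⟩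
  obtain ⟨I1, hI1⟩ : ∃ I1, I1 = iv (-((k : ℚ) + ro N c)) ^ (β + 1) := ⟨_, rfl⟩
  obtain ⟨I2, hI2⟩ : ∃ I2, I2 = iv ((n : ℚ) - 2 - k + ro N c) ^ (β + 1) := ⟨_, rfl⟩
  rw [← hP1, ← hT1] at t1
  rw [← hP2, ← hT2] at t2
  rw [← hT1, ← hI1] at h4
  rw [← hT2, ← hI2] at h5
  rw [← hP1, ← hP2, ← hI1, ← hI2]
  simp only [map_mul, map_add, map_pow, t1, t2, TS_C]
  rw [hd, pow_add _ (β + 1) d, pow_add _ (β + 1) d]
  linear_combination
    (PowerSeries.C (a ((c : ZMod N) + 1)) * PowerSeries.C (-1 : ℚ) ^ β * T1 ^ d * (T2 ^ (β + 1) * T2 ^ d) * R) * h4 +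
    (PowerSeries.C (a ((c : ZMod N) + 1)) * T2 ^ d * (T1 ^ (β + 1) * T1 ^ d) * R) * h5

end

end Pool.Agent.Helper76.RP
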