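import Pool.Agent.Helper76.RP.ZE

/-!
# Integrality and size of the forms
-/

set_option autoImplicit false

open Polynomial Pool.Agent.H337R2 Pool.Agent.W165.OZ Pool.Agent.Y926.LZ Pool.Agent.Y926.TW Filter

namespace Pool.Agent.Helper76.RP

open Pool.Agent.N797.PW Pool.Agent.N797.PW.INT

noncomputable section

/-- integrality of the terms -/
lemma Tm_int {h ν β B γ l : ℕ} {c : ℕ → ℕ → ℤ} (hβB : β < B) (hl : l ≤ γ * (2 * ν + 1))
    (hTC : TC h (2 * ν + 1) c B) {v : ℕ} (hv : v < 2 * ν + 1) :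
    Iz ((DW (2 * ν + 1) (2 * h + 2 * B) (2 * γ + 2) : ℚ) * Tm h (2 * ν + 1) c (gq (2 * ν + 1) l) β (-(v : ℤ))) := by
  have h1 : S_JI := t_ji
  have h2 : S_JZ := t_jz
  have h3 : S_TAY := t_tay
  set n := 2 * ν + 1 with hn
  have hn1 : 1 ≤ n := by omega
  set D : ℚ := (DW n (2 * h + 2 * B) (2 * γ + 2) : ℚ) with hD
  rw [h3 h n c (gq n l) β (-(v : ℤ)), mul_add]
  apply Iz.add
  · rw [Finset.mul_sum]
    apply Iz.sum
    intro l' hl'
    rw [Finset.mem_range] at hl'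
    have h4 : Iz (D * PowerSeries.coeff l' (TS ((-(v : ℤ) : ℤ) : ℚ) (gq n l))) :=
      h1 n l γ (2 * h + 2 * B) l' (-(v : ℤ)) hn1 hl (by omega)
    have h5 : Iz (ev h n c (β - l') (-(v : ℤ))) := hTC v hv (β - l') (by omega)
    have h6 := ((Iz.npow (-1) l').mul h4).mul h5
    convert h6 using 1
    push_cast
    ring
  · have h4 : Iz (∑ k ∈ nd n (-(v : ℤ)), ∑ i ∈ Finset.Icc 1 (2 * h), (c i k : ℚ) *
        (D * PowerSeries.coeff (i - 1) (TS (-(k : ℚ))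
          (gq n l /ₘ (X - C ((-(v : ℤ) : ℤ) : ℚ)) ^ (β + 1))))) := by
      apply Iz.sum
      intro k hk
      unfold nd at hk
      rw [Finset.mem_filter, Finset.mem_range] at hk
      apply Iz.sum
      intro i hi
      rw [Finset.mem_Icc] at hi
      apply (Iz.int (c i k)).mul
      exact q_int h2 hn1 hl (-(v : ℤ)) hk.2 (by omega) (by omega)
    have h5 := (Iz.npow (-1) (β + 1)).mul h4
    convert h5 using 1
    rw [mul_left_comm, Finset.mul_sum]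
    push_cast
    congr 1
    apply Finset.sum_congr rfl
    intro k _
    rw [Finset.mul_sum]
    apply Finset.sum_congr rfl
    intro i _
    ring

/-- integrality of the forms -/
lemma LP_int {N : ℕ} (a : ZMod N → ℚ) (z : ℕ → ℚ) {h ν β B γ l q : ℕ} {c : ℕ → ℕ → ℤ} (hβB : β < B)
    (hl : l ≤ γ * (2 * ν + 1)) (hAS : AS h (2 * ν + 1) c) (hTC : TC h (2 * ν + 1) c B)
    (hz : ∀ j, Odd (β + j) → β < j → j ≤ 2 * h + β → ∃ x : ℤ, (q : ℚ) * z j = x)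
    (ha : ∀ r, ∃ x : ℤ, (q : ℚ) * a r = x) :
    ∃ M : ℤ, (q : ℚ) * (DW (2 * ν + 1) (2 * h + 2 * B) (2 * γ + 2) : ℚ) *
      LP N a z h (2 * ν + 1) c (gq (2 * ν + 1) l) β = M := by
  set n := 2 * ν + 1 with hn
  have hn1 : 1 ≤ n := by omega
  set Dw : ℚ := (DW n (2 * h + 2 * B) (2 * γ + 2) : ℚ) with hD
  have hR : ∀ i ∈ Finset.Icc 1 (2 * h),
      Iz (Cb β i * (Dw * rh h n c (gq n l) i) * ((q : ℚ) * z (i + β))) := by
    intro i hi
    rw [Finset.mem_Icc] at hi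
    rcases Nat.even_or_odd i with h4 | h4
    · rw [rh_even hAS h4 hi.1]
      simp only [mul_zero, zero_mul]
      exact Iz.zero
    · have h5 : Iz (Cb β i) := by
        unfold Cb
        exact Iz.nat _
      have h6 : Iz ((q : ℚ) * z (i + β)) := by
        refine hz (i + β) ?_ (by omega) (by omega)
        have : β + (i + β) = i + 2 * β := by ring
        rw [this]
        exact h4.add_even (even_two_mul β)
      exact (h5.mul (rh_int t_ji c hn1 hl (by omega) i)).mul h6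
  have hA : ∀ v ∈ Finset.range n, Iz (((q : ℚ) * a (-(v : ZMod N))) *
      (Dw * Tm h n c (gq n l) β (-(v : ℤ)))) := by
    intro v hv
    exact Iz.mul (ha _) (Tm_int hβB hl hTC (Finset.mem_range.1 hv))
  have h7 := (Iz.sum _ _ hR).sub (Iz.sum _ _ hA)
  obtain ⟨M, hM⟩ := h7
  refine ⟨M, ?_⟩
  rw [← hM]
  unfold LP TP
  rw [mul_sub, Finset.mul_sum, Finset.mul_sum]
  congr 1
  · apply Finset.sum_congr rfl
    intro i _
    ring
  · apply Finset.sum_congr rfl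
    intro v _
    ring

/-- the size of the values -/
lemma xp_le {N : ℕ} {b : ZMod N → ℝ} {δ : ℝ} (hb : ∀ r, |b r| ≤ δ) {e : ℕ} (he : 2 ≤ e) :
    |xp N b e| ≤ 2 * δ := by
  have h1 := xp_hasSum hb he
  have h2 := (JReal.zr_hasSum he).mul_left δ
  have h0 : 0 ≤ δ := (abs_nonneg _).trans (hb 0)
  have h3 : |xp N b e| ≤ δ * zr e := by
    have h4 : ∀ s : ℕ, |b ((s : ZMod N) + 1) * (1 / ((s : ℝ) + 1) ^ e)| ≤ δ * (1 / ((s : ℝ) + 1) ^ e) := by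
      intro s
      rw [abs_mul, abs_of_nonneg (by positivity : (0 : ℝ) ≤ 1 / ((s : ℝ) + 1) ^ e)]
      exact mul_le_mul_of_nonneg_right (hb _) (by positivity)
    rw [abs_le]
    constructor
    · exact hasSum_le (fun s => (abs_le.1 (h4 s)).1) h2.neg h1
    · exact hasSum_le (fun s => (abs_le.1 (h4 s)).2) h1 h2
  have h5 := RJ.zr_le_two he
  have h6 := le_abs_self (zr e)
  calc |xp N b e| ≤ δ * zr e := h3
    _ ≤ δ * 2 := mul_le_mul_of_nonneg_left (h6.trans h5) h0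
    _ = _ := mul_comm _ _

/-- the forms are small -/
lemma LPR_sml {N : ℕ} (x : ZMod N → ℝ) {C0 : ℝ} (hC : ∀ r, |x r| ≤ C0) {h ν β B w r l H : ℕ} {c : ℕ → ℕ → ℤ}
    (hc : DV N c) (hβ2 : 2 ≤ β) (hβ : β < B) (hr : 4 ≤ r)
    (hl : l ≤ w * (2 * ν + 1)) (hA : AS h (2 * ν + 1) c) (hcH : ∀ i k, |c i k| ≤ (H : ℤ))
    (hTA : TA h (2 * ν + 1) c (w * (2 * ν + 1))) (hTB : TB h (2 * ν + 1) c r B) :
    |LPR N x h (2 * ν + 1) c (gq (2 * ν + 1) l) β| ≤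
      C0 * (2 ^ (β + 2) * (r : ℝ) ^ 2 * (2 * (ν : ℝ) + 1) ^ 3 * H * 8 ^ (l + (2 * ν + 1)) *
        (2 / (r : ℝ)) ^ (2 * (w * (2 * ν + 1)) + 2 - 2 * l)) := by
  have h1 : S_TAY := t_tay
  have h3 : S_JB := t_jb
  have h4 : S_SY := t_sy
  have hC0 : 0 ≤ C0 := (abs_nonneg _).trans (hC 0)
  set n := 2 * ν + 1 with hn'
  have hn : 1 ≤ n := by omega
  have hz : ∀ f : ℚ[X], f.natDegree ≤ 2 * (w * n) + 1 →
      LF h n c (fun k => TS (-(k : ℚ)) f) = 0 := fun f hf => SML.LF_zero h4 hn hA hTA hf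
  have hR := real_sum hC h n c hc (gq n l) β hβ2
  have hnn : (2 * (ν : ℝ) + 1) = (n : ℝ) := by rw [hn']; push_cast; ring
  rw [hnn]
  set K : ℝ := H * n * 8 ^ (l + n) * (2 ^ (β + 1) * r ^ 2 *
    (2 / (r : ℝ)) ^ (2 * (w * n) + 2 - 2 * l) * n ^ 2) with hK
  have hK0 : 0 ≤ K := by rw [hK]; positivity
  have h5 : ∀ t : ℕ, |x ((t : ZMod N) + 1) * ((Tm h n c (gq n l) β ((t : ℤ) + 1) : ℚ) : ℝ)| ≤
      (C0 * K) * (1 / ((t : ℝ) + 1) ^ 2) := by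
    intro t
    have h6 : ((t : ℤ) + 1) = ((t + 1 : ℕ) : ℤ) := by push_cast; ring
    rw [h6]
    by_cases hT : t + 1 ≤ r * n
    · rw [SML.Tm_zero h1 hl hβ hTB hz (by omega) hT]
      simp only [Rat.cast_zero, mul_zero, abs_zero]
      positivity
    · have h7 := SML.Tm_le h3 (β := β) (B := B) hn hr hl hcH hz (by omega : r * n < t + 1)
      have h8 : ((|Tm h n c (gq n l) β ((t + 1 : ℕ) : ℤ)| : ℚ) : ℝ) ≤ _ := Rat.cast_le.2 h7
      rw [Rat.cast_abs] at h8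
      rw [abs_mul]
      have h9 : |((Tm h n c (gq n l) β ((t + 1 : ℕ) : ℤ) : ℚ) : ℝ)| ≤ K * (1 / ((t : ℝ) + 1) ^ 2) := by
        refine h8.trans (le_of_eq ?_)
        rw [hK]
        push_cast
        ring
      calc _ ≤ C0 * (K * (1 / ((t : ℝ) + 1) ^ 2)) := mul_le_mul (hC _) h9 (abs_nonneg _) hC0
        _ = _ := by ring
  have h6 := SML.inv_sq_sum.mul_left (C0 * K)
  have h7 : |LPR N x h n c (gq n l) β| ≤ (C0 * K) * (Real.pi ^ 2 / 6) := by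
    rw [abs_le]
    constructor
    · exact hasSum_le (fun s => (abs_le.1 (h5 s)).1) h6.neg hR
    · exact hasSum_le (fun s => (abs_le.1 (h5 s)).2) hR h6
  refine h7.trans ?_
  have hpi : Real.pi ^ 2 / 6 ≤ 2 := by
    have h8 := Real.pi_lt_d2
    have h9 := Real.pi_pos
    nlinarith
  calc (C0 * K) * (Real.pi ^ 2 / 6) ≤ (C0 * K) * 2 := mul_le_mul_of_nonneg_left hpi (by positivity)
    _ = _ := by
        rw [hK, pow_succ 2 (β + 1)]
        ring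

/-- the size of the finite part -/
lemma TPR_le {N : ℕ} {b : ZMod N → ℝ} {δ : ℝ} (hb : ∀ r, |b r| ≤ δ) {h ν β B w l H : ℕ} {c : ℕ → ℕ → ℤ}
    (hc : DV N c) (hβ : 2 ≤ β) (hβB : β < B) (hl : l ≤ w * (2 * ν + 1))
    (hAS : AS h (2 * ν + 1) c) (hcH : ∀ i k, |c i k| ≤ (H : ℤ)) (hTA : TA h (2 * ν + 1) c (w * (2 * ν + 1)))
    (hTB : TB h (2 * ν + 1) c 16 B) :
    |TPR N b h (2 * ν + 1) c (gq (2 * ν + 1) l) β| ≤
      ((2 ^ (B + 10) + 4 * h * 2 ^ (2 * h + B)) * (2 * (ν : ℝ) + 1) ^ 3 * (H * 8 ^ (l + (2 * ν + 1)))) * δ := by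
  have h1 := LPR_sml b hb hc hβ hβB (r := 16) (by norm_num) hl hAS hcH hTA hTB
  have hδ : 0 ≤ δ := (abs_nonneg _).trans (hb 0)
  set n := 2 * ν + 1 with hn
  set Nn : ℝ := 2 * (ν : ℝ) + 1 with hNn
  have hN1 : 1 ≤ Nn := by rw [hNn]; linarith [Nat.cast_nonneg (α := ℝ) ν]
  have e1 : TPR N b h n c (gq n l) β =
      ∑ i ∈ Finset.Icc 1 (2 * h), ((Cb β i * rh h n c (gq n l) i : ℚ) : ℝ) * xp N b (i + β) -
        LPR N b h n c (gq n l) β := by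
    unfold LPR
    ring
  have h2 : |∑ i ∈ Finset.Icc 1 (2 * h), ((Cb β i * rh h n c (gq n l) i : ℚ) : ℝ) * xp N b (i + β)| ≤
      (4 * h * 2 ^ (2 * h + B) * Nn ^ 3 * (H * 8 ^ (l + n))) * δ := by
    refine (Finset.abs_sum_le_sum_abs _ _).trans ?_
    have h3 : ∀ i ∈ Finset.Icc 1 (2 * h), |((Cb β i * rh h n c (gq n l) i : ℚ) : ℝ) * xp N b (i + β)| ≤
        2 ^ (2 * h + B) * (H * Nn * 8 ^ (l + n)) * (2 * δ) := by
      intro i hi
      rw [abs_mul]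
      refine mul_le_mul ((RJ.cf_le hcH hi).trans ?_) (xp_le hb (by rw [Finset.mem_Icc] at hi; omega))
        (abs_nonneg _) (by positivity)
      gcongr
      · norm_num
    refine (Finset.sum_le_sum h3).trans ?_
    rw [Finset.sum_const, Nat.card_Icc, nsmul_eq_mul]
    have h4 : Nn ≤ Nn ^ 3 := by
      calc Nn = Nn ^ 1 := (pow_one Nn).symm
        _ ≤ Nn ^ 3 := pow_le_pow_right₀ hN1 (by norm_num)
    have h5 : (((2 * h + 1 - 1 : ℕ)) : ℝ) = 2 * h := by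
      rw [Nat.add_sub_cancel]; push_cast; ring
    rw [h5]
    calc 2 * (h : ℝ) * (2 ^ (2 * h + B) * (H * Nn * 8 ^ (l + n)) * (2 * δ))
        = 4 * h * 2 ^ (2 * h + B) * Nn * (H * 8 ^ (l + n)) * δ := by ring
      _ ≤ _ := by gcongr
  have h3 : |LPR N b h n c (gq n l) β| ≤ (2 ^ (B + 10) * Nn ^ 3 * (H * 8 ^ (l + n))) * δ := by
    refine h1.trans ?_
    have h4 : (2 / ((16 : ℕ) : ℝ)) ^ (2 * (w * n) + 2 - 2 * l) ≤ 1 := by
      apply pow_le_one₀ <;> norm_num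
    have h5 : (2 : ℝ) ^ (β + 2) * ((16 : ℕ) : ℝ) ^ 2 ≤ 2 ^ (B + 10) := by
      have : ((16 : ℕ) : ℝ) ^ 2 = 2 ^ 8 := by norm_num
      rw [this, ← pow_add]
      exact pow_le_pow_right₀ (by norm_num) (by omega)
    calc δ * (2 ^ (β + 2) * ((16 : ℕ) : ℝ) ^ 2 * Nn ^ 3 * H * 8 ^ (l + n) *
        (2 / ((16 : ℕ) : ℝ)) ^ (2 * (w * n) + 2 - 2 * l))
        ≤ δ * (2 ^ (β + 2) * ((16 : ℕ) : ℝ) ^ 2 * Nn ^ 3 * H * 8 ^ (l + n) * 1) := by gcongr
      _ = δ * ((2 ^ (β + 2) * ((16 : ℕ) : ℝ) ^ 2) * (Nn ^ 3 * (H * 8 ^ (l + n)))) := by ring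
      _ ≤ δ * (2 ^ (B + 10) * (Nn ^ 3 * (H * 8 ^ (l + n)))) := by gcongr
      _ = _ := by ring
  rw [e1]
  have h4 := abs_sub (∑ i ∈ Finset.Icc 1 (2 * h), ((Cb β i * rh h n c (gq n l) i : ℚ) : ℝ) * xp N b (i + β))
    (LPR N b h n c (gq n l) β)
  calc _ ≤ _ := h4
    _ ≤ (4 * h * 2 ^ (2 * h + B) * Nn ^ 3 * (H * 8 ^ (l + n))) * δ +
        (2 ^ (B + 10) * Nn ^ 3 * (H * 8 ^ (l + n))) * δ := add_le_add h2 h3
    _ = _ := by ring

/-- the difference of the two forms -/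
lemma LP_dif {N : ℕ} (x : ZMod N → ℝ) (a : ZMod N → ℚ) (z : ℕ → ℚ) {h ν β B w l H : ℕ} {c : ℕ → ℕ → ℤ} {δ : ℝ}
    (hδ : 0 ≤ δ) (hc : DV N c) (hβ : 2 ≤ β) (hβB : β < B) (hl : l ≤ w * (2 * ν + 1))
    (hAS : AS h (2 * ν + 1) c) (hcH : ∀ i k, |c i k| ≤ (H : ℤ)) (hTA : TA h (2 * ν + 1) c (w * (2 * ν + 1)))
    (hTB : TB h (2 * ν + 1) c 16 B)
    (hz : ∀ j, Odd (β + j) → β < j → j ≤ 2 * h + β → |xp N x j - (z j : ℝ)| ≤ δ)
    (ha : ∀ r, |x r - (a r : ℝ)| ≤ δ) :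
    |LPR N x h (2 * ν + 1) c (gq (2 * ν + 1) l) β - (LP N a z h (2 * ν + 1) c (gq (2 * ν + 1) l) β : ℝ)| ≤
      ((2 * h * 2 ^ (2 * h + B) + (2 ^ (B + 10) + 4 * h * 2 ^ (2 * h + B))) *
        (2 * (ν : ℝ) + 1) ^ 3 * (H * 8 ^ (l + (2 * ν + 1)))) * δ := by
  have h0 := TPR_le (b := fun r => x r - (a r : ℝ)) ha hc hβ hβB hl hAS hcH hTA hTB
  set n := 2 * ν + 1 with hn
  set Nn : ℝ := 2 * (ν : ℝ) + 1 with hNn
  have hN1 : 1 ≤ Nn := by rw [hNn]; linarith [Nat.cast_nonneg (α := ℝ) ν]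
  have h4 : Nn ≤ Nn ^ 3 := by
    calc Nn = Nn ^ 1 := (pow_one Nn).symm
      _ ≤ Nn ^ 3 := pow_le_pow_right₀ hN1 (by norm_num)
  have e1 : LPR N x h n c (gq n l) β - (LP N a z h n c (gq n l) β : ℝ) =
      ∑ i ∈ Finset.Icc 1 (2 * h), ((Cb β i * rh h n c (gq n l) i : ℚ) : ℝ) *
        (xp N x (i + β) - (z (i + β) : ℝ)) - TPR N (fun r => x r - (a r : ℝ)) h n c (gq n l) β := by
    unfold LPR LP TPR TP
    push_cast
    simp only [mul_sub, sub_mul, Finset.sum_sub_distrib]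
    ring
  rw [e1]
  have h2 : |∑ i ∈ Finset.Icc 1 (2 * h), ((Cb β i * rh h n c (gq n l) i : ℚ) : ℝ) *
        (xp N x (i + β) - (z (i + β) : ℝ))| ≤
      (2 * h * 2 ^ (2 * h + B) * Nn ^ 3 * (H * 8 ^ (l + n))) * δ := by
    refine (Finset.abs_sum_le_sum_abs _ _).trans ?_
    have h3 : ∀ i ∈ Finset.Icc 1 (2 * h), |((Cb β i * rh h n c (gq n l) i : ℚ) : ℝ) *
        (xp N x (i + β) - (z (i + β) : ℝ))| ≤ 2 ^ (2 * h + B) * (H * Nn * 8 ^ (l + n)) * δ := by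
      intro i hi
      have hi' := Finset.mem_Icc.1 hi
      rcases Nat.even_or_odd i with he | ho
      · rw [rh_even hAS he hi'.1, mul_zero, Rat.cast_zero, zero_mul, abs_zero]
        positivity
      · rw [abs_mul]
        have h3 := hz (i + β) (by
          have : β + (i + β) = i + 2 * β := by ring
          rw [this]
          exact ho.add_even (even_two_mul β)) (by omega) (by omega)
        refine mul_le_mul ((RJ.cf_le hcH hi).trans ?_) h3 (abs_nonneg _) (by positivity)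
        gcongr
        · norm_num
    refine (Finset.sum_le_sum h3).trans ?_
    rw [Finset.sum_const, Nat.card_Icc, nsmul_eq_mul]
    have h5 : (((2 * h + 1 - 1 : ℕ)) : ℝ) = 2 * h := by
      rw [Nat.add_sub_cancel]; push_cast; ring
    rw [h5]
    calc 2 * (h : ℝ) * (2 ^ (2 * h + B) * (H * Nn * 8 ^ (l + n)) * δ)
        = 2 * h * 2 ^ (2 * h + B) * Nn * (H * 8 ^ (l + n)) * δ := by ring
      _ ≤ _ := by gcongr
  have h5 := abs_sub (∑ i ∈ Finset.Icc 1 (2 * h), ((Cb β i * rh h n c (gq n l) i : ℚ) : ℝ) *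
        (xp N x (i + β) - (z (i + β) : ℝ))) (TPR N (fun r => x r - (a r : ℝ)) h n c (gq n l) β)
  calc _ ≤ _ := h5
    _ ≤ _ := add_le_add h2 h0
    _ = _ := by ring

end

end Pool.Agent.Helper76.RP
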