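import Pool.Agent.Helper76.RP.Core

/-!
# Periodic real coefficients in windows: measure, outside spaces, linear independence
-/

set_option autoImplicit false

open Pool.Agent.H337R2 Module

namespace Pool.Agent.Helper76.RP

open Pool.Agent.N797.PW

/-- the condition of largeness -/
def Wp (N b S s : ℕ) : Prop :=
  2 ^ 41 * (N ^ 2 * S ^ 2 * (Nat.log 2 (S * N) + 1) * (b + S ^ 2 * (Nat.log 2 (S * N) + 1) ^ 2)) ≤ s

/-- the conclusion: the measure, uniform in the coefficients -/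
def Ms (N b S s e : ℕ) : Prop :=
  ∀ C0 : ℝ, ∃ q0 : ℕ, ∀ x : ZMod N → ℝ, (∀ r, |x r| ≤ C0) → (∃ r, 1 ≤ |(-1) ^ e * x r + x (-r)|) → ∀ q ≥ q0,
    (∃ r, ∀ p : ℤ, (q : ℝ) ^ (-(1 / (S : ℝ))) ≤ |(q : ℝ) * x r - p|) ∨
    ∃ j, b < j ∧ j ≤ s ∧ Odd (e + j) ∧
      ∀ p : ℤ, (q : ℝ) ^ (-(1 / (S : ℝ))) ≤ |(q : ℝ) * xp N x j - p|

/-- **The measure.** -/
theorem measure {N b S s : ℕ} (e : ℕ) (hN : 1 ≤ N) (hS : 1 ≤ S) (hs : Wp N b S s) : Ms N b S s e := by
  intro C0
  -- the parity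
  obtain ⟨b', hb1, hb2, hb3⟩ : ∃ b', b + 2 ≤ b' ∧ b' ≤ b + 3 ∧ ∀ j, Odd (b' + j) ↔ Odd (e + j) := by
    rcases Nat.even_or_odd (b + e) with h | h
    · refine ⟨b + 2, le_rfl, by omega, fun j => ?_⟩
      rw [Nat.even_iff] at h
      rw [Nat.odd_iff, Nat.odd_iff]
      omega
    · refine ⟨b + 3, by omega, le_rfl, fun j => ?_⟩
      rw [Nat.odd_iff] at h
      rw [Nat.odd_iff, Nat.odd_iff]
      omega
  have hwin : 2 * (N * qH N b' S) + qB N b' S ≤ s := by
    refine (win_le' N b' S hN hS).trans (le_trans ?_ hs)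
    have hL := one_le_qL N S
    have hLe : Nat.log 2 (S * N) + 1 = qL N S := rfl
    rw [hLe]
    have hT : 1 ≤ S ^ 2 * qL N S ^ 2 := by
      have : 0 < S ^ 2 * qL N S ^ 2 := by positivity
      omega
    have e1 : b' + S ^ 2 * qL N S ^ 2 ≤ 4 * (b + S ^ 2 * qL N S ^ 2) := by omega
    calc 2 ^ 39 * (N ^ 2 * S ^ 2 * qL N S * (b' + S ^ 2 * qL N S ^ 2))
        ≤ 2 ^ 39 * (N ^ 2 * S ^ 2 * qL N S * (4 * (b + S ^ 2 * qL N S ^ 2))) := by gcongr
      _ = 2 ^ 41 * (N ^ 2 * S ^ 2 * qL N S * (b + S ^ 2 * qL N S ^ 2)) := by ring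
  have hpar : ((-1 : ℝ) ^ b') = (-1) ^ e := by
    have h1 := hb3 0
    rw [add_zero, add_zero] at h1
    rcases Nat.even_or_odd e with h2 | h2
    · have h3 : Even b' := by
        rw [← Nat.not_odd_iff_even, h1, Nat.not_odd_iff_even]
        exact h2
      rw [h2.neg_one_pow, h3.neg_one_pow]
    · rw [h2.neg_one_pow, (h1.2 h2).neg_one_pow]
  obtain ⟨q0, hq0⟩ := core (N := N) (b := b') (S := S) hN (by omega) hS (max C0 0) (le_max_right _ _)
  refine ⟨q0, fun x hx hx0 q hq => ?_⟩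
  rcases hq0 x (fun r => (hx r).trans (le_max_left _ _)) (by
    obtain ⟨r, hr⟩ := hx0
    exact ⟨r, by rw [hpar]; exact hr⟩) q hq with h4 | ⟨j, h4, h5, h6, h7⟩
  · exact Or.inl h4
  · exact Or.inr ⟨j, by omega, h6.trans hwin, (hb3 j).1 h4, h7⟩

lemma xp_smul (N : ℕ) (c : ZMod N → ℝ) (r : ℝ) (j : ℕ) : xp N (fun l => r * c l) j = r * xp N c j := by
  unfold xp
  rw [← tsum_mul_left]
  refine tsum_congr fun s => ?_
  ring

/-- some value of the window is not in a given rational space of small dimension which contains the coefficients -/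
theorem outside {N b S s e : ℕ} [NeZero N] (hM : Ms N b S s e) (c : ZMod N → ℝ) (hc : ∃ r, (-1) ^ e * c r + c (-r) ≠ 0)
    (W : Submodule ℚ ℝ) [FiniteDimensional ℚ W] (h1 : ∀ r, c r ∈ W) (hW : finrank ℚ W ≤ S) :
    ∃ j, b < j ∧ j ≤ s ∧ Odd (e + j) ∧ xp N c j ∉ W := by
  classical
  obtain ⟨r0, hr0⟩ := hc
  obtain ⟨y0, hy0⟩ : ∃ y0, y0 = (-1) ^ e * c r0 + c (-r0) := ⟨_, rfl⟩
  rw [← hy0] at hr0
  have hyW : y0 ∈ W := by
    rw [hy0]
    refine W.add_mem ?_ (h1 _)
    rcases Nat.even_or_odd e with h | h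
    · rw [h.neg_one_pow, one_mul]
      exact h1 _
    · rw [h.neg_one_pow, neg_one_mul]
      exact W.neg_mem (h1 _)
  -- scaling
  let f : ℝ →ₗ[ℚ] ℝ := LinearMap.mulLeft ℚ y0⁻¹
  have hf : ∀ y, f y = y0⁻¹ * y := fun y => rfl
  obtain ⟨W', hW'⟩ : ∃ W' : Submodule ℚ ℝ, W' = W.map f := ⟨_, rfl⟩
  have hfin : FiniteDimensional ℚ W' := by rw [hW']; infer_instance
  have hdim : finrank ℚ W' ≤ S := by
    rw [hW']
    exact (Submodule.finrank_map_le f W).trans hW
  have hmem : ∀ y, y ∈ W → y0⁻¹ * y ∈ W' := by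
    intro y hy
    rw [hW']
    exact ⟨y, hy, rfl⟩
  have h11 : (1 : ℝ) ∈ W' := by
    have := hmem _ hyW
    rwa [inv_mul_cancel₀ hr0] at this
  obtain ⟨x, hx⟩ : ∃ x : ZMod N → ℝ, x = fun l => y0⁻¹ * c l := ⟨_, rfl⟩
  obtain ⟨q0, hq0⟩ := hM (∑ l, |x l|)
  obtain ⟨q, hqq, hq1, hq⟩ := Pool.Agent.R355.approx_of_mem W' h11 hdim
    (Sum.elim (fun l : ZMod N => x l) (fun j : Fin (s + 1) => xp N x (j : ℕ))) q0
  have hx0 : ∃ r, 1 ≤ |(-1) ^ e * x r + x (-r)| := by
    refine ⟨r0, ?_⟩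
    have e1 : (-1) ^ e * x r0 + x (-r0) = y0⁻¹ * y0 := by
      rw [hx, hy0]
      ring
    rw [e1, inv_mul_cancel₀ hr0, abs_one]
  have hxl : ∀ l, |x l| ≤ ∑ l, |x l| := fun l =>
    Finset.single_le_sum (f := fun l => |x l|) (fun i _ => abs_nonneg _) (Finset.mem_univ l)
  rcases hq0 x hxl hx0 q hqq with ⟨l, g2⟩ | ⟨j, g1, g2, g3, g4⟩
  · exfalso
    have hm : x l ∈ W' := by
      rw [hx]
      exact hmem _ (h1 l)
    obtain ⟨p, hp⟩ := hq (Sum.inl l) hm
    exact absurd hp (not_lt.2 (g2 p))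
  · refine ⟨j, g1, g2, g3, fun hmemj => ?_⟩
    have hm : xp N x j ∈ W' := by
      rw [hx, xp_smul]
      exact hmem _ hmemj
    obtain ⟨p, hp⟩ := hq (Sum.inr ⟨j, by omega⟩) hm
    exact absurd hp (not_lt.2 (g4 p))

/-- linear independence over number fields, modulo vector spaces which contain the coefficients -/
theorem indep {N b S s e d v m : ℕ} [NeZero N] (hM : Ms N b S s e) (c : ZMod N → ℝ)
    (hc : ∃ r, (-1) ^ e * c r + c (-r) ≠ 0) (hd : d * (v + m) ≤ S + d)
    (F : IntermediateField ℚ ℝ) [FiniteDimensional ℚ F] (hF : finrank ℚ F ≤ d)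
    (V : Submodule F ℝ) [Module.Finite F V] (hV : finrank F V ≤ v) (hcV : ∀ l, c l ∈ V) :
    ∃ J : Finset ℕ, J.card = m ∧ (∀ j ∈ J, b < j ∧ j ≤ s ∧ Odd (e + j)) ∧
      LinearIndependent F (fun j : J => V.mkQ (xp N c (j : ℕ))) := by
  classical
  have key : ∀ a : ℕ, a ≤ m → ∃ J : Finset ℕ, J.card = a ∧ (∀ j ∈ J, b < j ∧ j ≤ s ∧ Odd (e + j)) ∧
      LinearIndepOn F (fun j => V.mkQ (xp N c j)) (J : Set ℕ) := by
    intro a
    induction a with
    | zero => intro _; exact ⟨∅, by simp, by simp, by simp⟩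
    | succ a ih =>
      intro ha
      obtain ⟨J, hJc, hJE, hJi⟩ := ih (by omega)
      have hfin : Module.Finite F (Submodule.span F (xp N c '' (J : Set ℕ))) :=
        FiniteDimensional.span_of_finite F (J.finite_toSet.image (xp N c))
      have h1 : finrank F (Submodule.span F (xp N c '' (J : Set ℕ))) ≤ a := by
        have := finrank_span_finset_le_card (R := F) (J.image (xp N c))
        rw [Finset.coe_image] at this
        exact this.trans (Finset.card_image_le.trans hJc.le)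
      obtain ⟨U, hU⟩ : ∃ U : Submodule F ℝ, U = V ⊔ Submodule.span F (xp N c '' (J : Set ℕ)) := ⟨_, rfl⟩
      have hUfin : Module.Finite F U := by rw [hU]; infer_instance
      have h2 : finrank F U ≤ v + a := by
        have := Submodule.finrank_add_le_finrank_add_finrank V (Submodule.span F (xp N c '' (J : Set ℕ)))
        rw [hU]
        omega
      have hST : IsScalarTower ℚ F (U.restrictScalars ℚ) :=
        ⟨fun a c x => Subtype.ext (smul_assoc a c (x : ℝ))⟩
      have hUF : Module.Finite F (U.restrictScalars ℚ) := hUfin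
      have hUQ : FiniteDimensional ℚ (U.restrictScalars ℚ) := Module.Finite.trans F (U.restrictScalars ℚ)
      have h3 : finrank ℚ (U.restrictScalars ℚ) ≤ d * (v + a) := by
        have e : finrank ℚ (U.restrictScalars ℚ) = finrank ℚ F * finrank F U :=
          (Module.finrank_mul_finrank ℚ F (U.restrictScalars ℚ)).symm
        rw [e]
        exact Nat.mul_le_mul hF h2
      have h4 : finrank ℚ (U.restrictScalars ℚ) ≤ S := by
        have h7 : d * (v + a) + d ≤ S + d := by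
          calc d * (v + a) + d = d * (v + (a + 1)) := by ring
            _ ≤ d * (v + m) := Nat.mul_le_mul_left _ (by omega)
            _ ≤ S + d := hd
        omega
      obtain ⟨j, g1, g2, g3, g4⟩ := outside hM c hc (U.restrictScalars ℚ)
        (fun l => by
          change c l ∈ U
          rw [hU]
          exact Submodule.mem_sup_left (hcV l)) h4
      have hjU : xp N c j ∉ U := g4
      have hjJ : j ∉ J := by
        intro hj
        apply hjU
        rw [hU]
        exact Submodule.mem_sup_right (Submodule.subset_span ⟨j, hj, rfl⟩)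
      refine ⟨insert j J, ?_, ?_, ?_⟩
      · rw [Finset.card_insert_of_notMem hjJ, hJc]
      · intro i hi
        rcases Finset.mem_insert.1 hi with rfl | hi
        · exact ⟨g1, g2, g3⟩
        · exact hJE i hi
      · rw [Finset.coe_insert]
        refine hJi.insert ?_
        intro hmem
        apply hjU
        have e1 : (fun j => V.mkQ (xp N c j)) '' (J : Set ℕ) = V.mkQ '' (xp N c '' (J : Set ℕ)) := by
          rw [Set.image_image]
        rw [e1, ← Submodule.map_span] at hmem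
        have h3 : xp N c j ∈ Submodule.comap V.mkQ
          (Submodule.map V.mkQ (Submodule.span F (xp N c '' (J : Set ℕ)))) := hmem
        rw [Submodule.comap_map_mkQ] at h3
        rwa [hU]
  obtain ⟨J, h1, h2, h3⟩ := key m le_rfl
  exact ⟨J, h1, h2, h3⟩

end Pool.Agent.Helper76.RP
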