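import Pool.Agent.Helper76.RP.Defs

/-!
# The combinations of the numerators are not differences
-/

set_option autoImplicit false

open Polynomial Pool.Agent.H337R2 Pool.Agent.W165.OZ Pool.Agent.Y926.LZ Pool.Agent.Y926.TW Filter
open scoped Topology

namespace Pool.Agent.Helper76.RP

open Pool.Agent.N797.PW Pool.Agent.N797.PW.Pole391

noncomputable section

/-- the number of the poles at `0` -/
def cnt (K : ℕ) (r : ℚ) : ℚ := ∑ i ∈ Finset.range (2 * K), if (i : ℚ) + r = 0 then 1 else 0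

lemma rg_cnt (K : ℕ) (r : ℚ) (e : ℕ) :
    Rg fun t => ∑ i ∈ Finset.range (2 * K), 1 / (t + (i + r)) ^ e - cnt K r * (1 / t ^ e) := by
  have h : Rg fun t => ∑ i ∈ Finset.range (2 * K), (1 / (t + (i + r)) ^ e -
      (if (i : ℚ) + r = 0 then 1 else 0) * (1 / t ^ e)) := by
    refine Rg.sum _ _ fun i _ => ?_
    by_cases h0 : (i : ℚ) + r = 0
    · simp only [h0, add_zero, if_true, one_mul, sub_self]
      exact Rg.of_cont continuousAt_const
    · simp only [h0, if_false, zero_mul, sub_zero]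
      exact rg_inv _ h0 e
  refine h.congr (Eventually.of_forall fun t => ?_)
  simp only [Finset.sum_sub_distrib]
  rw [← Finset.sum_mul]
  rfl

/-- the combination of the polar parts -/
def sg1 (N : ℕ) (a : ZMod N → ℚ) (n β : ℕ) (t : ℚ) : ℚ :=
  ∑ c ∈ Finset.range N, a ((c : ZMod N) + 1) *
    ((-1) ^ β * (1 / (t - ro N c) ^ (β + 1)) + 1 / (t + ((n : ℚ) - 2 + ro N c)) ^ (β + 1))

lemma e1_eval {N n B β c : ℕ} (h : β + 1 ≤ B) {t : ℚ} (h1 : t - ro N c ≠ 0)
    (h2 : t + ((n : ℚ) - 2 + ro N c) ≠ 0) : (e1 N n B β c).eval t = (fc N n B c).eval t *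
      ((-1) ^ β * (1 / (t - ro N c) ^ (β + 1)) + 1 / (t + ((n : ℚ) - 2 + ro N c)) ^ (β + 1)) := by
  obtain ⟨d, rfl⟩ := Nat.exists_eq_add_of_le h
  have e' : β + 1 + d - β - 1 = d := by omega
  simp only [e1, fc, eval_add, eval_mul, eval_pow, eval_sub, eval_X, eval_C, e']
  rw [pow_add, pow_add]
  obtain ⟨p, hp⟩ : ∃ p, p = t - ro N c := ⟨_, rfl⟩
  obtain ⟨q, hq⟩ : ∃ q, q = t + ((n : ℚ) - 2 + ro N c) := ⟨_, rfl⟩
  rw [← hp] at h1 ⊢
  rw [← hq] at h2 ⊢
  field_simp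
  ring

lemma et_eval {N : ℕ} (a : ZMod N → ℚ) {n B β : ℕ} (h : β + 1 ≤ B) {t : ℚ}
    (h1 : ∀ c < N, t - ro N c ≠ 0) (h2 : ∀ c < N, t + ((n : ℚ) - 2 + ro N c) ≠ 0) :
    (et N a n B β).eval t = (Pj N n B).eval t * sg1 N a n β t := by
  unfold et sg1 Pj
  rw [eval_finsetSum, Finset.mul_sum]
  refine Finset.sum_congr rfl fun c hc => ?_
  have hc' := Finset.mem_range.1 hc
  rw [eval_mul, eval_C, eval_mul, e1_eval h (h1 c hc') (h2 c hc'), ← Finset.mul_prod_erase _ _ hc, eval_mul]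
  ring

/-- the identity for the values -/
lemma val_gen {N : ℕ} {a : ZMod N → ℚ} {n b M B : ℕ} (hB : b + 2 * M ≤ B + 1) {κ : ℕ → ℚ} {u v : ℚ[X]}
    (h : Pj N n B * (u * sh 1 v - sh 1 u * v) +
      (∑ l ∈ Finset.range M, C (κ l) * et N a n B (b + 2 * l)) * v * sh 1 v = 0)
    {t : ℚ} (h1 : ∀ c < N, t - ro N c ≠ 0) (h2 : ∀ c < N, t + ((n : ℚ) - 2 + ro N c) ≠ 0)
    (h3 : v.eval t ≠ 0) (h4 : v.eval (t - 1) ≠ 0) :
    u.eval t / v.eval t - u.eval (t - 1) / v.eval (t - 1) =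
      - ∑ l ∈ Finset.range M, κ l * sg1 N a n (b + 2 * l) t := by
  have h5 := congrArg (Polynomial.eval t) h
  have h6 : (∑ l ∈ Finset.range M, C (κ l) * et N a n B (b + 2 * l)).eval t =
      (Pj N n B).eval t * ∑ l ∈ Finset.range M, κ l * sg1 N a n (b + 2 * l) t := by
    rw [eval_finsetSum, Finset.mul_sum]
    refine Finset.sum_congr rfl fun l hl => ?_
    have := Finset.mem_range.1 hl
    rw [eval_mul, eval_C, et_eval a (by omega) h1 h2]
    ring
  have h7 : ∀ p : ℚ[X], (sh 1 p).eval t = p.eval (t - 1) := fun p => by simp [sh]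
  rw [eval_add, eval_mul, eval_mul, eval_mul, h6, eval_sub, eval_mul, eval_mul, h7, h7,
    eval_zero] at h5
  set S := ∑ l ∈ Finset.range M, κ l * sg1 N a n (b + 2 * l) t with hS
  have h8 : (Pj N n B).eval t ≠ 0 := by
    unfold Pj fc
    rw [eval_prod]
    refine Finset.prod_ne_zero_iff.2 fun c hc => ?_
    have hc' := Finset.mem_range.1 hc
    simp only [eval_mul, eval_pow, eval_sub, eval_add, eval_X, eval_C]
    exact mul_ne_zero (pow_ne_zero _ (h1 c hc')) (pow_ne_zero _ (h2 c hc'))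
  have h10 : (u.eval t * v.eval (t - 1) - u.eval (t - 1) * v.eval t) +
      S * (v.eval t * v.eval (t - 1)) = 0 := by
    have : (Pj N n B).eval t *
      ((u.eval t * v.eval (t - 1) - u.eval (t - 1) * v.eval t) +
      S * (v.eval t * v.eval (t - 1))) = 0 := by
      rw [← h5]
      ring
    rcases mul_eq_zero.1 this with h' | h'
    · exact absurd h' h8
    · exact h'
  rw [div_sub_div _ _ h3 h4, div_eq_iff (mul_ne_zero h3 h4)]
  linear_combination h10

/-- the telescoping sum -/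
lemma sum_gen {N : ℕ} {a : ZMod N → ℚ} {n b M B : ℕ} (hB : b + 2 * M ≤ B + 1) {κ : ℕ → ℚ} {u v : ℚ[X]}
    (h : Pj N n B * (u * sh 1 v - sh 1 u * v) +
      (∑ l ∈ Finset.range M, C (κ l) * et N a n B (b + 2 * l)) * v * sh 1 v = 0)
    (K : ℕ) {t : ℚ} (h1 : ∀ i : ℕ, i < 2 * K → ∀ c < N, t + (i + 1 - K) - ro N c ≠ 0)
    (h2 : ∀ i : ℕ, i < 2 * K → ∀ c < N, t + (i + 1 - K) + ((n : ℚ) - 2 + ro N c) ≠ 0)
    (h3 : ∀ i : ℕ, i ≤ 2 * K → v.eval (t + (i - K)) ≠ 0) :
    u.eval (t + K) / v.eval (t + K) - u.eval (t + -K) / v.eval (t + -K) =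
      - ∑ i ∈ Finset.range (2 * K), ∑ l ∈ Finset.range M, κ l * sg1 N a n (b + 2 * l) (t + (i + 1 - K)) := by
  have key := Finset.sum_range_sub (fun i : ℕ => u.eval (t + (i - K)) / v.eval (t + (i - K)))
    (2 * K)
  have e1 : t + (((2 * K : ℕ) : ℚ) - K) = t + K := by
    push_cast
    ring
  have e2 : t + (((0 : ℕ) : ℚ) - K) = t + -K := by
    push_cast
    ring
  simp only [e1, e2] at key
  rw [← key, ← Finset.sum_neg_distrib]
  refine Finset.sum_congr rfl fun i hi => ?_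
  have hi' := Finset.mem_range.1 hi
  have e3 : t + ((i : ℚ) + 1 - K) - 1 = t + (i - K) := by
    ring
  have e4 : (((i + 1 : ℕ) : ℚ) - K) = (i : ℚ) + 1 - K := by
    push_cast
    ring
  have h5 := h3 (i + 1) (by omega)
  rw [e4] at h5 ⊢
  have := val_gen hB h (t := t + ((i : ℚ) + 1 - K)) (h1 i hi') (h2 i hi') h5 (by rw [e3]; exact h3 i (by omega))
  rw [e3] at this
  exact this

lemma cnt_r1 {N c0 c K : ℕ} (hc0 : c0 < N) (hc : c < N) (hK : 1 ≤ K) :
    cnt K (1 - K + (ro N c0 - ro N c)) = if c = c0 then 1 else 0 := by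
  have hN : (0 : ℚ) < N := by exact_mod_cast (by omega : 0 < N)
  have key : ∀ i : ℕ, ((i : ℚ) + (1 - K + (ro N c0 - ro N c)) = 0) ↔ (c = c0 ∧ i = K - 1) := by
    intro i
    unfold ro
    constructor
    · intro h
      have h1 : ((i : ℚ) + 1 - K) * N + ((c0 : ℚ) - c) = 0 := by
        have : ((i : ℚ) + 1 - K) * N + ((c0 : ℚ) - c) =
          ((i : ℚ) + (1 - K + (((c0 : ℚ) + 1) / N - ((c : ℚ) + 1) / N))) * N := by
          field_simp
          ring
        rw [this, h, zero_mul]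
      have h2 : ((i : ℤ) + 1 - K) * N + ((c0 : ℤ) - c) = 0 := by exact_mod_cast h1
      have h3 : (i : ℤ) + 1 - K = 0 := by
        by_contra h0
        rcases lt_or_gt_of_ne h0 with h4 | h4
        · have : ((i : ℤ) + 1 - K) * N ≤ -1 * N := by
            apply mul_le_mul_of_nonneg_right _ (by positivity)
            omega
          omega
        · have : 1 * (N : ℤ) ≤ ((i : ℤ) + 1 - K) * N := by
            apply mul_le_mul_of_nonneg_right _ (by positivity)
            omega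
          omega
      rw [h3, zero_mul] at h2
      omega
    · rintro ⟨rfl, rfl⟩
      have : (((K - 1 : ℕ) : ℚ)) = K - 1 := by
        rw [Nat.cast_sub hK]
        push_cast
        ring
      rw [this]
      ring
  unfold cnt
  simp only [key]
  split_ifs with h
  · rw [Finset.sum_eq_single (K - 1)]
    · rw [if_pos ⟨h, rfl⟩]
    · intro i _ hi
      rw [if_neg (fun h' => hi h'.2)]
    · intro h'
      exact absurd (Finset.mem_range.2 (by omega)) h'
  · exact Finset.sum_eq_zero fun i _ => if_neg fun h' => h h'.1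

lemma cnt_r2 {N c0 c K n : ℕ} (hc0 : c0 < N) (hc : c < N) (hn : 1 ≤ n) (hK : n + 1 ≤ K) :
    cnt K (1 - K + (ro N c0 + ((n : ℚ) - 2 + ro N c))) = if N ∣ c0 + c + 2 then 1 else 0 := by
  have hN : (0 : ℚ) < N := by exact_mod_cast (by omega : 0 < N)
  have key : ∀ i : ℕ, ((i : ℚ) + (1 - K + (ro N c0 + ((n : ℚ) - 2 + ro N c))) = 0) ↔
      ((i : ℤ) + n - 1 - K) * N + ((c0 : ℤ) + c + 2) = 0 := by
    intro i
    unfold ro
    have e : ((i : ℚ) + n - 1 - K) * N + ((c0 : ℚ) + c + 2) =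
        ((i : ℚ) + (1 - K + (((c0 : ℚ) + 1) / N + ((n : ℚ) - 2 + ((c : ℚ) + 1) / N)))) * N := by
      field_simp
      ring
    constructor
    · intro h
      rw [h, zero_mul] at e
      exact_mod_cast e
    · intro h
      have h1 : ((i : ℚ) + n - 1 - K) * N + ((c0 : ℚ) + c + 2) = 0 := by exact_mod_cast h
      rw [h1] at e
      rcases mul_eq_zero.1 e.symm with h2 | h2
      · exact h2
      · exact absurd h2 hN.ne'
  unfold cnt
  simp only [key]
  split_ifs with h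
  · obtain ⟨m, hm⟩ := h
    have hm2 : m ≤ 2 := by
      by_contra h0
      have : N * 3 ≤ N * m := Nat.mul_le_mul_left _ (by omega)
      omega
    have hm0 : m ≠ 0 := by
      rintro rfl
      omega
    have hmz : ((c0 : ℤ) + c + 2) = N * m := by exact_mod_cast hm
    rw [Finset.sum_eq_single (K - n + 1 - m)]
    · rw [if_pos]
      rw [hmz]
      have : ((K - n + 1 - m : ℕ) : ℤ) = K - n + 1 - m := by omega
      rw [this]
      ring
    · intro i _ hi
      rw [if_neg]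
      intro h'
      apply hi
      rw [hmz] at h'
      have h2 : ((i : ℤ) + n - 1 - K + m) * N = 0 := by linear_combination h'
      rcases mul_eq_zero.1 h2 with h3 | h3
      · omega
      · omega
    · intro h'
      exact absurd (Finset.mem_range.2 (by omega)) h'
  · refine Finset.sum_eq_zero fun i _ => if_neg fun h' => h ?_
    have h1 : ((c0 : ℤ) + c + 2) = N * (K + 1 - i - n) := by linear_combination h'
    have h2 : (N : ℤ) ∣ ((c0 + c + 2 : ℕ) : ℤ) := ⟨K + 1 - i - n, by push_cast; exact h1⟩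
    exact_mod_cast h2

lemma sum_r2 {N c0 : ℕ} (hc0 : c0 < N) (a : ZMod N → ℚ) :
    ∑ c ∈ Finset.range N, a ((c : ZMod N) + 1) * (if N ∣ c0 + c + 2 then 1 else 0) =
      a (-((c0 : ZMod N) + 1)) := by
  have key : ∀ c, N ∣ c0 + c + 2 → (c : ZMod N) + 1 = -((c0 : ZMod N) + 1) := by
    intro c h
    have h1 := (ZMod.natCast_eq_zero_iff (c0 + c + 2) N).2 h
    push_cast at h1
    linear_combination h1
  obtain ⟨c', hc', hd, hu⟩ : ∃ c' < N, N ∣ c0 + c' + 2 ∧ ∀ c < N, N ∣ c0 + c + 2 → c = c' := by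
    have hu : ∀ c < N, ∀ c' < N, N ∣ c0 + c + 2 → N ∣ c0 + c' + 2 → c = c' := by
      intro c hc c' hc' h1 h2
      rcases le_total c c' with h | h
      · have h3 := Nat.dvd_sub h2 h1
        have h4 : c0 + c' + 2 - (c0 + c + 2) = c' - c := by omega
        rw [h4] at h3
        have := Nat.eq_zero_of_dvd_of_lt h3 (by omega)
        omega
      · have h3 := Nat.dvd_sub h1 h2
        have h4 : c0 + c + 2 - (c0 + c' + 2) = c - c' := by omega
        rw [h4] at h3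
        have := Nat.eq_zero_of_dvd_of_lt h3 (by omega)
        omega
    by_cases h : c0 + 2 ≤ N
    · have h1 : N ∣ c0 + (N - 2 - c0) + 2 := by
        have : c0 + (N - 2 - c0) + 2 = N := by omega
        rw [this]
      exact ⟨N - 2 - c0, by omega, h1, fun c hc h2 => hu c hc _ (by omega) h2 h1⟩
    · have h1 : N ∣ c0 + (N - 1) + 2 := by
        have : c0 + (N - 1) + 2 = 2 * N := by omega
        rw [this]
        exact Dvd.intro_left _ rfl
      exact ⟨N - 1, by omega, h1, fun c hc h2 => hu c hc _ (by omega) h2 h1⟩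
  rw [Finset.sum_eq_single c']
  · rw [if_pos hd, mul_one, key c' hd]
  · intro c hc hne
    rw [if_neg (fun h => hne (hu c (Finset.mem_range.1 hc) h)), mul_zero]
  · intro h
    exact absurd (Finset.mem_range.2 hc') h

/-- **POLE**: the coefficients vanish. -/
theorem pole_gen {N : ℕ} (a : ZMod N → ℚ) {n b M B : ℕ} (hB : b + 2 * M ≤ B + 1) (κ : ℕ → ℚ) (u v : ℚ[X])
    (hn : 1 ≤ n) (hv : v ≠ 0)
    (h : Pj N n B * (u * sh 1 v - sh 1 u * v) +
      (∑ l ∈ Finset.range M, C (κ l) * et N a n B (b + 2 * l)) * v * sh 1 v = 0)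
    (c0 : ℕ) (hc0 : c0 < N) (hac : (-1) ^ b * a ((c0 : ZMod N) + 1) + a (-((c0 : ZMod N) + 1)) ≠ 0) :
    ∀ l < M, κ l = 0 := by
  obtain ⟨ρ, hρ⟩ : ∃ ρ, ρ = ro N c0 := ⟨_, rfl⟩
  -- the shift of `v`
  have hv' : v.comp (X + C ρ) ≠ 0 := by
    intro h0
    apply hv
    have := congrArg (fun p : ℚ[X] => p.comp (X - C ρ)) h0
    simpa [comp_assoc] using this
  obtain ⟨K, hK, hK1, hK2⟩ := exists_shift (v.comp (X + C ρ)) hv' (n + 1)
  rw [eval_comp, eval_add, eval_X, eval_C] at hK1 hK2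
  suffices H : ∀ l < M, κ l * ((-1) ^ b * a ((c0 : ZMod N) + 1) + a (-((c0 : ZMod N) + 1))) = 0 by
    intro l hl
    rcases mul_eq_zero.1 (H l hl) with h1 | h1
    · exact h1
    · exact absurd h1 hac
  refine pole_unique b M _ ?_
  have r1 : Rg fun t => u.eval (t + (K + ρ)) / v.eval (t + (K + ρ)) := rg_quot u v _ hK1
  have r2 : Rg fun t => u.eval (t + (-K + ρ)) / v.eval (t + (-K + ρ)) := rg_quot u v _ hK2
  have r3 : ∀ l ∈ Finset.range M, Rg fun t => κ l * (∑ c ∈ Finset.range N, a ((c : ZMod N) + 1) *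
      (((-1) ^ (b + 2 * l) * (∑ i ∈ Finset.range (2 * K), 1 / (t + (i + (1 - K + (ρ - ro N c)))) ^ (b + 2 * l + 1) -
        cnt K (1 - K + (ρ - ro N c)) * (1 / t ^ (b + 2 * l + 1)))) +
      (∑ i ∈ Finset.range (2 * K), 1 / (t + (i + (1 - K + (ρ + ((n : ℚ) - 2 + ro N c))))) ^ (b + 2 * l + 1) -
        cnt K (1 - K + (ρ + ((n : ℚ) - 2 + ro N c))) * (1 / t ^ (b + 2 * l + 1))))) := by
    intro l _
    refine Rg.cmul _ (Rg.sum _ _ fun c _ => Rg.cmul _ (Rg.add (Rg.cmul _ ?_) ?_))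
    · exact rg_cnt K _ _
    · exact rg_cnt K _ _
  have r4 := Rg.cmul (-1 : ℚ) (Rg.add (Rg.sub r1 r2) (Rg.sum _ _ r3))
  refine r4.congr ?_
  have c1 : ∀ i ∈ Finset.range (2 * K), ∀ᶠ t in 𝓝[≠] (0 : ℚ), ∀ c ∈ Finset.range N,
      t + ρ + ((i : ℚ) + 1 - K) - ro N c ≠ 0 := by
    intro i _
    rw [Filter.eventually_all_finset]
    intro c _
    have := pole_ne (X + C (ρ + ((i : ℚ) + 1 - K) - ro N c)) (X_add_C_ne_zero _) 0
    filter_upwards [this] with t ht
    rw [eval_add, eval_X, eval_C] at ht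
    intro h0
    apply ht
    linear_combination h0
  have c2 : ∀ i ∈ Finset.range (2 * K), ∀ᶠ t in 𝓝[≠] (0 : ℚ), ∀ c ∈ Finset.range N,
      t + ρ + ((i : ℚ) + 1 - K) + ((n : ℚ) - 2 + ro N c) ≠ 0 := by
    intro i _
    rw [Filter.eventually_all_finset]
    intro c _
    have := pole_ne (X + C (ρ + ((i : ℚ) + 1 - K) + ((n : ℚ) - 2 + ro N c))) (X_add_C_ne_zero _) 0
    filter_upwards [this] with t ht
    rw [eval_add, eval_X, eval_C] at ht
    intro h0
    apply ht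
    linear_combination h0
  have c3 : ∀ i ∈ Finset.range (2 * K + 1), ∀ᶠ t in 𝓝[≠] (0 : ℚ),
      v.eval (t + ρ + ((i : ℚ) - K)) ≠ 0 := by
    intro i _
    have hc : v.comp (X + C (ρ + ((i : ℚ) - K))) ≠ 0 := by
      intro h0
      apply hv
      have := congrArg (fun p : ℚ[X] => p.comp (X - C (ρ + ((i : ℚ) - K)))) h0
      simpa [comp_assoc] using this
    have := pole_ne _ hc 0
    filter_upwards [this] with t ht
    rw [eval_comp, eval_add, eval_X, eval_C] at ht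
    rwa [add_assoc]
  rw [← Filter.eventually_all_finset] at c1 c2 c3
  filter_upwards [c1, c2, c3] with t h1 h2 h3
  have key := sum_gen hB h K (t := t + ρ) (fun i hi c hc => h1 i (Finset.mem_range.2 hi) c (Finset.mem_range.2 hc))
    (fun i hi c hc => h2 i (Finset.mem_range.2 hi) c (Finset.mem_range.2 hc))
    (fun i hi => h3 i (Finset.mem_range.2 (by omega)))
  have k1 : t + ρ + (K : ℚ) = t + (K + ρ) := by ring
  have k2 : t + ρ + -(K : ℚ) = t + (-K + ρ) := by ring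
  rw [k1, k2] at key
  rw [key, Finset.sum_comm, ← Finset.sum_neg_distrib, ← Finset.sum_add_distrib, Finset.mul_sum]
  refine Finset.sum_congr rfl fun l _ => ?_
  have e0 : ∑ c ∈ Finset.range N, a ((c : ZMod N) + 1) * ((-1) ^ (b + 2 * l) * cnt K (1 - K + (ρ - ro N c)) +
      cnt K (1 - K + (ρ + ((n : ℚ) - 2 + ro N c)))) = (-1) ^ b * a ((c0 : ZMod N) + 1) + a (-((c0 : ZMod N) + 1)) := by
    rw [← sum_r2 hc0 a]
    have e1 : ∀ c ∈ Finset.range N, a ((c : ZMod N) + 1) * ((-1) ^ (b + 2 * l) * cnt K (1 - K + (ρ - ro N c)) +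
      cnt K (1 - K + (ρ + ((n : ℚ) - 2 + ro N c)))) = (-1) ^ b * (a ((c : ZMod N) + 1) * (if c = c0 then 1 else 0)) +
        a ((c : ZMod N) + 1) * (if N ∣ c0 + c + 2 then 1 else 0) := by
      intro c hc
      have hc' := Finset.mem_range.1 hc
      have hp : ((-1 : ℚ) ^ (2 * l)) = 1 := by rw [pow_mul]; norm_num
      rw [hρ, cnt_r1 hc0 hc' (by omega), cnt_r2 hc0 hc' hn (by omega), pow_add, hp, mul_one]
      ring
    rw [Finset.sum_congr rfl e1, Finset.sum_add_distrib, ← Finset.mul_sum]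
    congr 2
    simp only [mul_ite, mul_one, mul_zero]
    rw [Finset.sum_ite_eq' (Finset.range N) c0 (fun c => a ((c : ZMod N) + 1)), if_pos (Finset.mem_range.2 hc0)]
  have e2 : ∑ i ∈ Finset.range (2 * K), sg1 N a n (b + 2 * l) (t + ρ + ((i : ℚ) + 1 - K)) =
      ∑ c ∈ Finset.range N, a ((c : ZMod N) + 1) *
      ((-1) ^ (b + 2 * l) * (∑ i ∈ Finset.range (2 * K), 1 / (t + (i + (1 - K + (ρ - ro N c)))) ^ (b + 2 * l + 1)) +
      ∑ i ∈ Finset.range (2 * K), 1 / (t + (i + (1 - K + (ρ + ((n : ℚ) - 2 + ro N c))))) ^ (b + 2 * l + 1)) := by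
    unfold sg1
    rw [Finset.sum_comm]
    refine Finset.sum_congr rfl fun c _ => ?_
    rw [← Finset.mul_sum, Finset.sum_add_distrib, ← Finset.mul_sum]
    have e3 : ∀ i : ℕ, t + ρ + ((i : ℚ) + 1 - K) - ro N c = t + (i + (1 - K + (ρ - ro N c))) := fun i => by ring
    have e4 : ∀ i : ℕ, t + ρ + ((i : ℚ) + 1 - K) + ((n : ℚ) - 2 + ro N c) =
        t + (i + (1 - K + (ρ + ((n : ℚ) - 2 + ro N c)))) := fun i => by ring
    simp only [e3, e4]
  rw [← Finset.mul_sum, e2, ← e0]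
  obtain ⟨S1, hS1⟩ : ∃ S1 : ℕ → ℚ, S1 = fun c => ∑ i ∈ Finset.range (2 * K),
    1 / (t + (i + (1 - K + (ρ - ro N c)))) ^ (b + 2 * l + 1) := ⟨_, rfl⟩
  obtain ⟨S2, hS2⟩ : ∃ S2 : ℕ → ℚ, S2 = fun c => ∑ i ∈ Finset.range (2 * K),
    1 / (t + (i + (1 - K + (ρ + ((n : ℚ) - 2 + ro N c))))) ^ (b + 2 * l + 1) := ⟨_, rfl⟩
  have f1 : ∀ c, ∑ i ∈ Finset.range (2 * K),
    1 / (t + (i + (1 - K + (ρ - ro N c)))) ^ (b + 2 * l + 1) = S1 c := fun c => by rw [hS1]
  have f2 : ∀ c, ∑ i ∈ Finset.range (2 * K),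
    1 / (t + (i + (1 - K + (ρ + ((n : ℚ) - 2 + ro N c))))) ^ (b + 2 * l + 1) = S2 c := fun c => by rw [hS2]
  simp only [f1, f2]
  have f3 : ∑ c ∈ Finset.range N, a ((c : ZMod N) + 1) *
      ((-1) ^ (b + 2 * l) * (S1 c - cnt K (1 - K + (ρ - ro N c)) * (1 / t ^ (b + 2 * l + 1))) +
      (S2 c - cnt K (1 - K + (ρ + ((n : ℚ) - 2 + ro N c))) * (1 / t ^ (b + 2 * l + 1)))) =
      ∑ c ∈ Finset.range N, a ((c : ZMod N) + 1) * ((-1) ^ (b + 2 * l) * S1 c + S2 c) -
      (∑ c ∈ Finset.range N, a ((c : ZMod N) + 1) * ((-1) ^ (b + 2 * l) * cnt K (1 - K + (ρ - ro N c)) +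
      cnt K (1 - K + (ρ + ((n : ℚ) - 2 + ro N c))))) * (1 / t ^ (b + 2 * l + 1)) := by
    rw [Finset.sum_mul, ← Finset.sum_sub_distrib]
    refine Finset.sum_congr rfl fun c _ => ?_
    ring
  rw [f3]
  ring

end

end Pool.Agent.Helper76.RP
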