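import Pool.Graph.R_pool_sql_team_seeded_63374d34.N797.PW.Main

/-!
# Siegel's lemma for rational functions with poles at the multiples of `N`
-/

set_option autoImplicit false

open Polynomial Pool.Agent.H337R2 Pool.Agent.W165.OZ Pool.Agent.Y926.LZ Pool.Agent.Y926.TW Filter

namespace Pool.Agent.Helper76.RP

open Pool.Agent.N797.PW

noncomputable section

/-- the poles are multiples of `-N` -/
def DV (N : ℕ) (c : ℕ → ℕ → ℤ) : Prop := ∀ i k, ¬ N ∣ k → c i k = 0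

/-- the numerical condition for Siegel's lemma -/
def SgNum (h h₁ ν r B w H : ℕ) : Prop :=
  (H * (2 * ((2 * ν + 1) * DW (2 * ν + 1) (2 * h) (2 * w + 2) * 8 ^ ((w + 1) * (2 * ν + 1)))) + 1) ^
      (w * (2 * ν + 1) + 1) *
    (H * (2 * ((2 * ν + 1) * (2 * h) * 2 ^ (2 * h + B) *
      Dl ((r + 1) * (2 * ν + 1)) 1 ^ (2 * h + B))) + 1) ^ (r * (2 * ν + 1) * B) *
    (Dl (2 * ν + 1) 1 ^ (2 * h + B)) ^ ((2 * ν + 1) * B) < (H + 1) ^ (2 * h₁ * ν)

/-- **NUM** -/
theorem num (h h₁ r B w x J : ℕ) (hh : 1 ≤ h) (hh₁ : 1 ≤ h₁) (hJ : 2 * h ≤ 2 ^ J * w)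
    (hK : (w + 1) * (x + 5 * w + 8 * J * (w + 1) + 5) + r * B * (x + 4 * (r + 1) * (2 * h + B) + 1) +
    4 * B * (2 * h + B) < x * h₁) :
    ∀ᶠ ν in atTop, SgNum h h₁ ν r B w (2 ^ (x * (2 * ν + 1))) := by
  have hG : S_GCD := t_gcd
  have hN : Tendsto (fun ν : ℕ => 2 * ν + 1) atTop atTop :=
    tendsto_atTop_mono (fun ν => by show ν ≤ _; omega) tendsto_id
  have hN' : Tendsto (fun ν : ℕ => (r + 1) * (2 * ν + 1)) atTop atTop :=
    tendsto_atTop_mono (fun ν => by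
      have : 1 * (2 * ν + 1) ≤ (r + 1) * (2 * ν + 1) := Nat.mul_le_mul_right _ (by omega)
      show ν ≤ _
      omega) tendsto_id
  have hG' := hG (2 * h) (2 * w + 2) w J hJ
  filter_upwards [hN.eventually num_Dl_le, hN'.eventually num_Dl_le, hN.eventually hG',
    hN.eventually (num_lin 4), hN.eventually (num_lin (8 * h * 2 ^ (2 * h + B))),
    hN.eventually (eventually_ge_atTop (x * h₁))] with ν e1 e2 e3 e4 e5 e6
  unfold SgNum
  obtain ⟨n, hn⟩ : ∃ n, n = 2 * ν + 1 := ⟨_, rfl⟩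
  rw [← hn] at e1 e2 e3 e4 e5 e6 ⊢
  have hn1 : 1 ≤ n := by omega
  have e3' : DW n (2 * h) (2 * w + 2) ≤ 2 ^ ((2 * w + 4 * J * (2 * w + 2) + 1) * n) := by
    exact_mod_cast e3
  have f1 := num_f1 (w := w) (x := x) hn1 e3' e4
  have f2 := num_f2 (B := B) (x := x) (R := r + 1) hn1 hh e2 e5
  have g1 : (2 ^ (x * n) * (2 * (n * DW n (2 * h) (2 * w + 2) * 8 ^ ((w + 1) * n))) + 1) ^
      (w * n + 1) ≤ 2 ^ ((w + 1) * (x + 5 * w + 8 * J * (w + 1) + 5) * (n * n)) := by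
    calc _ ≤ (2 ^ ((x + (2 * w + 4 * J * (2 * w + 2) + 1) + 3 * (w + 1) + 1) * n)) ^ (w * n + 1) :=
          Nat.pow_le_pow_left f1 _
      _ ≤ (2 ^ ((x + (2 * w + 4 * J * (2 * w + 2) + 1) + 3 * (w + 1) + 1) * n)) ^ ((w + 1) * n) :=
          Nat.pow_le_pow_right (by positivity) (by nlinarith)
      _ = _ := by
          rw [← pow_mul]
          congr 1
          ring
  have g2 : (2 ^ (x * n) * (2 * (n * (2 * h) * 2 ^ (2 * h + B) *
      Dl ((r + 1) * n) 1 ^ (2 * h + B))) + 1) ^ (r * n * B) ≤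
      2 ^ (r * B * (x + 4 * (r + 1) * (2 * h + B) + 1) * (n * n)) := by
    calc _ ≤ (2 ^ ((x + 4 * (r + 1) * (2 * h + B) + 1) * n)) ^ (r * n * B) :=
          Nat.pow_le_pow_left f2 _
      _ = _ := by
          rw [← pow_mul]
          congr 1
          ring
  have g3 : (Dl n 1 ^ (2 * h + B)) ^ (n * B) ≤ 2 ^ (4 * B * (2 * h + B) * (n * n)) := by
    calc _ ≤ ((2 ^ (4 * n)) ^ (2 * h + B)) ^ (n * B) :=
          Nat.pow_le_pow_left (Nat.pow_le_pow_left e1 _) _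
      _ = _ := by
          rw [← pow_mul, ← pow_mul]
          congr 1
          ring
  have h1 := Nat.mul_le_mul (Nat.mul_le_mul g1 g2) g3
  rw [← pow_add, ← pow_add, ← add_mul, ← add_mul] at h1
  refine lt_of_le_of_lt h1 ?_
  have h2 : ((w + 1) * (x + 5 * w + 8 * J * (w + 1) + 5) + r * B * (x + 4 * (r + 1) * (2 * h + B) + 1) +
      4 * B * (2 * h + B)) * (n * n) ≤ x * n * (2 * h₁ * ν) := by
    have h3 := Nat.mul_le_mul_right (n * n) (Nat.succ_le_of_lt hK)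
    rw [Nat.succ_mul] at h3
    have h4 : x * h₁ * n ≤ n * n := Nat.mul_le_mul_right _ e6
    have h5 : x * n * (2 * h₁ * ν) + x * h₁ * n = x * h₁ * (n * n) := by
      rw [hn]
      ring
    omega
  have h3 : 1 ≤ ν := by
    by_contra h0
    have h0' : ν = 0 := by omega
    rw [h0', mul_zero, mul_zero] at h2
    have hn' : n = 1 := by omega
    rw [hn', mul_one, mul_one] at h2
    have h6 : (1 : ℕ) ≤ (w + 1) * (x + 5 * w + 8 * J * (w + 1) + 5) :=
      Nat.mul_pos (by omega) (by omega)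
    omega
  calc 2 ^ (((w + 1) * (x + 5 * w + 8 * J * (w + 1) + 5) +
        r * B * (x + 4 * (r + 1) * (2 * h + B) + 1) + 4 * B * (2 * h + B)) * (n * n))
      ≤ 2 ^ (x * n * (2 * h₁ * ν)) := Nat.pow_le_pow_right (by norm_num) h2
    _ = (2 ^ (x * n)) ^ (2 * h₁ * ν) := by rw [← pow_mul]
    _ < (2 ^ (x * n) + 1) ^ (2 * h₁ * ν) := by
        apply Nat.pow_lt_pow_left (Nat.lt_succ_self _)
        positivity

/-! ### Siegel's lemma -/

open JSG Finset

variable {h N μ : ℕ}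

/-- the embedding of the index sets -/
def em (hN : 1 ≤ N) (q : Fin (2 * h) × Fin μ) : Fin (2 * h) × Fin (N * μ) :=
  (q.1, ⟨N * q.2, Nat.mul_lt_mul_of_pos_left q.2.2 hN⟩)

lemma em_inj (hN : 1 ≤ N) : Function.Injective (em (h := h) (μ := μ) hN) := by
  intro a b hab
  have h1 := congrArg Prod.fst hab
  have h2 := congrArg (fun t => (t.2 : ℕ)) hab
  simp only [em] at h1 h2
  have h3 : (a.2 : ℕ) = b.2 := Nat.eq_of_mul_eq_mul_left hN h2
  exact Prod.ext h1 (Fin.ext h3)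

/-- extension by zero -/
def ext0 (hN : 1 ≤ N) (y : Fin (2 * h) × Fin μ → ℤ) : Fin (2 * h) × Fin (N * μ) → ℤ :=
  Function.extend (em hN) y 0

lemma ext0_em (hN : 1 ≤ N) (y : Fin (2 * h) × Fin μ → ℤ) (q) : ext0 hN y (em hN q) = y q :=
  (em_inj hN).extend_apply y 0 q

lemma ext0_not (hN : 1 ≤ N) (y : Fin (2 * h) × Fin μ → ℤ) (a : Fin (2 * h)) (k : Fin (N * μ))
    (hk : ¬ N ∣ (k : ℕ)) : ext0 hN y (a, k) = 0 := by
  unfold ext0
  rw [Function.extend_apply']
  · rfl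
  · rintro ⟨q, hq⟩
    apply hk
    have := congrArg (fun t => (t.2 : ℕ)) hq
    simp only [em] at this
    rw [← this]
    exact Dvd.intro _ rfl

lemma sum_ext0 (hN : 1 ≤ N) (F : Fin (2 * h) × Fin (N * μ) → ℤ) (y : Fin (2 * h) × Fin μ → ℤ) :
    ∑ q, F q * ext0 hN y q = ∑ q, F (em hN q) * y q := by
  classical
  have h1 : ∑ q ∈ univ.image (em (h := h) (μ := μ) hN), F q * ext0 hN y q =
      ∑ q, F (em hN q) * y q := by
    rw [sum_image fun a _ b _ hab => em_inj hN hab]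
    exact sum_congr rfl fun q _ => by rw [ext0_em]
  rw [← h1]
  symm
  refine sum_subset (subset_univ _) fun q _ hq => ?_
  have : ext0 hN y q = 0 := by
    unfold ext0
    rw [Function.extend_apply']
    · rfl
    · rintro ⟨q', hq'⟩
      exact hq (mem_image.2 ⟨q', mem_univ _, hq'⟩)
  rw [this, mul_zero]

lemma sum_em_le (hN : 1 ≤ N) (F : Fin (2 * h) × Fin (N * μ) → ℤ) (hF : ∀ q, 0 ≤ F q) :
    ∑ q, F (em hN q) ≤ ∑ q, F q := by
  classical
  have h1 : ∑ q ∈ univ.image (em (h := h) (μ := μ) hN), F q = ∑ q, F (em hN q) := by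
    rw [sum_image fun a _ b _ hab => em_inj hN hab]
  rw [← h1]
  exact sum_le_sum_of_subset_of_nonneg (subset_univ _) fun q _ _ => hF q

lemma cx_dv (hN : 1 ≤ N) (y : Fin (2 * h) × Fin μ → ℤ) : DV N (cx (ext0 hN y)) := by
  have hxx : ∀ a k, ¬ N ∣ k → xx (ext0 hN y) a k = 0 := by
    intro a k hk
    unfold xx
    split_ifs with hc
    · exact ext0_not hN y ⟨a, hc.1⟩ ⟨k, hc.2⟩ hk
    · rfl
  intro i k hk
  unfold cx
  split_ifs with h1 h2 h3
  · exact hxx _ _ hk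
  · rw [hxx, mul_zero]
    intro h4
    apply hk
    have h5 : k = 2 * (N * μ) - (2 * (N * μ) - k) := by omega
    rw [h5]
    exact Nat.dvd_sub (Dvd.dvd.mul_left (Dvd.intro _ rfl) 2) h4
  · rfl
  · rfl

/-- SG: Siegel's lemma with poles at the multiples of `-N` -/
theorem sg {h h₁ N μ r B w H : ℕ} (hN : 1 ≤ N) (_hh : 1 ≤ h) (hμ : 1 ≤ μ) (hh₁ : h = N * h₁)
    (hSg : SgNum h h₁ (N * μ) r B w H) :
    ∃ c : ℕ → ℕ → ℤ, DV N c ∧ AS h (2 * (N * μ) + 1) c ∧ NZ h (2 * (N * μ) + 1) c ∧ (∀ i k, |c i k| ≤ (H : ℤ)) ∧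
    TA h (2 * (N * μ) + 1) c (w * (2 * (N * μ) + 1)) ∧ TB h (2 * (N * μ) + 1) c r B ∧
      TC h (2 * (N * μ) + 1) c B := by
  have h1 : S_PIG := t_pig
  have h2 : S_JI := t_ji
  have h3 : S_JB := t_jb
  obtain ⟨ν, hν⟩ : ∃ ν, ν = N * μ := ⟨_, rfl⟩
  obtain ⟨n, hn⟩ : ∃ n, n = 2 * (N * μ) + 1 := ⟨_, rfl⟩
  obtain ⟨e, he⟩ : ∃ e, e = 2 * h + B := ⟨_, rfl⟩
  obtain ⟨D, hD⟩ : ∃ D, D = DW n (2 * h) (2 * w + 2) := ⟨_, rfl⟩
  have hD0 : 0 < D := by
    rw [hD]
    unfold DW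
    exact Nat.gcd_pos_of_pos_left _ (Nat.pow_pos (Pool.Agent.W165.OZ.PRaux.Dl_pos n 1))
  have hDl : ∀ N, 0 < Dl N 1 := fun N => Pool.Agent.W165.OZ.PRaux.Dl_pos N 1
  -- the entries of the three kinds
  have hA : ∀ l i k : ℕ, ∃ M : ℤ, l ≤ w * n → i ≤ 2 * h →
      (D : ℚ) * PowerSeries.coeff i (TS (-(k : ℚ)) (gq n l)) = M := by
    intro l i k
    by_cases hl : l ≤ w * n ∧ i ≤ 2 * h
    · obtain ⟨M, hM⟩ := h2 n l w (2 * h) i (-(k : ℤ)) (by omega) hl.1 hl.2
      refine ⟨M, fun _ _ => ?_⟩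
      rw [hD, ← hM]
      push_cast
      rfl
    · exact ⟨0, fun a b => absurd ⟨a, b⟩ hl⟩
  choose MA hMA using hA
  have hB : ∀ (N : ℕ) (t : ℤ) (β i k : ℕ), ∃ M : ℤ, t + k ≤ N → i + β ≤ e →
      (Dl N 1 : ℚ) ^ e * ph β t i k = M ∧ |M| ≤ 2 ^ e * (Dl N 1 : ℤ) ^ e := by
    intro N t β i k
    by_cases hl : t + k ≤ N ∧ i + β ≤ e
    · obtain ⟨M, hM⟩ := ent_ph (β := β) (i := i) (k := k) hl.1 hl.2
      exact ⟨M, fun _ _ => hM⟩
    · exact ⟨0, fun a b => absurd ⟨a, b⟩ hl⟩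
  choose MB hMB using hB
  obtain ⟨V1, hV1⟩ : ∃ V1, V1 = 2 * (n * D * 8 ^ ((w + 1) * n)) := ⟨_, rfl⟩
  obtain ⟨V2, hV2⟩ : ∃ V2, V2 = 2 * (n * (2 * h) * 2 ^ e * Dl ((r + 1) * n) 1 ^ e) := ⟨_, rfl⟩
  have key := h1 (Fin (2 * h) × Fin μ) (Fin (w * n + 1) ⊕ (Fin (r * n) × Fin B)) (Fin n × Fin B)
    (Sum.elim (fun l q => cf (ν := N * μ) (fun i k => MA l (i - 1) k) (em hN q))
      (fun q q' => cf (ν := N * μ) (fun i k => MB ((r + 1) * n) (((q.1 : ℕ) : ℤ) + 1) q.2 i k) (em hN q')))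
    (fun q q' => cf (ν := N * μ) (fun i k => MB n (-((q.1 : ℕ) : ℤ)) q.2 i k) (em hN q'))
    (Sum.elim (fun _ => V1) fun _ => V2) (fun _ => Dl n 1 ^ e) H ?_ ?_ ?_
  · obtain ⟨y, hy0, hyH, hyf, hyg⟩ := key
    obtain ⟨x, hx⟩ : ∃ x, x = ext0 (h := h) (μ := μ) hN y := ⟨_, rfl⟩
    have hx0 : x ≠ 0 := by
      intro h0
      apply hy0
      funext q
      rw [← ext0_em hN y q, ← hx, h0]
      rfl
    have hxH : ∀ i, |x i| ≤ (H : ℤ) := by
      intro q
      by_cases hq : ∃ q', em hN q' = q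
      · obtain ⟨q', rfl⟩ := hq
        rw [hx, ext0_em]
        exact hyH q'
      · rw [hx]
        unfold ext0
        rw [Function.extend_apply' _ _ _ hq]
        simp
    refine ⟨cx x, by rw [hx]; exact cx_dv hN y, cx_as x, cx_nz x hx0, cx_le x hxH, ?_, ?_, ?_⟩
    · intro l hl
      rw [← hn] at hl ⊢
      have h4 := functional x (fun i k => PowerSeries.coeff (i - 1) (TS (-(k : ℚ)) (gq n l))) D
        (fun i k => MA l (i - 1) k) fun i k _ _ _ => hMA l (i - 1) k hl (by omega)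
      have h5 := hyf (Sum.inl ⟨l, by omega⟩)
      simp only [Sum.elim_inl] at h5
      rw [← sum_ext0 hN, ← hx] at h5
      rw [h5, Int.cast_zero] at h4
      unfold LF
      rw [← hn] at h4
      rcases mul_eq_zero.1 h4 with h6 | h6
      · exact absurd h6 (by exact_mod_cast hD0.ne')
      · exact h6
    · intro t ht1 ht2 β hβ
      rw [← hn] at ht2 ⊢
      obtain ⟨t', ht'⟩ := Int.eq_ofNat_of_zero_le (show 0 ≤ t - 1 by omega)
      have ht'' : t = (t' : ℤ) + 1 := by omega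
      have ht3 : t' < r * n := by
        have : (t' : ℤ) < r * n := by omega
        exact_mod_cast this
      have hN : ∀ k : ℕ, k < n → t + k ≤ (((r + 1) * n : ℕ) : ℤ) := by
        intro k hk
        push_cast
        have : (k : ℤ) < n := by exact_mod_cast hk
        nlinarith
      have h4 := functional x (fun i k => ph β t i k) ((Dl ((r + 1) * n) 1 : ℚ) ^ e)
        (fun i k => MB ((r + 1) * n) t β i k) fun i k hi1 hi2 hk =>
          (hMB ((r + 1) * n) t β i k (hN k (by omega)) (by omega)).1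
      have h5 := hyf (Sum.inr (⟨t', ht3⟩, ⟨β, hβ⟩))
      simp only [Sum.elim_inr] at h5
      rw [← sum_ext0, ← hx] at h5
      rw [← ht''] at h5
      rw [h5, Int.cast_zero] at h4
      rw [ev_eq]
      rw [← hn] at h4
      rcases mul_eq_zero.1 h4 with h6 | h6
      · exact absurd h6 (pow_ne_zero _ (by exact_mod_cast (hDl _).ne'))
      · exact h6
    · intro v hv β hβ
      rw [← hn] at hv ⊢
      have h4 := functional x (fun i k => ph β (-(v : ℤ)) i k) ((Dl n 1 : ℚ) ^ e)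
        (fun i k => MB n (-(v : ℤ)) β i k) fun i k hi1 hi2 hk =>
          (hMB n (-(v : ℤ)) β i k (by omega) (by omega)).1
      obtain ⟨M, hM⟩ := hyg (⟨v, hv⟩, ⟨β, hβ⟩)
      simp only at hM
      rw [← sum_ext0, ← hx] at hM
      rw [hM, ← hn] at h4
      refine ⟨M, ?_⟩
      rw [ev_eq]
      have h5 : ((Dl n 1 : ℚ) ^ e) ≠ 0 := pow_ne_zero _ (by exact_mod_cast (hDl _).ne')
      apply mul_left_cancel₀ h5
      rw [h4]
      push_cast
      ring
  · rintro (l | ⟨t, β⟩)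
    · simp only [Sum.elim_inl]
      have hl := l.2
      refine (sum_em_le hN (fun q => |cf (ν := N * μ) (fun i k => MA l (i - 1) k) q|) fun q => abs_nonneg _).trans ?_
      refine (cf_le (ν := N * μ) (fun i k => MA l (i - 1) k) (D * 8 ^ ((w + 1) * n)) fun k hk => ?_).trans ?_
      · have h4 : ∑ i ∈ Icc 1 (2 * h), |((MA l (i - 1) k : ℤ) : ℚ)| ≤
            ((D * 8 ^ ((w + 1) * n) : ℕ) : ℚ) := by
          rw [sum_Icc1]
          have h5 : ∀ a ∈ range (2 * h), |((MA l (a + 1 - 1) k : ℤ) : ℚ)| =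
              (D : ℚ) * |PowerSeries.coeff a (TS (-(k : ℚ)) (gq n l))| := by
            intro a ha
            rw [mem_range] at ha
            rw [Nat.add_sub_cancel, ← hMA l a k (by omega) (by omega), abs_mul, Nat.abs_cast]
          rw [sum_congr rfl h5, ← mul_sum]
          have h6 := h3 n l k (2 * h) (by omega) (by omega)
          calc (D : ℚ) * ∑ a ∈ range (2 * h), |PowerSeries.coeff a (TS (-(k : ℚ)) (gq n l))|
              ≤ (D : ℚ) * 8 ^ ((l : ℕ) + n) := mul_le_mul_of_nonneg_left h6 (by positivity)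
            _ ≤ (D : ℚ) * 8 ^ ((w + 1) * n) := by
                refine mul_le_mul_of_nonneg_left (pow_le_pow_right₀ (by norm_num) ?_) (by positivity)
                have : (w + 1) * n = w * n + n := by ring
                omega
            _ = ((D * 8 ^ ((w + 1) * n) : ℕ) : ℚ) := by push_cast; ring
        exact_mod_cast h4
      · have h4 : 2 * ((N * μ) * (D * 8 ^ ((w + 1) * n))) ≤ V1 := by
          rw [hV1, ← hν]
          rw [← hν] at hn
          have h6 : n * D * 8 ^ ((w + 1) * n) = n * (D * 8 ^ ((w + 1) * n)) := by ring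
          rw [h6]
          exact Nat.mul_le_mul_left _ (Nat.mul_le_mul_right _ (by omega))
        exact_mod_cast h4
    · simp only [Sum.elim_inr]
      have ht := t.2
      have hβ := β.2
      have hN' : ∀ k : ℕ, k < n → (((t : ℕ) : ℤ) + 1) + k ≤ (((r + 1) * n : ℕ) : ℤ) := by
        intro k hk
        have h5 : (t : ℕ) + 1 + k ≤ (r + 1) * n := by
          have : (r + 1) * n = r * n + n := by ring
          omega
        exact_mod_cast h5
      refine (sum_em_le hN (fun q => |cf (ν := N * μ) (fun i k => MB ((r + 1) * n) (((t : ℕ) : ℤ) + 1) β i k) q|)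
        fun q => abs_nonneg _).trans ?_
      refine (cf_le (ν := N * μ) (fun i k => MB ((r + 1) * n) (((t : ℕ) : ℤ) + 1) β i k)
        (2 * h * (2 ^ e * Dl ((r + 1) * n) 1 ^ e)) fun k hk => ?_).trans ?_
      · have h5 : ∀ i ∈ Icc 1 (2 * h), |MB ((r + 1) * n) (((t : ℕ) : ℤ) + 1) β i k| ≤
            ((2 ^ e * Dl ((r + 1) * n) 1 ^ e : ℕ) : ℤ) := by
          intro i hi
          rw [mem_Icc] at hi
          have h6 := (hMB ((r + 1) * n) (((t : ℕ) : ℤ) + 1) β i k (hN' k (by omega)) (by omega)).2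
          push_cast
          exact h6
        refine (sum_le_sum h5).trans (le_of_eq ?_)
        rw [sum_const, Nat.card_Icc, nsmul_eq_mul, Nat.add_sub_cancel]
        push_cast
        ring
      · have h4 : 2 * ((N * μ) * (2 * h * (2 ^ e * Dl ((r + 1) * n) 1 ^ e))) ≤ V2 := by
          rw [hV2, ← hν]
          rw [← hν] at hn
          refine Nat.mul_le_mul_left _ ?_
          have : n * (2 * h) * 2 ^ e * Dl ((r + 1) * n) 1 ^ e =
            n * (2 * h * (2 ^ e * Dl ((r + 1) * n) 1 ^ e)) := by ring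
          rw [this]
          exact Nat.mul_le_mul_right _ (by omega)
        exact_mod_cast h4
  · intro j
    exact Nat.pow_pos (hDl n)
  · rw [Fintype.prod_sum_type]
    simp only [Sum.elim_inl, Sum.elim_inr, prod_const, card_univ, Fintype.card_prod,
      Fintype.card_fin]
    unfold SgNum at hSg
    rw [← hn, ← he, ← hD, ← hV1, ← hV2] at hSg
    have h7 : 2 * h * μ = 2 * h₁ * (N * μ) := by rw [hh₁]; ring
    rw [h7]
    exact hSg

end

end Pool.Agent.Helper76.RP
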