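import Pool.Agent.Helper76.RP.Pole
import Pool.Graph.R_pool_sql_team_seeded_63374d34.N797.PW.J_SY

/-!
# The zero estimate for periodic coefficients
-/

set_option autoImplicit false

open Polynomial Pool.Agent.H337R2 Pool.Agent.W165.OZ Pool.Agent.Y926.LZ Pool.Agent.Y926.TW Filter

namespace Pool.Agent.Helper76.RP

open Pool.Agent.N797.PW

noncomputable section

/-! ### Scaling -/

/-- the scaled coefficients -/
def cs (N h : ℕ) (c : ℕ → ℕ → ℤ) (i k : ℕ) : ℤ := (N : ℤ) ^ (2 * h - i) * c i (N * k)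

lemma sum_dv {N : ℕ} (hN : 1 ≤ N) (μ : ℕ) (F : ℕ → ℚ) (hF : ∀ k, ¬ N ∣ k → F k = 0) :
    ∑ k ∈ Finset.range (2 * (N * μ) + 1), F k = ∑ k ∈ Finset.range (2 * μ + 1), F (N * k) := by
  classical
  have hinj : Set.InjOn (fun k => N * k) (Finset.range (2 * μ + 1) : Set ℕ) :=
    fun a _ b _ hab => Nat.eq_of_mul_eq_mul_left hN hab
  rw [← Finset.sum_image (f := F) hinj]
  symm
  refine Finset.sum_subset ?_ ?_
  · intro k hk
    obtain ⟨k', hk', rfl⟩ := Finset.mem_image.1 hk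
    have h1 := Finset.mem_range.1 hk'
    refine Finset.mem_range.2 ?_
    have h2 : N * k' ≤ N * (2 * μ) := Nat.mul_le_mul_left _ (by omega)
    have h3 : N * (2 * μ) = 2 * (N * μ) := by ring
    show N * k' < 2 * (N * μ) + 1
    omega
  · intro k hk hk'
    refine hF k fun hd => hk' ?_
    obtain ⟨k', rfl⟩ := hd
    refine Finset.mem_image.2 ⟨k', Finset.mem_range.2 ?_, rfl⟩
    have h1 := Finset.mem_range.1 hk
    by_contra h2
    have h3 : N * (2 * μ + 1) ≤ N * k' := Nat.mul_le_mul_left _ (by omega)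
    have h4 : N * (2 * μ + 1) = 2 * (N * μ) + N := by ring
    omega

lemma LF_scale {N h μ : ℕ} (hN : 1 ≤ N) {c : ℕ → ℕ → ℤ} (hc : DV N c) (E : ℕ → PowerSeries ℚ) :
    (N : ℚ) ^ (2 * h - 1) * LF h (2 * (N * μ) + 1) c E =
      LF h (2 * μ + 1) (cs N h c) (fun k => PowerSeries.rescale (N : ℚ) (E (N * k))) := by
  unfold LF
  rw [sum_dv hN μ _ (fun k hk => Finset.sum_eq_zero fun i _ => by rw [hc i k hk, Int.cast_zero, zero_mul]),
    Finset.mul_sum]
  refine Finset.sum_congr rfl fun k _ => ?_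
  rw [Finset.mul_sum]
  refine Finset.sum_congr rfl fun i hi => ?_
  rw [Finset.mem_Icc] at hi
  rw [PowerSeries.coeff_rescale]
  unfold cs
  push_cast
  have h1 : 2 * h - 1 = (2 * h - i) + (i - 1) := by omega
  rw [h1, pow_add]
  ring

lemma cs_AS {N h μ : ℕ} (_hN : 1 ≤ N) {c : ℕ → ℕ → ℤ} (hAS : AS h (2 * (N * μ) + 1) c) :
    AS h (2 * μ + 1) (cs N h c) := by
  intro k hk i h1 h2
  unfold cs
  have h3 : N * k ≤ N * (2 * μ) := Nat.mul_le_mul_left _ (by omega)
  have h4 : N * (2 * μ) = 2 * (N * μ) := by ring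
  have h5 := hAS (N * k) (by omega) i h1 h2
  have h6 : N * (2 * μ + 1 - 1 - k) = 2 * (N * μ) + 1 - 1 - N * k := by
    rw [Nat.add_sub_cancel, Nat.add_sub_cancel, Nat.mul_sub, h4]
  rw [h6, h5]
  ring

lemma cs_NZ {N h μ : ℕ} (hN : 1 ≤ N) {c : ℕ → ℕ → ℤ} (hc : DV N c) (hNZ : NZ h (2 * (N * μ) + 1) c) :
    NZ h (2 * μ + 1) (cs N h c) := by
  obtain ⟨i, k, h1, h2, h3, h4⟩ := hNZ
  have hd : N ∣ k := by
    by_contra hd
    exact h4 (hc i k hd)
  obtain ⟨k', rfl⟩ := hd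
  refine ⟨i, k', h1, h2, ?_, ?_⟩
  · by_contra h5
    have h6 : N * (2 * μ + 1) ≤ N * k' := Nat.mul_le_mul_left _ (by omega)
    have h7 : N * (2 * μ + 1) = 2 * (N * μ) + N := by ring
    omega
  · unfold cs
    refine mul_ne_zero (pow_ne_zero _ ?_) h4
    exact_mod_cast (by omega : N ≠ 0)

lemma rescale_TS {N : ℕ} (k : ℕ) (p : ℚ[X]) :
    PowerSeries.rescale (N : ℚ) (TS (-((N * k : ℕ) : ℚ)) p) = TS (-(k : ℚ)) (p.comp (C (N : ℚ) * X)) := by
  induction p using Polynomial.induction_on' with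
  | add p q hp hq => rw [map_add, map_add, hp, hq, Polynomial.add_comp, map_add]
  | monomial n a =>
    rw [← Polynomial.C_mul_X_pow_eq_monomial]
    simp only [map_mul, map_pow, Polynomial.mul_comp, Polynomial.C_comp, Polynomial.pow_comp, Polynomial.X_comp,
      TS_C, TS_X, rescale_Cq]
    congr 2
    rw [map_add, rescale_Cq, PowerSeries.rescale_X]
    rw [mul_add, ← map_mul]
    congr 2
    push_cast
    ring

lemma yp_scale (N μ : ℕ) : (yp (2 * (N * μ) + 1)).comp (C (N : ℚ) * X) =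
    C ((N : ℚ) ^ 2) * yp (2 * μ + 1) := by
  unfold yp
  rw [Polynomial.mul_comp, Polynomial.add_comp, Polynomial.X_comp, Polynomial.C_comp]
  have h1 : (((2 * (N * μ) + 1 : ℕ) : ℚ) - 1) = N * (((2 * μ + 1 : ℕ) : ℚ) - 1) := by
    push_cast
    ring
  rw [h1, map_mul, map_pow]
  ring

/-- the conditions for the scaled functional -/
lemma scaled {N h μ G : ℕ} (hN : 1 ≤ N) {c : ℕ → ℕ → ℤ} (hc : DV N c) {E : ℕ → PowerSeries ℚ}
    (hL : ∀ l ≤ G, LF h (2 * (N * μ) + 1) c (fun k => TS (-(k : ℚ)) (gq (2 * (N * μ) + 1) l) * E k) = 0) :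
    ∀ l ≤ G, LF h (2 * μ + 1) (cs N h c) (fun k => TS (-(k : ℚ)) (gq (2 * μ + 1) l) *
      PowerSeries.rescale (N : ℚ) (E (N * k))) = 0 := by
  intro l hl
  have hN0 : (N : ℚ) ≠ 0 := by exact_mod_cast (by omega : N ≠ 0)
  obtain ⟨g, hg⟩ : ∃ g : ℚ[X], g = (Gb (2 * μ + 1) l).comp (C (((N : ℚ) ^ 2)⁻¹) * X) := ⟨_, rfl⟩
  have hgd : g.natDegree ≤ l := by
    rw [hg, Polynomial.natDegree_comp, Pool.Agent.Y926.TW.SYM.Gb_deg]
    have : (C (((N : ℚ) ^ 2)⁻¹) * X : ℚ[X]).natDegree ≤ 1 := by compute_degree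
    calc l * (C (((N : ℚ) ^ 2)⁻¹) * X : ℚ[X]).natDegree ≤ l * 1 := Nat.mul_le_mul_left _ this
      _ = l := mul_one l
  have h1 := SYx.LF_span hL (G + 1) le_rfl g
    (lt_of_le_of_lt Polynomial.degree_le_natDegree (by exact_mod_cast (by omega : g.natDegree < G + 1)))
  have h2 := LF_scale (h := h) (μ := μ) hN hc (fun k => TS (-(k : ℚ)) (g.comp (yp (2 * (N * μ) + 1))) * E k)
  rw [h1, mul_zero] at h2
  rw [h2]
  congr 1
  funext k
  rw [map_mul, rescale_TS, Polynomial.comp_assoc, yp_scale]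
  congr 2
  rw [hg, Polynomial.comp_assoc, Polynomial.mul_comp, Polynomial.C_comp, Polynomial.X_comp, ← mul_assoc, ← map_mul,
    inv_mul_cancel₀ (pow_ne_zero 2 hN0), map_one, one_mul]
  rfl

lemma fc_natDegree (N n B c : ℕ) : (fc N n B c).natDegree ≤ 2 * B := by
  unfold fc
  refine Polynomial.natDegree_mul_le.trans ?_
  have h1 : ((X - C (ro N c)) ^ B).natDegree ≤ B := by
    have := Polynomial.natDegree_pow_le (p := (X - C (ro N c))) (n := B)
    rwa [Polynomial.natDegree_X_sub_C, mul_one] at this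
  have h2 := natDegree_add_pow_le ((n : ℚ) - 2 + ro N c) B
  omega

lemma e1_natDegree (N n B β c : ℕ) : (e1 N n B β c).natDegree ≤ 2 * B := by
  unfold e1
  have h1 : ∀ d, ((X - C (ro N c)) ^ d).natDegree ≤ d := by
    intro d
    have := Polynomial.natDegree_pow_le (p := (X - C (ro N c))) (n := d)
    rwa [Polynomial.natDegree_X_sub_C, mul_one] at this
  have h2 := fun d => natDegree_add_pow_le ((n : ℚ) - 2 + ro N c) d
  refine (Polynomial.natDegree_add_le _ _).trans (max_le ?_ ?_)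
  · refine (Polynomial.natDegree_C_mul_le _ _).trans ?_
    refine Polynomial.natDegree_mul_le.trans ?_
    have := h1 (B - β - 1)
    have := h2 B
    omega
  · refine Polynomial.natDegree_mul_le.trans ?_
    have := h1 B
    have := h2 (B - β - 1)
    omega

lemma Pj_natDegree (N n B : ℕ) : (Pj N n B).natDegree ≤ 2 * N * B := by
  unfold Pj
  refine (Polynomial.natDegree_prod_le _ _).trans ?_
  refine (Finset.sum_le_sum fun c _ => fc_natDegree N n B c).trans (le_of_eq ?_)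
  rw [Finset.sum_const, Finset.card_range, smul_eq_mul]
  ring

lemma et_natDegree (N : ℕ) (a : ZMod N → ℚ) (n B β : ℕ) : (et N a n B β).natDegree ≤ 2 * N * B := by
  unfold et
  refine Polynomial.natDegree_sum_le_of_forall_le _ _ fun c hc => ?_
  refine (Polynomial.natDegree_C_mul_le _ _).trans ?_
  refine Polynomial.natDegree_mul_le.trans ?_
  have h1 := e1_natDegree N n B β c
  have h2 : (∏ c' ∈ (Finset.range N).erase c, fc N n B c').natDegree ≤ (N - 1) * (2 * B) := by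
    refine (Polynomial.natDegree_prod_le _ _).trans ?_
    refine (Finset.sum_le_sum fun c' _ => fc_natDegree N n B c').trans (le_of_eq ?_)
    rw [Finset.sum_const, Finset.card_erase_of_mem hc, Finset.card_range, smul_eq_mul]
  have h3 : 2 * N * B = (N - 1) * (2 * B) + 2 * B := by
    have : 1 ≤ N := by have := Finset.mem_range.1 hc; omega
    obtain ⟨m, rfl⟩ : ∃ m, N = m + 1 := ⟨N - 1, by omega⟩
    rw [Nat.add_sub_cancel]
    ring
  omega

lemma Pj_ne_zero (N n B : ℕ) : Pj N n B ≠ 0 := by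
  unfold Pj fc
  refine Finset.prod_ne_zero_iff.2 fun c _ => ?_
  exact mul_ne_zero (pow_ne_zero _ (Polynomial.X_sub_C_ne_zero _))
    (pow_ne_zero _ (Polynomial.X_add_C_ne_zero _))

/-- **The zero estimate.** -/
theorem ze {N : ℕ} (hN : 1 ≤ N) (a : ZMod N → ℚ) (z : ℕ → ℚ) (h μ b M B G : ℕ) (c : ℕ → ℕ → ℤ) (hh : 1 ≤ h)
    (hMn : M < 2 * μ + 1) (hc : DV N c) (hAS : AS h (2 * (N * μ) + 1) c) (hNZ : NZ h (2 * (N * μ) + 1) c)
    (hTA : TA h (2 * (N * μ) + 1) c G) (hB : b + 2 * M ≤ B)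
    (ha : ∃ r : ZMod N, (-1) ^ b * a r + a (-r) ≠ 0)
    (hL : ∀ j < M, ∀ l ≤ G, LP N a z h (2 * (N * μ) + 1) c (gq (2 * (N * μ) + 1) l) (b + 2 * j) = 0)
    (hG : 2 * G + 3 ≤ (2 * μ + 1) * (2 * h))
    (hineq : 2 * h * (2 * μ + 1) + 2 * N * B * (M * (M + 1)) + 2 * h * M ^ 2 < (2 * G + 3) * (M + 1)) : False := by
  have hSY : S_SY := t_sy
  obtain ⟨n, hn⟩ : ∃ n, n = 2 * μ + 1 := ⟨_, rfl⟩
  have hn1 : 1 ≤ n := by omega
  -- the scaled data
  have hAS' := cs_AS hN hAS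
  have hNZ' := cs_NZ hN hc hNZ
  have hTA' : TA h (2 * μ + 1) (cs N h c) G := by
    intro l hl
    have h1 := scaled (h := h) (μ := μ) (G := G) hN hc (E := fun _ => 1) (fun l hl => by
      have := hTA l hl
      simpa using this) l hl
    simpa using h1
  have hL' : ∀ j < M, ∀ l ≤ G, LF h (2 * μ + 1) (cs N h c) (fun k => TS (-(k : ℚ)) (gq (2 * μ + 1) l) *
      EE N a z h (b + 2 * j) k) = 0 := by
    intro j hj l hl
    have h1 := scaled (h := h) (μ := μ) (G := G) hN hc (E := fun k => EP N a z h (b + 2 * j) k) (fun l hl => by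
      rw [← LP_eq]
      exact hL j hj l hl) l hl
    have h2 : (fun k : ℕ => TS (-(k : ℚ)) (gq (2 * μ + 1) l) * EE N a z h (b + 2 * j) k) = fun k : ℕ =>
        PowerSeries.C ((N : ℚ) ^ (b + 2 * j + 1)) * (TS (-(k : ℚ)) (gq (2 * μ + 1) l) *
          PowerSeries.rescale (N : ℚ) (EP N a z h (b + 2 * j) (N * k))) := by
      funext k
      unfold EE
      ring
    rw [h2, SPL.LF_C_mul, h1, mul_zero]
  rw [← hn] at hMn hAS' hNZ' hTA' hL' hG hineq
  obtain ⟨c', hc'⟩ : ∃ c', c' = cs N h c := ⟨_, rfl⟩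
  rw [← hc'] at hAS' hNZ' hTA' hL'
  -- the polynomial `P`
  obtain ⟨hP0, hPd⟩ := t_pd h n c' hn1 hh hNZ'
  have hPdeg := hPd (2 * G + 1) (by omega) (fun f hf => LF_all hSY hn1 hAS' hTA' f hf)
  -- the polynomials `A`
  have hA : ∀ j : Fin M, ∃ A : ℚ[X], A.natDegree + (2 * G + 1) + 2 ≤ n * (2 * h) ∧
      ∀ k < n, (PowerSeries.X : PowerSeries ℚ) ^ (2 * h) ∣
        TS (-(k : ℚ)) (PF h n c') * EB N a z h n (b + 2 * j) k - TS (-(k : ℚ)) A := by
    intro j
    apply t_du h n (2 * G + 1) c' (fun k => EB N a z h n (b + 2 * j) k) hn1 hh (by omega)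
    intro f hf
    exact hSY h n G c' (fun k => EE N a z h (b + 2 * j) k) hn1 hAS' (hL' j j.2) f hf
  choose A hA1 hA2 using hA
  -- the determinant
  have hdet := t_det M n (2 * h) (2 * N * B) (n * (2 * h) - (2 * G + 3)) (PF h n c')
    (Pj N n B) A (fun l : Fin M => et N a n B (b + 2 * l))
    (fun k l => EB N a z h n (b + 2 * l) k) hMn (by omega) (fun l => by have := hA1 l; omega)
    (Pj_natDegree _ _ _) (fun l => et_natDegree _ _ _ _ _) (fun k hk l => hA2 l k hk)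
    (fun k hk l => by
      have h1 := EB_rcw hN a z h n B (b + 2 * l) k (by have := l.2; omega) hk
      rw [h1, sub_self]
      exact dvd_zero _) (by
      obtain ⟨r, hr⟩ : ∃ r, n = M + r := ⟨n - M, by omega⟩
      obtain ⟨D', hD⟩ : ∃ D', n * (2 * h) = D' + (2 * G + 3) := ⟨n * (2 * h) - (2 * G + 3), by omega⟩
      have e1 : n * (2 * h) - (2 * G + 3) = D' := by omega
      have e2 : n - M = r := by omega
      rw [e1, e2]
      have e3 : 2 * h * M * n = 2 * h * M * r + 2 * h * M ^ 2 := by rw [hr]; ring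
      have e4 : 2 * h * M * n = M * (D' + (2 * G + 3)) := by rw [← hD]; ring
      have e5 : 2 * h * n = D' + (2 * G + 3) := by rw [← hD]; ring
      have e6 : (M + 1) * D' + 2 * N * B * (M * (M + 1)) + 2 * h * M ^ 2 <
          2 * h * M * r + 2 * h * M ^ 2 := by
        rw [← e3, e4]
        have e7 : M * (D' + (2 * G + 3)) + (D' + (2 * G + 3)) = (M + 1) * D' + (2 * G + 3) * (M + 1) := by
          ring
        have e8 : D' + (2 * G + 3) + 2 * N * B * (M * (M + 1)) + 2 * h * M ^ 2 <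
          (2 * G + 3) * (M + 1) := by rw [← e5]; exact hineq
        omega
      omega)
  obtain ⟨κ, u, v, hκ, hv, huv⟩ := t_semi M (PF h n c') (Pj N n B) A
    (fun l : Fin M => et N a n B (b + 2 * l)) hP0 (Pj_ne_zero _ _ _) hdet
  -- the poles
  obtain ⟨r, hr⟩ := ha
  obtain ⟨c0, hc0, hrc⟩ : ∃ c0 < N, ((c0 : ℕ) : ZMod N) + 1 = r := by
    have : NeZero N := ⟨by omega⟩
    refine ⟨(r - 1).val, ZMod.val_lt _, ?_⟩
    rw [ZMod.natCast_zmod_val, sub_add_cancel]
  have h1 : (∑ l ∈ Finset.range M, C ((fun l => if hl : l < M then κ ⟨l, hl⟩ else 0) l) * et N a n B (b + 2 * l)) =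
      ∑ l : Fin M, C (κ l) * et N a n B (b + 2 * l) := by
    rw [Finset.sum_range]
    refine Finset.sum_congr rfl fun l _ => ?_
    simp only [l.2, dif_pos, Fin.eta]
  have h2 := pole_gen a (n := n) (b := b) (M := M) (B := B) (by omega)
    (fun l => if hl : l < M then κ ⟨l, hl⟩ else 0) u v hn1 hv (by rw [h1]; exact huv) c0 hc0
    (by rw [hrc]; exact hr)
  apply hκ
  funext l
  have := h2 l l.2
  simpa using this

end

end Pool.Agent.Helper76.RP
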